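import Mathlib

/-!
# Growth of the largest Newton covering number: definitions

`bodyS T s` is the convex hull of the points of `T` and of the ball of radius `s` about the origin.
`Psi h lam v` is the point `v - lam (v - h v)` of the ray from `v` through `h v`.
`NetM d M` indexes a finite family of affine maps `app del ω`, `SlabNet d M` a finite family of slabs.
`mu d` is the uniform probability measure of the closed unit ball.
-/

namespace Newton54G

open scoped RealInnerProductSpace ENNReal Pointwise
open MeasureTheory Metric

/-- Euclidean space. -/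
abbrev Eu (d : ℕ) : Type := EuclideanSpace ℝ (Fin d)

/-- The convex hull of the points of `T` and of the ball of radius `s`. -/
def bodyS {E : Type*} [NormedAddCommGroup E] [InnerProductSpace ℝ E] (T : Set E) (s : ℝ) : Set E :=
  convexHull ℝ (T ∪ closedBall 0 s)

/-- The point `v - lam (v - h v)`. -/
noncomputable def Psi {d : ℕ} (h : Eu d ≃ᵢ Eu d) (lam : ℝ) (v : Eu d) : Eu d := v - lam • (v - h v)

/-- Indices of a finite family of affine maps. -/
abbrev NetM (d M : ℕ) : Type := (Fin d → Fin d → Fin (2 * M + 1)) × (Fin d → Fin (2 * M + 1))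

/-- The integer between `-M` and `M`. -/
noncomputable def val {M : ℕ} (j : Fin (2 * M + 1)) : ℝ := (j.val : ℝ) - M

/-- The affine map with index `ω` and mesh `del`. -/
noncomputable def app {d M : ℕ} (del : ℝ) (ω : NetM d M) (w : Eu d) : Eu d :=
  WithLp.toLp 2 fun k => ∑ l, val (ω.1 k l) * del * w l + val (ω.2 k) * del

/-- Indices of a finite family of slabs. -/
abbrev SlabNet (d M : ℕ) : Type := (Fin d → Fin (2 * M + 1)) × Fin (2 * M + 1)

/-- The normal vector of a slab. -/
noncomputable def slabVec {d M : ℕ} (del : ℝ) (σ : SlabNet d M) : Eu d :=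
  WithLp.toLp 2 fun k => val (σ.1 k) * del

/-- The slab with index `σ`, mesh `del` and half width `wid` (empty if the normal vector is short). -/
def slabSet {d M : ℕ} (del wid : ℝ) (σ : SlabNet d M) : Set (Eu d) :=
  {x | ‖x‖ ≤ 1 ∧ 1 / 2 ≤ ‖slabVec del σ‖ ∧ |⟪slabVec del σ, x⟫ - val σ.2 * del| ≤ wid}

/-- The uniform probability measure of the closed unit ball. -/
noncomputable def mu (d : ℕ) : Measure (Eu d) :=
  (volume (closedBall (0 : Eu d) 1))⁻¹ • volume.restrict (closedBall (0 : Eu d) 1)

end Newton54G
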