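import Pool.Agent.Lib.MP_54d165_co.GR.Defs

/-!
# Symmetric sets of tips, cylinders
-/

namespace Newton54G

open scoped RealInnerProductSpace ENNReal Pointwise
open MeasureTheory Metric

/-- The points `v k` and `- v k`. -/
def symT {d N : ℕ} (v : Fin N → Eu d) : Set (Eu d) := Set.range v ∪ Set.range fun k => -v k

/-- The cylinder with centre `p`, axis `u`, radius `a` and half height `τ`. -/
def cyl {d : ℕ} (p u : Eu d) (a τ : ℝ) : Set (Eu d) :=
  {x | |⟪u, x - p⟫| ≤ τ ∧ ‖x - p - ⟪u, x - p⟫ • u‖ ≤ a}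

end Newton54G
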