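import Pool.Agent.Lib.MP_54d165_co.GR.Defs

/-! # Row GR-F: the body, and the number of copies -/

namespace Newton54G

open scoped RealInnerProductSpace
open MeasureTheory Metric

theorem F_join {E : Type*} [NormedAddCommGroup E] [NormedSpace ℝ E] {s t : Set E}
    (hs : IsCompact s) (ht : IsCompact t) : IsCompact (convexJoin ℝ s t) := by
  have h : convexJoin ℝ s t = (fun p : E × E × ℝ => AffineMap.lineMap p.1 p.2.1 p.2.2) ''
      (s ×ˢ (t ×ˢ Set.Icc (0 : ℝ) 1)) := by
    ext z
    rw [mem_convexJoin]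
    constructor
    · rintro ⟨a, ha, b, hb, hz⟩
      rw [segment_eq_image_lineMap] at hz
      obtain ⟨c, hc, rfl⟩ := hz
      exact ⟨(a, b, c), ⟨ha, hb, hc⟩, rfl⟩
    · rintro ⟨⟨a, b, c⟩, ⟨ha, hb, hc⟩, rfl⟩
      refine ⟨a, ha, b, hb, ?_⟩
      rw [segment_eq_image_lineMap]
      exact ⟨c, hc, rfl⟩
  rw [h]
  refine (hs.prod (ht.prod isCompact_Icc)).image ?_
  simp only [AffineMap.lineMap_apply_module]
  fun_prop

/-- Compactness of the body. Model: `body_compact` and `isCompact_join` in Pool/Agent/Results/MP_54d165_co/ExponentialLowerBound.lean (copy them, renamed). -/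
theorem bodyS_compact {d N : ℕ} (v : Fin N → Eu d) {s : ℝ} (hs : 0 < s) : IsCompact (bodyS (Set.range v) s) := by
  have h0 : Set.range v ∪ closedBall (0 : Eu d) s = insert 0 (Set.range v) ∪ closedBall 0 s := by
    rw [Set.insert_union, Set.insert_eq_of_mem]
    exact Or.inr (mem_closedBall_self hs.le)
  unfold bodyS
  rw [h0, convexHull_union ⟨0, Set.mem_insert _ _⟩ ⟨0, mem_closedBall_self hs.le⟩,
    (convex_closedBall (0 : Eu d) s).convexHull_eq]
  refine F_join ?_ (isCompact_closedBall _ _)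
  exact ((Set.finite_range v).insert 0).isCompact_convexHull (𝕜 := ℝ)

theorem bodyS_interior {d N : ℕ} (v : Fin N → Eu d) {s : ℝ} (hs : 0 < s) : (interior (bodyS (Set.range v) s)).Nonempty := by
  refine ⟨0, ?_⟩
  rw [mem_interior_iff_mem_nhds]
  refine Filter.mem_of_superset (closedBall_mem_nhds (0 : Eu d) hs) ?_
  exact Set.subset_union_right.trans (subset_convexHull _ _)

theorem bodyS_norm {E : Type*} [NormedAddCommGroup E] [InnerProductSpace ℝ E] {T : Set E} (hT : ∀ w ∈ T, ‖w‖ ≤ 1)
    {s : ℝ} (hs : s ≤ 1) {y : E} (hy : y ∈ bodyS T s) : ‖y‖ ≤ 1 := by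
  have h0 : bodyS T s ⊆ closedBall 0 1 := by
    refine convexHull_min ?_ (convex_closedBall _ _)
    rintro z (hz | hz)
    · rw [mem_closedBall, dist_zero_right]
      exact hT z hz
    · exact closedBall_subset_closedBall hs hz
  have h := h0 hy
  rwa [mem_closedBall, dist_zero_right] at h

open Classical in
/-- Every `v k` lies in `U`, and so do the points `(1 + 1 / (n + 1)) v k` for large `n`; some copy `g i` contains infinitely many of them, hence (closed) also `v k`. Then `h = (g i).symm` satisfies the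
condition of `hmt` for `k`. So `Fin N` is the union of `n` sets with at most `mt` elements. Model: `card_le_copies` in Pool/Agent/Lib/MP_54d165_co/Geometry.lean. -/
theorem final_count {d N mt : ℕ} {s : ℝ} (hs : 0 < s) (v : Fin N → Eu d)
    (hmt : ∀ h : Eu d ≃ᵢ Eu d, (Finset.univ.filter fun k => h (v k) ∈ bodyS (Set.range v) s ∧
      ∃ t : ℝ, 0 < t ∧ h ((1 + t) • v k) ∈ bodyS (Set.range v) s).card ≤ mt)
    (n : ℕ) (g : Fin n → (Eu d ≃ᵢ Eu d)) (U : Set (Eu d)) (hU : IsOpen U) (hCU : bodyS (Set.range v) s ⊆ U)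
    (hcov : U ⊆ ⋃ i, g i '' bodyS (Set.range v) s) : N ≤ n * mt := by
  have hclosed : IsClosed (bodyS (Set.range v) s) := (bodyS_compact v hs).isClosed
  have hex : ∀ k : Fin N, ∃ i, (g i).symm (v k) ∈ bodyS (Set.range v) s ∧
      ∃ t : ℝ, 0 < t ∧ (g i).symm ((1 + t) • v k) ∈ bodyS (Set.range v) s := by
    intro k
    have hxC : v k ∈ bodyS (Set.range v) s := subset_convexHull _ _ (Or.inl ⟨k, rfl⟩)
    have hcont : Filter.Tendsto (fun m : ℕ => (1 + 1 / ((m : ℝ) + 1)) • v k) Filter.atTop
        (nhds (v k)) := by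
      have h1 : Filter.Tendsto (fun m : ℕ => (1 + 1 / ((m : ℝ) + 1))) Filter.atTop
          (nhds (1 + 0)) :=
        tendsto_const_nhds.add tendsto_one_div_add_atTop_nhds_zero_nat
      have h2 := h1.smul_const (v k)
      simpa using h2
    have hev : ∀ᶠ m : ℕ in Filter.atTop, (1 + 1 / ((m : ℝ) + 1)) • v k ∈ U :=
      hcont.eventually (hU.mem_nhds (hCU hxC))
    have hev2 : ∀ᶠ m : ℕ in Filter.atTop, ∃ i : Fin n,
        (1 + 1 / ((m : ℝ) + 1)) • v k ∈ g i '' bodyS (Set.range v) s := by
      filter_upwards [hev] with m hm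
      exact Set.mem_iUnion.1 (hcov hm)
    have hfreq : ∃ i : Fin n, ∃ᶠ m : ℕ in Filter.atTop,
        (1 + 1 / ((m : ℝ) + 1)) • v k ∈ g i '' bodyS (Set.range v) s := by
      by_contra hcon
      simp only [not_exists, Filter.not_frequently] at hcon
      have := (Filter.eventually_all.2 hcon).and hev2
      obtain ⟨m, hm1, i, hi⟩ := this.exists
      exact hm1 i hi
    obtain ⟨i, hi⟩ := hfreq
    refine ⟨i, ?_, ?_⟩
    · have hcl : IsClosed (g i '' bodyS (Set.range v) s) :=
        (g i).toHomeomorph.isClosedMap _ hclosed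
      obtain ⟨z, hz, hzx⟩ := hcl.mem_of_frequently_of_tendsto hi hcont
      rw [← hzx, IsometryEquiv.symm_apply_apply]
      exact hz
    · obtain ⟨m, z, hz, hzm⟩ := hi.exists
      refine ⟨1 / ((m : ℝ) + 1), by positivity, ?_⟩
      rw [← hzm, IsometryEquiv.symm_apply_apply]
      exact hz
  rcases Nat.eq_zero_or_pos N with hN | hN
  · rw [hN]
    exact Nat.zero_le _
  have : Nonempty (Fin n) := ⟨(hex ⟨0, hN⟩).choose⟩
  choose idx h1 h2 using hex
  have hcard : (Finset.univ : Finset (Fin N)).card =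
      ∑ i : Fin n, (Finset.univ.filter (fun k => idx k = i)).card :=
    Finset.card_eq_sum_card_fiberwise (f := idx) (fun x _ => Finset.mem_coe.2 (Finset.mem_univ _))
  rw [Finset.card_univ, Fintype.card_fin] at hcard
  rw [hcard]
  calc ∑ i : Fin n, (Finset.univ.filter (fun k => idx k = i)).card ≤ ∑ i : Fin n, mt := by
        refine Finset.sum_le_sum fun i _ => ?_
        refine le_trans (Finset.card_le_card ?_) (hmt (g i).symm)
        intro k hk
        rw [Finset.mem_filter] at hk ⊢
        obtain ⟨_, rfl⟩ := hk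
        exact ⟨Finset.mem_univ _, h1 k, h2 k⟩
    _ = n * mt := by simp

end Newton54G
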