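import Pool.Agent.Lib.MP_54d165_co.GR.Defs2
import Pool.Agent.Lib.MP_54d165_co.GR.F

/-! # Row n54-F2: the symmetric body, and the number of copies -/

namespace Newton54G

open scoped RealInnerProductSpace
open MeasureTheory Metric

theorem F2_fin {d N : ℕ} (v : Fin N → Eu d) : (symT v).Finite :=
  (Set.finite_range v).union (Set.finite_range fun k => -v k)

/-- As `bodyS_compact` in F.lean (the set `symT v` is finite). -/
theorem symBody_compact {d N : ℕ} (v : Fin N → Eu d) {s : ℝ} (hs : 0 < s) : IsCompact (bodyS (symT v) s) := by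
  have h0 : symT v ∪ closedBall (0 : Eu d) s = insert 0 (symT v) ∪ closedBall 0 s := by
    rw [Set.insert_union, Set.insert_eq_of_mem]
    exact Or.inr (mem_closedBall_self hs.le)
  unfold bodyS
  rw [h0, convexHull_union ⟨0, Set.mem_insert _ _⟩ ⟨0, mem_closedBall_self hs.le⟩,
    (convex_closedBall (0 : Eu d) s).convexHull_eq]
  refine F_join ?_ (isCompact_closedBall _ _)
  exact ((F2_fin v).insert 0).isCompact_convexHull (𝕜 := ℝ)

/-- The generating set is symmetric. -/
theorem symBody_neg {d N : ℕ} (v : Fin N → Eu d) {s : ℝ} {x : Eu d} (hx : x ∈ bodyS (symT v) s) :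
    -x ∈ bodyS (symT v) s := by
  have h1 : bodyS (symT v) s ⊆ {y | -y ∈ bodyS (symT v) s} := by
    have hconv : Convex ℝ {y : Eu d | -y ∈ bodyS (symT v) s} := by
      intro a ha b hb p q hp hq hpq
      have h2 : Convex ℝ (bodyS (symT v) s) := convex_convexHull _ _
      have h3 := h2 ha hb hp hq hpq
      have h4 : -(p • a + q • b) = p • -a + q • -b := by
        rw [smul_neg, smul_neg, neg_add]
      show -(p • a + q • b) ∈ bodyS (symT v) s
      rw [h4]
      exact h3
    refine convexHull_min ?_ hconv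
    rintro y (hy | hy)
    · refine subset_convexHull _ _ (Or.inl ?_)
      rcases hy with ⟨k, rfl⟩ | ⟨k, rfl⟩
      · exact Or.inr ⟨k, rfl⟩
      · refine Or.inl ⟨k, ?_⟩
        simp
    · refine subset_convexHull _ _ (Or.inr ?_)
      rw [mem_closedBall, dist_zero_right] at hy ⊢
      rwa [norm_neg]
  exact h1 hx

open Classical in
/-- As `final_count` in F.lean, with the body `bodyS (symT v) s` (which contains all `v k`). -/
theorem final_count_sym {d N mt : ℕ} {s : ℝ} (hs : 0 < s) (v : Fin N → Eu d)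
    (hmt : ∀ h : Eu d ≃ᵢ Eu d, (Finset.univ.filter fun k => h (v k) ∈ bodyS (symT v) s ∧
      ∃ t : ℝ, 0 < t ∧ h ((1 + t) • v k) ∈ bodyS (symT v) s).card ≤ mt)
    (n : ℕ) (g : Fin n → (Eu d ≃ᵢ Eu d)) (U : Set (Eu d)) (hU : IsOpen U) (hCU : bodyS (symT v) s ⊆ U)
    (hcov : U ⊆ ⋃ i, g i '' bodyS (symT v) s) : N ≤ n * mt := by
  have hclosed : IsClosed (bodyS (symT v) s) := (symBody_compact v hs).isClosed
  have hex : ∀ k : Fin N, ∃ i, (g i).symm (v k) ∈ bodyS (symT v) s ∧
      ∃ t : ℝ, 0 < t ∧ (g i).symm ((1 + t) • v k) ∈ bodyS (symT v) s := by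
    intro k
    have hxC : v k ∈ bodyS (symT v) s := subset_convexHull _ _ (Or.inl (Or.inl ⟨k, rfl⟩))
    have hcont : Filter.Tendsto (fun m : ℕ => (1 + 1 / ((m : ℝ) + 1)) • v k) Filter.atTop
        (nhds (v k)) := by
      have h1 : Filter.Tendsto (fun m : ℕ => (1 + 1 / ((m : ℝ) + 1))) Filter.atTop
          (nhds (1 + 0)) :=
        tendsto_const_nhds.add tendsto_one_div_add_atTop_nhds_zero_nat
      have h2 := h1.smul_const (v k)
      simpa using h2
    have hev : ∀ᶠ m : ℕ in Filter.atTop, (1 + 1 / ((m : ℝ) + 1)) • v k ∈ U :=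
      hcont.eventually (hU.mem_nhds (hCU hxC))
    have hev2 : ∀ᶠ m : ℕ in Filter.atTop, ∃ i : Fin n,
        (1 + 1 / ((m : ℝ) + 1)) • v k ∈ g i '' bodyS (symT v) s := by
      filter_upwards [hev] with m hm
      exact Set.mem_iUnion.1 (hcov hm)
    have hfreq : ∃ i : Fin n, ∃ᶠ m : ℕ in Filter.atTop,
        (1 + 1 / ((m : ℝ) + 1)) • v k ∈ g i '' bodyS (symT v) s := by
      by_contra hcon
      simp only [not_exists, Filter.not_frequently] at hcon
      have := (Filter.eventually_all.2 hcon).and hev2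
      obtain ⟨m, hm1, i, hi⟩ := this.exists
      exact hm1 i hi
    obtain ⟨i, hi⟩ := hfreq
    refine ⟨i, ?_, ?_⟩
    · have hcl : IsClosed (g i '' bodyS (symT v) s) :=
        (g i).toHomeomorph.isClosedMap _ hclosed
      obtain ⟨z, hz, hzx⟩ := hcl.mem_of_frequently_of_tendsto hi hcont
      rw [← hzx, IsometryEquiv.symm_apply_apply]
      exact hz
    · obtain ⟨m, z, hz, hzm⟩ := hi.exists
      refine ⟨1 / ((m : ℝ) + 1), by positivity, ?_⟩
      rw [← hzm, IsometryEquiv.symm_apply_apply]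
      exact hz
  rcases Nat.eq_zero_or_pos N with hN | hN
  · rw [hN]
    exact Nat.zero_le _
  have : Nonempty (Fin n) := ⟨(hex ⟨0, hN⟩).choose⟩
  choose idx h1 h2 using hex
  have hcard : (Finset.univ : Finset (Fin N)).card =
      ∑ i : Fin n, (Finset.univ.filter (fun k => idx k = i)).card :=
    Finset.card_eq_sum_card_fiberwise (f := idx) (fun x _ => Finset.mem_coe.2 (Finset.mem_univ _))
  rw [Finset.card_univ, Fintype.card_fin] at hcard
  rw [hcard]
  calc ∑ i : Fin n, (Finset.univ.filter (fun k => idx k = i)).card ≤ ∑ i : Fin n, mt := by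
        refine Finset.sum_le_sum fun i _ => ?_
        refine le_trans (Finset.card_le_card ?_) (hmt (g i).symm)
        intro k hk
        rw [Finset.mem_filter] at hk ⊢
        obtain ⟨_, rfl⟩ := hk
        exact ⟨Finset.mem_univ _, h1 k, h2 k⟩
    _ = n * mt := by simp

end Newton54G
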