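import Pool.Agent.Lib.MP_54d165_co.GR.R

/-! # Row GR-L: the map `Psi h lam` is expanding for `lam ≥ 1` -/

namespace Newton54G

open scoped RealInnerProductSpace
open MeasureTheory Metric

/-- `h v = W v + h 0` with `W` a linear isometry (`h.toRealLinearIsometryEquiv`); `Psi h lam v = L v + lam • h 0` with `L = (1 - lam) id + lam W`, and
`‖L v‖ ^ 2 = ((1 - lam) ^ 2 + lam ^ 2) ‖v‖ ^ 2 + 2 lam (1 - lam) ⟪v, W v⟫ ≥ ‖v‖ ^ 2` since `lam (1 - lam) ≤ 0` and `⟪v, W v⟫ ≤ ‖v‖ ^ 2`. -/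
theorem psi_linear {d : ℕ} (h : Eu d ≃ᵢ Eu d) {lam : ℝ} (hlam : 1 ≤ lam) :
    ∃ (L : Eu d →ₗ[ℝ] Eu d) (b : Eu d), (∀ x, ‖x‖ ≤ ‖L x‖) ∧ ∀ v, Psi h lam v = L v + b := by
  have hW : ∀ x, h.toRealLinearIsometryEquiv x = h x - h 0 := fun x =>
    h.toRealLinearIsometryEquiv_apply x
  refine ⟨(1 - lam) • (LinearMap.id : Eu d →ₗ[ℝ] Eu d) +
    lam • (h.toRealLinearIsometryEquiv.toLinearEquiv : Eu d →ₗ[ℝ] Eu d), lam • h 0, ?_, ?_⟩
  · intro x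
    have happ : ((1 - lam) • (LinearMap.id : Eu d →ₗ[ℝ] Eu d) +
        lam • (h.toRealLinearIsometryEquiv.toLinearEquiv : Eu d →ₗ[ℝ] Eu d)) x =
        (1 - lam) • x + lam • h.toRealLinearIsometryEquiv x := by
      simp
    rw [happ]
    have hn : ‖h.toRealLinearIsometryEquiv x‖ = ‖x‖ := h.toRealLinearIsometryEquiv.norm_map x
    have hin : ⟪x, h.toRealLinearIsometryEquiv x⟫ ≤ ‖x‖ ^ 2 := by
      have h1 := real_inner_le_norm x (h.toRealLinearIsometryEquiv x)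
      rw [hn] at h1
      nlinarith
    have hsq : ‖(1 - lam) • x + lam • h.toRealLinearIsometryEquiv x‖ ^ 2 =
        ((1 - lam) ^ 2 + lam ^ 2) * ‖x‖ ^ 2 +
          2 * (lam * (1 - lam)) * ⟪x, h.toRealLinearIsometryEquiv x⟫ := by
      rw [norm_add_sq_real, norm_smul, norm_smul, hn, real_inner_smul_left, real_inner_smul_right,
        mul_pow, mul_pow, Real.norm_eq_abs, Real.norm_eq_abs, sq_abs, sq_abs]
      ring
    have hle : ‖x‖ ^ 2 ≤ ‖(1 - lam) • x + lam • h.toRealLinearIsometryEquiv x‖ ^ 2 := by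
      rw [hsq]
      have hk : 0 ≤ lam * (lam - 1) := mul_nonneg (by linarith) (by linarith)
      nlinarith [mul_nonneg hk (sub_nonneg.mpr hin)]
    exact le_of_sq_le_sq hle (norm_nonneg _)
  · intro v
    have happ : ((1 - lam) • (LinearMap.id : Eu d →ₗ[ℝ] Eu d) +
        lam • (h.toRealLinearIsometryEquiv.toLinearEquiv : Eu d →ₗ[ℝ] Eu d)) v =
        (1 - lam) • v + lam • h.toRealLinearIsometryEquiv v := by
      simp
    rw [happ, hW, Psi, smul_sub, smul_sub, sub_smul, one_smul]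
    abel

/-- `psi_linear` and `exists_round`. -/
theorem psi_round {d M : ℕ} (hd : 1 ≤ d) {eps : ℝ} (heps : 0 < eps) (hM : 3 * (d : ℝ) ^ 2 / eps ≤ M)
    (h : Eu d ≃ᵢ Eu d) {lam : ℝ} (hlam : 1 ≤ lam) :
    ∃ ω : NetM d M, ∀ v w : Eu d, ‖v‖ ≤ 1 → ‖w‖ ≤ 1 → ∀ ρ : ℝ, ρ ≤ 1 → ‖Psi h lam v - (1 / 2 : ℝ) • w‖ ≤ ρ →
      ‖v - app (eps / (d : ℝ) ^ 2) ω w‖ ≤ ρ + eps := by
  obtain ⟨L, b, hL, hLb⟩ := psi_linear h hlam
  obtain ⟨ω, hω⟩ := exists_round hd heps hM L hL b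
  refine ⟨ω, fun v w hv hw ρ hρ hle => hω v w hv hw ρ hρ ?_⟩
  rw [← hLb]
  exact hle

end Newton54G
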