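import Pool.Agent.Lib.MP_54d165_co.GR.Defs

/-! # Row GR-SH: finitely many values of the parameter suffice -/

namespace Newton54G

open scoped RealInnerProductSpace
open MeasureTheory Metric

/-- `Psi h a v - Psi h b v = (b - a) (v - h v)`. Let `m = max 1 (eps / sig)`, `Lam 0 = 1`, `Lam (i + 1) = m (1 + eps) ^ i` for `i = 0, …, I`.
For `v` put `z = v - h v` and `lam = max 1 (⟪v, z⟫ / ‖z‖ ^ 2)`; `lam ‖z‖ = max ‖z‖ (⟪v, z⟫ / ‖z‖) ≤ max sig 1 ≤ 4`, and
`lam ≤ max 1 (1 / ‖z‖) ≤ max 1 (1 / (kap sig))`.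
If `lam < m` then `lam < eps / sig` and `Lam 0` works: `|lam - 1| ‖z‖ ≤ (eps / sig) sig = eps`. If `m ≤ lam`: `lam ≤ m (1 + eps) ^ I`
because `m (1 + eps) ^ I ≥ m / (kap eps)`, which is `≥ 1` and `≥ 1 / (kap sig)`; take the largest `i ≤ I` with `m (1 + eps) ^ i ≤ lam`;
then `lam ≤ m (1 + eps) ^ (i + 1)` and `|lam - m (1 + eps) ^ i| ‖z‖ ≤ eps m (1 + eps) ^ i ‖z‖ ≤ eps lam ‖z‖ ≤ 4 eps`. -/
theorem shells {d : ℕ} (h : Eu d ≃ᵢ Eu d) {sig kap eps : ℝ} (hsig : 0 < sig) (hsig4 : sig ≤ 4) (hkap : 0 < kap)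
    (hkap1 : kap ≤ 1) (heps : 0 < eps) (heps1 : eps ≤ 1) (hz : ∀ v, ‖v‖ ≤ 1 → ‖v - h v‖ ≤ sig) (I : ℕ)
    (hI : 1 / (kap * eps) ≤ (1 + eps) ^ I) :
    ∃ Lam : Fin (I + 2) → ℝ, (∀ i, 1 ≤ Lam i) ∧ ∀ v, ‖v‖ ≤ 1 → kap * sig ≤ ‖v - h v‖ →
      ∃ i, ‖Psi h (Lam i) v - Psi h (max 1 (⟪v, v - h v⟫ / ‖v - h v‖ ^ 2)) v‖ ≤ 4 * eps := by
  obtain ⟨m, hm⟩ : ∃ m : ℝ, m = max 1 (eps / sig) := ⟨_, rfl⟩
  have hm1 : 1 ≤ m := by rw [hm]; exact le_max_left _ _
  have hm2 : eps / sig ≤ m := by rw [hm]; exact le_max_right _ _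
  have hpow : ∀ j : ℕ, 1 ≤ (1 + eps) ^ j := fun j => one_le_pow₀ (by linarith)
  refine ⟨fun i => if i.val = 0 then 1 else m * (1 + eps) ^ (i.val - 1), ?_, ?_⟩
  · intro i
    by_cases hi : i.val = 0
    · simp only [if_pos hi, le_refl]
    · simp only [if_neg hi]
      have := hpow (i.val - 1)
      nlinarith
  intro v hv hvk
  have hP : ∀ a b : ℝ, ‖Psi h a v - Psi h b v‖ = |b - a| * ‖v - h v‖ := by
    intro a b
    have h1 : Psi h a v - Psi h b v = (b - a) • (v - h v) := by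
      unfold Psi
      rw [sub_smul]
      abel
    rw [h1, norm_smul, Real.norm_eq_abs]
  obtain ⟨q, hq⟩ : ∃ q : ℝ, q = ⟪v, v - h v⟫ := ⟨_, rfl⟩
  obtain ⟨n, hn⟩ : ∃ n : ℝ, n = ‖v - h v‖ := ⟨_, rfl⟩
  obtain ⟨lam, hlam⟩ : ∃ lam : ℝ, lam = max 1 (q / n ^ 2) := ⟨_, rfl⟩
  have hn4 : n ≤ sig := by rw [hn]; exact hz v hv
  have hks : 0 < kap * sig := mul_pos hkap hsig
  have hnk : kap * sig ≤ n := by rw [hn]; exact hvk
  have hn0 : 0 < n := lt_of_lt_of_le hks hnk
  have hqn : q ≤ n := by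
    rw [hq, hn]
    calc ⟪v, v - h v⟫ ≤ ‖v‖ * ‖v - h v‖ := real_inner_le_norm _ _
      _ ≤ 1 * ‖v - h v‖ := mul_le_mul_of_nonneg_right hv (norm_nonneg _)
      _ = ‖v - h v‖ := one_mul _
  have hq1 : q / n ^ 2 ≤ 1 / n := by
    rw [div_le_div_iff₀ (by positivity) hn0]
    nlinarith
  have hlam1 : 1 ≤ lam := by rw [hlam]; exact le_max_left _ _
  have hlamn : lam * n ≤ 4 := by
    rw [hlam, max_mul_of_nonneg _ _ hn0.le]
    apply max_le
    · linarith
    · have h1 : q / n ^ 2 * n ≤ 1 / n * n := mul_le_mul_of_nonneg_right hq1 hn0.le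
      have h2 : 1 / n * n = 1 := by field_simp
      linarith
  have hlamk : lam ≤ max 1 (1 / (kap * sig)) := by
    rw [hlam]
    apply max_le_max le_rfl
    exact hq1.trans (one_div_le_one_div_of_le hks hnk)
  rw [← hq, ← hn, ← hlam]
  have hP' : ∀ a : ℝ, ‖Psi h a v - Psi h lam v‖ = |lam - a| * n := by
    intro a
    rw [hP, hn]
  by_cases hlt : lam < m
  · refine ⟨⟨0, by omega⟩, ?_⟩
    simp only [if_true]
    rw [hP', abs_of_nonneg (by linarith)]
    have hm3 : m = eps / sig := by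
      rcases max_choice (1 : ℝ) (eps / sig) with h1 | h1
      · rw [hm, h1] at hlt
        linarith
      · rw [hm, h1]
    have h2 : (lam - 1) * n ≤ m * sig := by
      apply mul_le_mul (by linarith) hn4 hn0.le (by linarith)
    have h3 : m * sig = eps := by
      rw [hm3]
      field_simp
    linarith
  · have hge : m ≤ lam := not_lt.mp hlt
    have hex : ∃ j, lam ≤ m * (1 + eps) ^ j := by
      refine ⟨I, ?_⟩
      have hke : 0 < kap * eps := mul_pos hkap heps
      have h1 : m * (1 / (kap * eps)) ≤ m * (1 + eps) ^ I :=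
        mul_le_mul_of_nonneg_left hI (by linarith)
      refine hlamk.trans (le_trans (max_le ?_ ?_) h1)
      · have h2 : kap * eps ≤ 1 := by nlinarith
        have h3 : 1 ≤ 1 / (kap * eps) := by
          rw [le_div_iff₀ hke]
          linarith
        nlinarith
      · have h2 : eps / sig * (1 / (kap * eps)) = 1 / (kap * sig) := by
          field_simp
        rw [← h2]
        exact mul_le_mul_of_nonneg_right hm2 (by positivity)
    have hI' : lam ≤ m * (1 + eps) ^ I := by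
      have hke : 0 < kap * eps := mul_pos hkap heps
      have h1 : m * (1 / (kap * eps)) ≤ m * (1 + eps) ^ I :=
        mul_le_mul_of_nonneg_left hI (by linarith)
      refine hlamk.trans (le_trans (max_le ?_ ?_) h1)
      · have h2 : kap * eps ≤ 1 := by nlinarith
        have h3 : 1 ≤ 1 / (kap * eps) := by
          rw [le_div_iff₀ hke]
          linarith
        nlinarith
      · have h2 : eps / sig * (1 / (kap * eps)) = 1 / (kap * sig) := by
          field_simp
        rw [← h2]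
        exact mul_le_mul_of_nonneg_right hm2 (by positivity)
    classical
    have hj1 := Nat.find_spec hex
    have hjI : Nat.find hex ≤ I := Nat.find_min' hex hI'
    rcases Nat.eq_zero_or_pos (Nat.find hex) with h0 | h0
    · rw [h0, pow_zero, mul_one] at hj1
      refine ⟨⟨1, by omega⟩, ?_⟩
      simp only [if_neg (one_ne_zero), Nat.sub_self, pow_zero, mul_one]
      rw [hP', le_antisymm hj1 hge, sub_self, abs_zero, zero_mul]
      linarith
    · obtain ⟨i, hi⟩ : ∃ i, Nat.find hex = i + 1 := ⟨Nat.find hex - 1, by omega⟩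
      have hi2 : ¬ lam ≤ m * (1 + eps) ^ i := Nat.find_min hex (by omega)
      rw [hi] at hj1
      refine ⟨⟨i + 1, by omega⟩, ?_⟩
      have hne : ¬ (i + 1 = 0) := by omega
      simp only [if_neg hne, Nat.add_sub_cancel]
      rw [hP', abs_of_nonneg (by linarith [not_le.mp hi2])]
      have h4 : lam - m * (1 + eps) ^ i ≤ eps * lam := by
        have h5 : m * (1 + eps) ^ (i + 1) = m * (1 + eps) ^ i + eps * (m * (1 + eps) ^ i) := by
          rw [pow_succ]
          ring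
        have h6 := not_le.mp hi2
        nlinarith
      calc (lam - m * (1 + eps) ^ i) * n ≤ (eps * lam) * n := mul_le_mul_of_nonneg_right h4 hn0.le
        _ = eps * (lam * n) := by ring
        _ ≤ eps * 4 := mul_le_mul_of_nonneg_left hlamn heps.le
        _ = 4 * eps := by ring

end Newton54G
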