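import Pool.Agent.Lib.MP_54d165_co.GR.Defs

/-! # Row GR-SL: the points which are moved very little lie in a slab -/

namespace Newton54G

open scoped RealInnerProductSpace
open MeasureTheory Metric

/-- Let `h v = W v + h 0`, `W` a linear isometry (`h.toRealLinearIsometryEquiv`), `N = id - W` (continuous linear map, `‖N‖ ≤ 2`),
`z v = v - h v = N v - h 0`, `sig = ‖N‖ + ‖h 0‖`; `sig > 0` since `h` is not the identity. If no `v` in the unit ball has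
`‖z v‖ < kap sig`, any unit vector `u` (`d ≥ 1` since `h` is not the identity) and `tau = 0` will do. Otherwise `‖h 0‖ ≤ kap sig + ‖N‖`,
so `‖N‖ ≥ (1 - kap) sig / 2 ≥ sig / 4`. Take `x` with `‖N x‖ ≥ (‖N‖ / 2) ‖x‖`, `N x ≠ 0`, `e = N x / ‖N x‖`, `u0 = adjoint N e`; then
`‖u0‖ ≥ ‖N‖ / 2 ≥ sig / 8` (test with `x`), `⟪e, z v⟫ = ⟪u0, v⟫ - ⟪e, h 0⟫`, and `u = u0 / ‖u0‖`, `tau = ⟪e, h 0⟫ / ‖u0‖` satisfy
`|⟪u, v⟫ - tau| ≤ ‖z v‖ / ‖u0‖ ≤ kap sig / (sig / 8) = 8 kap`; `|tau| ≤ 1 + 8 kap ≤ 3`. -/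
theorem slab_lemma {d : ℕ} (h : Eu d ≃ᵢ Eu d) (hne : ∃ x, h x ≠ x) (h0 : ‖h 0‖ ≤ 2) :
    ∃ sig : ℝ, 0 < sig ∧ sig ≤ 4 ∧ (∀ v, ‖v‖ ≤ 1 → ‖v - h v‖ ≤ sig) ∧
      ∀ kap : ℝ, 0 < kap → kap ≤ 1 / 4 → ∃ (u : Eu d) (tau : ℝ), ‖u‖ = 1 ∧ |tau| ≤ 3 ∧
        ∀ v, ‖v‖ ≤ 1 → ‖v - h v‖ < kap * sig → |⟪u, v⟫ - tau| ≤ 8 * kap := by
  obtain ⟨x0, hx0⟩ := hne
  obtain ⟨W, hW⟩ : ∃ W : Eu d →L[ℝ] Eu d, ∀ v, W v = h v - h 0 :=
    ⟨h.toRealLinearIsometryEquiv.toContinuousLinearEquiv.toContinuousLinearMap, fun v => by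
      exact h.toRealLinearIsometryEquiv_apply v⟩
  obtain ⟨N, hN⟩ : ∃ N : Eu d →L[ℝ] Eu d, ∀ v, N v = v - W v :=
    ⟨ContinuousLinearMap.id ℝ (Eu d) - W, fun v => rfl⟩
  have hz : ∀ v, v - h v = N v - h 0 := by
    intro v
    rw [hN, hW]
    abel
  have hN2 : ‖N‖ ≤ 2 := by
    refine N.opNorm_le_bound (by norm_num) fun v => ?_
    rw [hN]
    have h1 : ‖W v‖ = ‖v‖ := by
      rw [hW, ← dist_eq_norm, h.dist_eq, dist_zero_right]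
    have h2 := norm_sub_le v (W v)
    linarith
  have hsig : 0 < ‖N‖ + ‖h 0‖ := by
    by_contra hcon
    have h1 : ‖N‖ = 0 := by linarith [norm_nonneg N, norm_nonneg (h 0)]
    have h2 : ‖h 0‖ = 0 := by linarith [norm_nonneg N, norm_nonneg (h 0)]
    rw [norm_eq_zero] at h1 h2
    have h3 := hz x0
    rw [h1, h2, ContinuousLinearMap.zero_apply, sub_zero, sub_eq_zero] at h3
    exact hx0 h3.symm
  refine ⟨‖N‖ + ‖h 0‖, hsig, by linarith, fun v hv => ?_, fun kap hk hk4 => ?_⟩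
  · rw [hz]
    have h1 := N.le_opNorm v
    have h2 := norm_sub_le (N v) (h 0)
    have h3 : ‖N‖ * ‖v‖ ≤ ‖N‖ := mul_le_of_le_one_right (norm_nonneg _) hv
    linarith
  by_cases hex : ∃ v, ‖v‖ ≤ 1 ∧ ‖v - h v‖ < kap * (‖N‖ + ‖h 0‖)
  · obtain ⟨v0, hv0, hv1⟩ := hex
    have h3 : ‖N v0‖ ≤ ‖N‖ := (N.le_opNorm v0).trans (mul_le_of_le_one_right (norm_nonneg _) hv0)
    have h4 : ‖h 0‖ ≤ ‖N v0‖ + ‖v0 - h v0‖ := by
      have h5 : h 0 = N v0 - (v0 - h v0) := by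
        rw [hz]
        abel
      calc ‖h 0‖ = ‖N v0 - (v0 - h v0)‖ := by rw [← h5]
        _ ≤ _ := norm_sub_le _ _
    have h5 : kap * (‖N‖ + ‖h 0‖) ≤ 1 / 4 * (‖N‖ + ‖h 0‖) := mul_le_mul_of_nonneg_right hk4 hsig.le
    have h6 : (‖N‖ + ‖h 0‖) / 4 < ‖N‖ := by linarith
    have h7 : 0 < ‖N‖ := by linarith
    obtain ⟨x, hx1, hx2⟩ := N.exists_lt_apply_of_lt_opNorm (r := ‖N‖ / 2) (by linarith)
    have hNx : 0 < ‖N x‖ := by linarith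
    obtain ⟨e, he⟩ : ∃ e : Eu d, e = ‖N x‖⁻¹ • N x := ⟨_, rfl⟩
    have he1 : ‖e‖ = 1 := by
      rw [he, norm_smul, norm_inv, norm_norm, inv_mul_cancel₀ hNx.ne']
    obtain ⟨u0, hu0⟩ : ∃ u0 : Eu d, ∀ v, ⟪u0, v⟫ = ⟪e, N v⟫ :=
      ⟨ContinuousLinearMap.adjoint N e, fun v => ContinuousLinearMap.adjoint_inner_left N v e⟩
    have hu1 : ‖N x‖ ≤ ‖u0‖ := by
      have h8 : ⟪u0, x⟫ = ‖N x‖ := by
        rw [hu0, he, real_inner_smul_left, real_inner_self_eq_norm_sq]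
        field_simp
      have h9 := real_inner_le_norm u0 x
      rw [h8] at h9
      exact h9.trans (mul_le_of_le_one_right (norm_nonneg _) hx1.le)
    have hu2 : (‖N‖ + ‖h 0‖) / 8 ≤ ‖u0‖ := by linarith
    have hu3 : 0 < ‖u0‖ := by linarith
    have key : ∀ v, ‖v - h v‖ < kap * (‖N‖ + ‖h 0‖) →
        |⟪‖u0‖⁻¹ • u0, v⟫ - ⟪e, h 0⟫ / ‖u0‖| ≤ 8 * kap := by
      intro v hv
      have h8 : ⟪‖u0‖⁻¹ • u0, v⟫ - ⟪e, h 0⟫ / ‖u0‖ = ⟪e, v - h v⟫ / ‖u0‖ := by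
        rw [real_inner_smul_left, hu0, hz, inner_sub_right]
        ring
      rw [h8, abs_div, abs_of_pos hu3, div_le_iff₀ hu3]
      have h9 := abs_real_inner_le_norm e (v - h v)
      rw [he1, one_mul] at h9
      have h10 : 8 * kap * ((‖N‖ + ‖h 0‖) / 8) ≤ 8 * kap * ‖u0‖ := mul_le_mul_of_nonneg_left hu2 (by positivity)
      linarith
    have hun : ‖‖u0‖⁻¹ • u0‖ = 1 := by
      rw [norm_smul, norm_inv, norm_norm, inv_mul_cancel₀ hu3.ne']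
    refine ⟨‖u0‖⁻¹ • u0, ⟪e, h 0⟫ / ‖u0‖, hun, ?_, fun v _ hv => key v hv⟩
    have h11 := key v0 hv1
    have h12 := abs_real_inner_le_norm (‖u0‖⁻¹ • u0) v0
    rw [hun, one_mul] at h12
    rw [abs_le] at h11 ⊢
    have h13 := abs_le.1 (h12.trans hv0)
    constructor <;> linarith [h11.1, h11.2, h13.1, h13.2]
  · push Not at hex
    have hy : 0 < ‖h x0 - x0‖ := norm_pos_iff.2 (sub_ne_zero.2 hx0)
    refine ⟨‖h x0 - x0‖⁻¹ • (h x0 - x0), 0, ?_, by simp, fun v hv hv2 => ?_⟩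
    · rw [norm_smul, norm_inv, norm_norm, inv_mul_cancel₀ hy.ne']
    · exact absurd hv2 (not_lt.2 (hex v hv))

end Newton54G
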