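import Pool.Agent.Lib.MP_54d165_co.GR.Defs

/-! # Row GR-SR: rounding a slab -/

namespace Newton54G

open scoped RealInnerProductSpace
open MeasureTheory Metric

/-- rounding a number -/
theorem SR_round {M : ℕ} {del x : ℝ} (hdel : 0 < del) (hx : |x| ≤ M * del) :
    ∃ j : Fin (2 * M + 1), |val j * del - x| ≤ del / 2 := by
  have hy : |x / del| ≤ M := by
    rw [abs_div, abs_of_pos hdel, div_le_iff₀ hdel]
    exact hx
  have hr := abs_sub_round (x / del)
  obtain ⟨hy1, hy2⟩ := abs_le.1 hy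
  obtain ⟨hr1, hr2⟩ := abs_le.1 hr
  have h1 : -(M : ℤ) ≤ round (x / del) := by
    by_contra hcon
    push Not at hcon
    have h2 : round (x / del) ≤ -(M : ℤ) - 1 := by omega
    have h3 : ((round (x / del) : ℤ) : ℝ) ≤ -(M : ℝ) - 1 := by exact_mod_cast h2
    linarith
  have h2 : round (x / del) ≤ (M : ℤ) := by
    by_contra hcon
    push Not at hcon
    have h2 : (M : ℤ) + 1 ≤ round (x / del) := by omega
    have h3 : (M : ℝ) + 1 ≤ ((round (x / del) : ℤ) : ℝ) := by exact_mod_cast h2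
    linarith
  refine ⟨⟨(round (x / del) + M).toNat, by omega⟩, ?_⟩
  have h3 : (((round (x / del) + M).toNat : ℕ) : ℤ) = round (x / del) + M :=
    Int.toNat_of_nonneg (by omega)
  have h4 : (((round (x / del) + M).toNat : ℕ) : ℝ) = ((round (x / del) : ℤ) : ℝ) + M := by
    exact_mod_cast h3
  have h5 : val (⟨(round (x / del) + M).toNat, by omega⟩ : Fin (2 * M + 1)) =
      ((round (x / del) : ℤ) : ℝ) := by
    rw [val]
    show (((round (x / del) + M).toNat : ℕ) : ℝ) - M = _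
    rw [h4]
    ring
  rw [h5]
  have h6 : ((round (x / del) : ℤ) : ℝ) * del - x =
      -((x / del - ((round (x / del) : ℤ) : ℝ)) * del) := by
    field_simp
    ring
  rw [h6, abs_neg, abs_mul, abs_of_pos hdel]
  calc |x / del - ((round (x / del) : ℤ) : ℝ)| * del ≤ 1 / 2 * del :=
        mul_le_mul_of_nonneg_right hr hdel.le
    _ = del / 2 := by ring

theorem SR_coord {d : ℕ} (u : Eu d) (k : Fin d) : |u k| ≤ ‖u‖ := by
  have h1 : (u k) ^ 2 ≤ ‖u‖ ^ 2 := by
    rw [EuclideanSpace.norm_sq_eq]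
    have h2 := Finset.single_le_sum (f := fun i => ‖u i‖ ^ 2) (fun i _ => sq_nonneg _)
      (Finset.mem_univ k)
    simpa using h2
  exact abs_le_of_sq_le_sq h1 (norm_nonneg _)

theorem SR_norm {d : ℕ} (u : Eu d) {c : ℝ} (hc : 0 ≤ c) (h : ∀ k, |u k| ≤ c) :
    ‖u‖ ≤ d * c := by
  have h1 : ‖u‖ ^ 2 ≤ (d * c) ^ 2 := by
    rw [EuclideanSpace.norm_sq_eq]
    have h2 : ∑ i : Fin d, ‖u i‖ ^ 2 ≤ ∑ _i : Fin d, c ^ 2 := by
      refine Finset.sum_le_sum fun i _ => ?_
      rw [Real.norm_eq_abs]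
      exact pow_le_pow_left₀ (abs_nonneg _) (h i) 2
    rw [Finset.sum_const, Finset.card_univ, Fintype.card_fin, nsmul_eq_mul] at h2
    refine le_trans h2 ?_
    rw [mul_pow]
    refine mul_le_mul_of_nonneg_right ?_ (sq_nonneg _)
    have h3 : d ≤ d ^ 2 := Nat.le_self_pow (by norm_num) d
    exact_mod_cast h3
  have h2 := abs_le_of_sq_le_sq h1 (by positivity)
  rwa [abs_of_nonneg (norm_nonneg _)] at h2

/-- Rounding a slab: choose `σ` with `|val (σ.1 k) * del - u k| ≤ del / 2` and `|val σ.2 * del - tau| ≤ del / 2`, `del = kap / d`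
(`|u k| ≤ 1`, `|tau| ≤ 3 ≤ M del`). The norm of `slabVec - u` is at most the sum of the coordinates, `≤ d del / 2 ≤ 1 / 8`, so
`‖slabVec‖ ≥ 1 / 2`; and for `‖v‖ ≤ 1` the value changes by at most `d del / 2 + del / 2 ≤ kap`. -/
theorem slab_round {d M : ℕ} (hd : 1 ≤ d) {kap : ℝ} (hkap : 0 < kap) (hkap4 : kap ≤ 1 / 4) (hM : 3 * d / kap ≤ M)
    {u : Eu d} (hu : ‖u‖ = 1) {tau : ℝ} (htau : |tau| ≤ 3) :
    ∃ σ : SlabNet d M, ∀ v, ‖v‖ ≤ 1 → |⟪u, v⟫ - tau| ≤ 8 * kap → v ∈ slabSet (kap / d) (9 * kap) σ := by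
  have hd0 : (0 : ℝ) < d := by
    have : 0 < d := by omega
    exact_mod_cast this
  have hd1 : (1 : ℝ) ≤ d := by exact_mod_cast hd
  have hdel : 0 < kap / d := by positivity
  have hMdel : (3 : ℝ) ≤ M * (kap / d) := by
    rw [div_le_iff₀ hkap] at hM
    rw [← mul_div_assoc, le_div_iff₀ hd0]
    exact hM
  have h1 : ∀ k, ∃ j : Fin (2 * M + 1), |val j * (kap / d) - u k| ≤ kap / d / 2 := by
    intro k
    refine SR_round hdel ?_
    have := SR_coord u k
    linarith
  choose j hj using h1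
  obtain ⟨j0, hj0⟩ : ∃ j0 : Fin (2 * M + 1), |val j0 * (kap / d) - tau| ≤ kap / d / 2 :=
    SR_round hdel (by linarith)
  have hdiff : ‖slabVec (kap / d) ((j, j0) : SlabNet d M) - u‖ ≤ kap / 2 := by
    have h2 : ‖slabVec (kap / d) ((j, j0) : SlabNet d M) - u‖ ≤ d * (kap / d / 2) := by
      refine SR_norm _ (by positivity) ?_
      intro k
      exact hj k
    have h3 : (d : ℝ) * (kap / d / 2) = kap / 2 := by field_simp
    linarith
  refine ⟨(j, j0), ?_⟩
  intro v hv hval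
  refine ⟨hv, ?_, ?_⟩
  · have h2 := norm_sub_norm_le u (slabVec (kap / d) ((j, j0) : SlabNet d M))
    rw [norm_sub_rev, hu] at h2
    linarith
  · have h2 : ⟪slabVec (kap / d) ((j, j0) : SlabNet d M), v⟫ - val j0 * (kap / d) =
        (⟪u, v⟫ - tau) + ⟪slabVec (kap / d) ((j, j0) : SlabNet d M) - u, v⟫ -
          (val j0 * (kap / d) - tau) := by
      rw [inner_sub_left]
      ring
    have h3 : |⟪slabVec (kap / d) ((j, j0) : SlabNet d M) - u, v⟫| ≤ kap / 2 := by
      refine le_trans (abs_real_inner_le_norm _ _) ?_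
      calc ‖slabVec (kap / d) ((j, j0) : SlabNet d M) - u‖ * ‖v‖ ≤ kap / 2 * 1 :=
            mul_le_mul hdiff hv (norm_nonneg _) (by positivity)
        _ = kap / 2 := mul_one _
    have h4 : kap / d / 2 ≤ kap / 2 := by
      have : kap / d ≤ kap := div_le_self hkap.le hd1
      linarith
    show |⟪slabVec (kap / d) ((j, j0) : SlabNet d M), v⟫ - val j0 * (kap / d)| ≤ 9 * kap
    rw [h2]
    obtain ⟨a1, a2⟩ := abs_le.1 hval
    obtain ⟨b1, b2⟩ := abs_le.1 h3
    obtain ⟨c1, c2⟩ := abs_le.1 hj0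
    rw [abs_le]
    constructor <;> linarith

end Newton54G
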