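import Pool.Agent.Lib.MP_54d165_co.GR.S
import Pool.Agent.Lib.MP_54d165_co.GR.SH
import Pool.Agent.Lib.MP_54d165_co.GR.SL
import Pool.Agent.Lib.MP_54d165_co.GR.SR
import Pool.Agent.Lib.MP_54d165_co.GR.L
import Pool.Agent.Lib.MP_54d165_co.GR.F

/-! # The tips covered by one copy lie in few members of the net -/

namespace Newton54G

open scoped RealInnerProductSpace
open MeasureTheory Metric

theorem cover_net {d M M' I N : ℕ} (hd : 1 ≤ d) {s eps kap : ℝ} (hs : 0 ≤ s) (heps : 0 < eps) (heps1 : eps ≤ 1)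
    (hs1 : s + 5 * eps ≤ 1) (he1 : 5 * eps ≤ 1 / 2) (hkap : 0 < kap) (hkap4 : kap ≤ 1 / 4)
    (hM : 3 * (d : ℝ) ^ 2 / eps ≤ M) (hM' : 3 * d / kap ≤ M') (hI : 1 / (kap * eps) ≤ (1 + eps) ^ I)
    (h : Eu d ≃ᵢ Eu d) (v : Fin N → Eu d) (hv : ∀ k, ‖v k‖ ≤ 1) :
    ∃ (Om : Fin (I + 2) → NetM d M) (σ : SlabNet d M'), ∀ k, h (v k) ∈ bodyS (Set.range v) s →
      (∃ t : ℝ, 0 < t ∧ h ((1 + t) • v k) ∈ bodyS (Set.range v) s) →
      (∃ i, ‖v k - app (eps / (d : ℝ) ^ 2) (Om i) 0‖ ≤ s + 5 * eps) ∨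
      (∃ i j, j ≠ k ∧ ‖v k - app (eps / (d : ℝ) ^ 2) (Om i) (v j)‖ ≤ 1 / 2 + 5 * eps) ∨
      v k ∈ slabSet (kap / d) (9 * kap) σ := by
  have hT : ∀ w ∈ Set.range v, ‖w‖ ≤ 1 := by
    rintro w ⟨k, rfl⟩
    exact hv k
  have hz0 : ‖(0 : Eu d)‖ ≤ 1 := by simp
  by_cases hid : ∀ x, h x = x
  · -- the identity
    obtain ⟨ω, hω⟩ := psi_round hd heps hM h (le_refl (1 : ℝ))
    refine ⟨fun _ => ω, ⟨fun _ => 0, 0⟩, fun k _ hk => ?_⟩
    have hP : Psi h 1 (v k) = v k := by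
      unfold Psi
      rw [hid]
      simp
    obtain ⟨t, ht, htk⟩ := hk
    rw [hid] at htk
    rcases near_point_id hT hs ht htk with h1 | ⟨w, ⟨j, rfl⟩, hne, hw⟩
    · left
      refine ⟨0, ?_⟩
      have h2 := hω (v k) 0 (hv k) hz0 (s + 4 * eps) (by linarith) (by
        rw [hP, smul_zero, sub_zero]
        linarith)
      linarith
    · right
      left
      refine ⟨0, j, fun hjk => hne (by rw [hjk]), ?_⟩
      have h2 := hω (v k) (v j) (hv k) (hv j) (1 / 2 + 4 * eps) (by linarith) (by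
        rw [hP]
        linarith)
      linarith
  · push Not at hid
    by_cases hex : ∃ k, h (v k) ∈ bodyS (Set.range v) s
    swap
    · push Not at hex
      exact ⟨fun _ => ⟨fun _ _ => 0, fun _ => 0⟩, ⟨fun _ => 0, 0⟩, fun k hk => absurd hk (hex k)⟩
    obtain ⟨k0, hk0⟩ := hex
    have h0 : ‖h 0‖ ≤ 2 := by
      have h1 : ‖h (v k0)‖ ≤ 1 := bodyS_norm hT (by linarith) hk0
      have h2 : dist (h 0) (h (v k0)) = dist 0 (v k0) := h.dist_eq _ _
      rw [dist_eq_norm, dist_eq_norm, zero_sub, norm_neg] at h2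
      have h3 : ‖h 0‖ ≤ ‖h 0 - h (v k0)‖ + ‖h (v k0)‖ := by
        have := norm_add_le (h 0 - h (v k0)) (h (v k0))
        simpa using this
      have := hv k0
      linarith
    obtain ⟨sig, hsig, hsig4, hz, hslab⟩ := slab_lemma h hid h0
    obtain ⟨u, tau, hu, htau, hslab2⟩ := hslab kap hkap hkap4
    obtain ⟨σ, hσ⟩ := slab_round (M := M') hd hkap hkap4 hM' hu htau
    obtain ⟨Lam, hLam1, hLam⟩ := shells h hsig hsig4 hkap (by linarith) heps heps1 hz I hI
    have hround : ∀ i, ∃ ω : NetM d M, ∀ v w : Eu d, ‖v‖ ≤ 1 → ‖w‖ ≤ 1 → ∀ ρ : ℝ, ρ ≤ 1 →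
        ‖Psi h (Lam i) v - (1 / 2 : ℝ) • w‖ ≤ ρ → ‖v - app (eps / (d : ℝ) ^ 2) ω w‖ ≤ ρ + eps :=
      fun i => psi_round hd heps hM h (hLam1 i)
    choose Om hOm using hround
    refine ⟨Om, σ, fun k hk _ => ?_⟩
    by_cases hsm : ‖v k - h (v k)‖ < kap * sig
    · right
      right
      exact hσ (v k) (hv k) (hslab2 (v k) (hv k) hsm)
    · push Not at hsm
      have hne : h (v k) ≠ v k := by
        intro hcon
        rw [hcon, sub_self, norm_zero] at hsm
        have := mul_pos hkap hsig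
        linarith
      obtain ⟨i, hi⟩ := hLam (v k) (hv k) hsm
      set c := Psi h (max 1 (⟪v k, v k - h (v k)⟫ / ‖v k - h (v k)‖ ^ 2)) (v k) with hc
      rcases near_point hT hs hk hne with h1 | ⟨w, ⟨j, rfl⟩, hne, hw⟩
      · left
        refine ⟨i, ?_⟩
        have h2 := hOm i (v k) 0 (hv k) hz0 (s + 4 * eps) (by linarith) (by
          rw [smul_zero, sub_zero]
          have h3 : ‖Psi h (Lam i) (v k)‖ ≤ ‖Psi h (Lam i) (v k) - c‖ + ‖c‖ := by
            have := norm_add_le (Psi h (Lam i) (v k) - c) c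
            simpa using this
          have h4 : ‖c‖ ≤ s := h1
          linarith)
        linarith
      · right
        left
        refine ⟨i, j, fun hjk => hne (by rw [hjk]), ?_⟩
        have h2 := hOm i (v k) (v j) (hv k) (hv j) (1 / 2 + 4 * eps) (by linarith) (by
          have h3 : ‖Psi h (Lam i) (v k) - (1 / 2 : ℝ) • v j‖ ≤
              ‖Psi h (Lam i) (v k) - c‖ + ‖c - (1 / 2 : ℝ) • v j‖ := by
            have := norm_add_le (Psi h (Lam i) (v k) - c) (c - (1 / 2 : ℝ) • v j)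
            simpa using this
          have h4 : ‖c - (1 / 2 : ℝ) • v j‖ ≤ 1 / 2 := hw
          linarith)
        linarith

end Newton54G
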