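import Pool.Agent.Lib.MP_54d165_co.GR.S2
import Pool.Agent.Lib.MP_54d165_co.GR.SH
import Pool.Agent.Lib.MP_54d165_co.GR.SL
import Pool.Agent.Lib.MP_54d165_co.GR.SR
import Pool.Agent.Lib.MP_54d165_co.GR.L
import Pool.Agent.Lib.MP_54d165_co.GR.F2

/-! # The tips covered by one copy lie in few members of the net, symmetric version -/

namespace Newton54G

open scoped RealInnerProductSpace
open MeasureTheory Metric

theorem mem_symT {d N : ℕ} {v : Fin N → Eu d} {w : Eu d} (hw : w ∈ symT v) : ∃ j, w = v j ∨ w = -v j := by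
  rcases hw with ⟨j, rfl⟩ | ⟨j, rfl⟩
  · exact ⟨j, Or.inl rfl⟩
  · exact ⟨j, Or.inr rfl⟩

theorem cover_one {d M M' I N : ℕ} (hd : 1 ≤ d) {s eps kap : ℝ} (hs : 0 ≤ s) (heps : 0 < eps) (heps1 : eps ≤ 1)
    (hs1 : s + 5 * eps ≤ 1) (he1 : 5 * eps ≤ 1 / 2) (hkap : 0 < kap) (hkap4 : kap ≤ 1 / 4)
    (hM : 3 * (d : ℝ) ^ 2 / eps ≤ M) (hM' : 3 * d / kap ≤ M') (hI : 1 / (kap * eps) ≤ (1 + eps) ^ I)
    (h : Eu d ≃ᵢ Eu d) (v : Fin N → Eu d) (hv : ∀ k, ‖v k‖ ≤ 1) :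
    ∃ (Om : Fin (I + 2) → NetM d M) (σ : SlabNet d M'), ∀ k, h (v k) ∈ bodyS (symT v) s →
      (∃ t : ℝ, 0 < t ∧ h ((1 + t) • v k) ∈ bodyS (symT v) s) → 0 ≤ ⟪v k, h (v k)⟫ →
      (∃ i, ‖v k - app (eps / (d : ℝ) ^ 2) (Om i) 0‖ ≤ s + 5 * eps) ∨
      (∃ i j, j ≠ k ∧ (‖v k - app (eps / (d : ℝ) ^ 2) (Om i) (v j)‖ ≤ 1 / 2 + 5 * eps ∨
        ‖v k - app (eps / (d : ℝ) ^ 2) (Om i) (-v j)‖ ≤ 1 / 2 + 5 * eps)) ∨
      v k ∈ slabSet (kap / d) (9 * kap) σ := by
  have hvn : ∀ k, ‖-v k‖ ≤ 1 := fun k => by rw [norm_neg]; exact hv k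
  have hT : ∀ w ∈ symT v, ‖w‖ ≤ 1 := by
    intro w hw
    obtain ⟨j, rfl | rfl⟩ := mem_symT hw
    · exact hv j
    · exact hvn j
  have hz0 : ‖(0 : Eu d)‖ ≤ 1 := by simp
  by_cases hid : ∀ x, h x = x
  · -- the identity
    obtain ⟨ω, hω⟩ := psi_round hd heps hM h (le_refl (1 : ℝ))
    refine ⟨fun _ => ω, ⟨fun _ => 0, 0⟩, fun k _ hk _ => ?_⟩
    have hP : Psi h 1 (v k) = v k := by
      unfold Psi
      rw [hid]
      simp
    obtain ⟨t, ht, htk⟩ := hk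
    rw [hid] at htk
    rcases near_point_id_sym hT hs ht htk with h1 | ⟨w, hwT, hne, hne', hw⟩
    · left
      refine ⟨0, ?_⟩
      have h2 := hω (v k) 0 (hv k) hz0 (s + 4 * eps) (by linarith) (by
        rw [hP, smul_zero, sub_zero]
        linarith)
      linarith
    · right
      left
      obtain ⟨j, hj⟩ := mem_symT hwT
      have hjk : j ≠ k := by
        rintro rfl
        rcases hj with hj | hj
        · exact hne hj
        · exact hne' hj
      refine ⟨0, j, hjk, ?_⟩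
      rcases hj with rfl | rfl
      · left
        have h2 := hω (v k) (v j) (hv k) (hv j) (1 / 2 + 4 * eps) (by linarith) (by
          rw [hP]
          linarith)
        linarith
      · right
        have h2 := hω (v k) (-v j) (hv k) (hvn j) (1 / 2 + 4 * eps) (by linarith) (by
          rw [hP]
          linarith)
        linarith
  · push Not at hid
    by_cases hex : ∃ k, h (v k) ∈ bodyS (symT v) s
    swap
    · push Not at hex
      exact ⟨fun _ => ⟨fun _ _ => 0, fun _ => 0⟩, ⟨fun _ => 0, 0⟩, fun k hk => absurd hk (hex k)⟩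
    obtain ⟨k0, hk0⟩ := hex
    have h0 : ‖h 0‖ ≤ 2 := by
      have h1 : ‖h (v k0)‖ ≤ 1 := bodyS_norm hT (by linarith) hk0
      have h2 : dist (h 0) (h (v k0)) = dist 0 (v k0) := h.dist_eq _ _
      rw [dist_eq_norm, dist_eq_norm, zero_sub, norm_neg] at h2
      have h3 : ‖h 0‖ ≤ ‖h 0 - h (v k0)‖ + ‖h (v k0)‖ := by
        have := norm_add_le (h 0 - h (v k0)) (h (v k0))
        simpa using this
      have := hv k0
      linarith
    obtain ⟨sig, hsig, hsig4, hz, hslab⟩ := slab_lemma h hid h0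
    obtain ⟨u, tau, hu, htau, hslab2⟩ := hslab kap hkap hkap4
    obtain ⟨σ, hσ⟩ := slab_round (M := M') hd hkap hkap4 hM' hu htau
    obtain ⟨Lam, hLam1, hLam⟩ := shells h hsig hsig4 hkap (by linarith) heps heps1 hz I hI
    have hround : ∀ i, ∃ ω : NetM d M, ∀ v w : Eu d, ‖v‖ ≤ 1 → ‖w‖ ≤ 1 → ∀ ρ : ℝ, ρ ≤ 1 →
        ‖Psi h (Lam i) v - (1 / 2 : ℝ) • w‖ ≤ ρ → ‖v - app (eps / (d : ℝ) ^ 2) ω w‖ ≤ ρ + eps :=
      fun i => psi_round hd heps hM h (hLam1 i)
    choose Om hOm using hround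
    refine ⟨Om, σ, fun k hk _ hpos => ?_⟩
    by_cases hsm : ‖v k - h (v k)‖ < kap * sig
    · right
      right
      exact hσ (v k) (hv k) (hslab2 (v k) (hv k) hsm)
    · push Not at hsm
      have hne : h (v k) ≠ v k := by
        intro hcon
        rw [hcon, sub_self, norm_zero] at hsm
        have := mul_pos hkap hsig
        linarith
      obtain ⟨i, hi⟩ := hLam (v k) (hv k) hsm
      set c := Psi h (max 1 (⟪v k, v k - h (v k)⟫ / ‖v k - h (v k)‖ ^ 2)) (v k) with hc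
      have hgen : ∀ w, ‖c - (1 / 2 : ℝ) • w‖ ≤ 1 / 2 → ‖Psi h (Lam i) (v k) - (1 / 2 : ℝ) • w‖ ≤
          1 / 2 + 4 * eps := by
        intro w hw
        have h3 : ‖Psi h (Lam i) (v k) - (1 / 2 : ℝ) • w‖ ≤
            ‖Psi h (Lam i) (v k) - c‖ + ‖c - (1 / 2 : ℝ) • w‖ := by
          have := norm_add_le (Psi h (Lam i) (v k) - c) (c - (1 / 2 : ℝ) • w)
          simpa using this
        linarith
      rcases near_point_sym hT hs hk hne hpos with h1 | ⟨w, hwT, hne, hne', hw⟩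
      · left
        refine ⟨i, ?_⟩
        have h2 := hOm i (v k) 0 (hv k) hz0 (s + 4 * eps) (by linarith) (by
          rw [smul_zero, sub_zero]
          have h3 : ‖Psi h (Lam i) (v k)‖ ≤ ‖Psi h (Lam i) (v k) - c‖ + ‖c‖ := by
            have := norm_add_le (Psi h (Lam i) (v k) - c) c
            simpa using this
          have h4 : ‖c‖ ≤ s := h1
          linarith)
        linarith
      · right
        left
        obtain ⟨j, hj⟩ := mem_symT hwT
        have hjk : j ≠ k := by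
          rintro rfl
          rcases hj with hj | hj
          · exact hne hj
          · exact hne' hj
        refine ⟨i, j, hjk, ?_⟩
        have hw' : ‖c - (1 / 2 : ℝ) • w‖ ≤ 1 / 2 := hw
        rcases hj with rfl | rfl
        · left
          have h2 := hOm i (v k) (v j) (hv k) (hv j) (1 / 2 + 4 * eps) (by linarith) (hgen _ hw')
          linarith
        · right
          have h2 := hOm i (v k) (-v j) (hv k) (hvn j) (1 / 2 + 4 * eps) (by linarith) (hgen _ hw')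
          linarith

/-- Both signs. -/
theorem cover_net_sym {d M M' I N : ℕ} (hd : 1 ≤ d) {s eps kap : ℝ} (hs : 0 ≤ s) (heps : 0 < eps) (heps1 : eps ≤ 1)
    (hs1 : s + 5 * eps ≤ 1) (he1 : 5 * eps ≤ 1 / 2) (hkap : 0 < kap) (hkap4 : kap ≤ 1 / 4)
    (hM : 3 * (d : ℝ) ^ 2 / eps ≤ M) (hM' : 3 * d / kap ≤ M') (hI : 1 / (kap * eps) ≤ (1 + eps) ^ I)
    (h : Eu d ≃ᵢ Eu d) (v : Fin N → Eu d) (hv : ∀ k, ‖v k‖ ≤ 1) :
    ∃ (Om : Bool → Fin (I + 2) → NetM d M) (σ : Bool → SlabNet d M'), ∀ k, h (v k) ∈ bodyS (symT v) s →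
      (∃ t : ℝ, 0 < t ∧ h ((1 + t) • v k) ∈ bodyS (symT v) s) → ∃ b,
      (∃ i, ‖v k - app (eps / (d : ℝ) ^ 2) (Om b i) 0‖ ≤ s + 5 * eps) ∨
      (∃ i j, j ≠ k ∧ (‖v k - app (eps / (d : ℝ) ^ 2) (Om b i) (v j)‖ ≤ 1 / 2 + 5 * eps ∨
        ‖v k - app (eps / (d : ℝ) ^ 2) (Om b i) (-v j)‖ ≤ 1 / 2 + 5 * eps)) ∨
      v k ∈ slabSet (kap / d) (9 * kap) (σ b) := by
  obtain ⟨Om1, σ1, h1⟩ := cover_one hd hs heps heps1 hs1 he1 hkap hkap4 hM hM' hI h v hv
  set h' : Eu d ≃ᵢ Eu d := h.trans (IsometryEquiv.neg (Eu d)) with hh'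
  have hh : ∀ x, h' x = -h x := fun x => rfl
  obtain ⟨Om2, σ2, h2⟩ := cover_one hd hs heps heps1 hs1 he1 hkap hkap4 hM hM' hI h' v hv
  refine ⟨fun b => if b then Om1 else Om2, fun b => if b then σ1 else σ2, fun k hk hk' => ?_⟩
  rcases le_or_gt 0 ⟪v k, h (v k)⟫ with hp | hp
  · refine ⟨true, ?_⟩
    simpa using h1 k hk hk' hp
  · refine ⟨false, ?_⟩
    obtain ⟨t, ht, htk⟩ := hk'
    have h3 := h2 k (by rw [hh]; exact symBody_neg v hk) ⟨t, ht, by rw [hh]; exact symBody_neg v htk⟩ (by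
      rw [hh, inner_neg_right]
      linarith)
    simpa using h3

end Newton54G
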