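import Mathlib

/-! # Row GR-N2: the number of points beats the number of shells -/

namespace Newton54G

/-- the polynomial factor is smaller than an exponential with base `r > 1` -/
theorem N2_poly (r : ℝ) (hr : 1 < r) (K : ℕ) : ∃ d0 : ℕ, ∀ d : ℕ, d0 ≤ d →
    (4 * ((K * (d + 1) : ℕ) + 2 : ℝ) + 1) * (d : ℝ) ^ 2 + 1 ≤ r ^ d := by
  have hK : (0 : ℝ) < 8 * K + 10 := by positivity
  have h1 := (tendsto_pow_const_div_const_pow_of_one_lt 3 hr).eventually_lt_const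
    (show (0 : ℝ) < 1 / (8 * K + 10) by positivity)
  obtain ⟨d1, hd1⟩ := Filter.eventually_atTop.1 h1
  refine ⟨d1 + 1, fun d hd => ?_⟩
  have h2 := hd1 d (by omega)
  have hr0 : (0 : ℝ) < r ^ d := pow_pos (by linarith) d
  rw [div_lt_div_iff₀ hr0 hK, one_mul] at h2
  have hd' : (1 : ℝ) ≤ d := by exact_mod_cast (by omega : 1 ≤ d)
  have hK0 : (0 : ℝ) ≤ K := Nat.cast_nonneg K
  refine le_trans ?_ h2.le
  push_cast
  have h3 : (1 : ℝ) ≤ (d : ℝ) ^ 3 := one_le_pow₀ hd'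
  have h4 : (d : ℝ) ^ 2 ≤ (d : ℝ) ^ 3 := pow_le_pow_right₀ hd' (by norm_num)
  have h5 : (K : ℝ) * (d : ℝ) ^ 2 ≤ K * (d : ℝ) ^ 3 := mul_le_mul_of_nonneg_left h4 hK0
  nlinarith [h3, h4, h5]

/-- `I = ⌈log (8 ^ d / eps) / log (1 + eps)⌉₊ ≤ K (d + 1)`, and `c ^ d (4 (I + 2) + 1) d ^ 2 ≤ K' (d + 1) ^ 3 c ^ d ≤ c1 ^ d - 1` for large `d`. -/
theorem num_shell (c c1 eps : ℝ) (hc : 1 ≤ c) (hc1 : c < c1) (heps : 0 < eps) : ∃ d0 : ℕ, ∀ d : ℕ, d0 ≤ d →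
    ∃ I : ℕ, 1 / ((1 / 8 : ℝ) ^ d * eps) ≤ (1 + eps) ^ I ∧
      c ^ d * ((4 * (I + 2) + 1) * (d : ℝ) ^ 2) ≤ (⌊c1 ^ d⌋₊ : ℝ) := by
  obtain ⟨K, hK⟩ := pow_unbounded_of_one_lt (max 8 (1 / eps)) (show 1 < 1 + eps by linarith)
  have hK1 : (8 : ℝ) ≤ (1 + eps) ^ K := (le_max_left _ _).trans hK.le
  have hK2 : 1 / eps ≤ (1 + eps) ^ K := (le_max_right _ _).trans hK.le
  have hc0 : (0 : ℝ) < c := by linarith
  obtain ⟨d0, hd0⟩ := N2_poly (c1 / c) ((one_lt_div hc0).2 hc1) K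
  refine ⟨d0, fun d hd => ⟨K * (d + 1), ?_, ?_⟩⟩
  · have h1 : 1 / ((1 / 8 : ℝ) ^ d * eps) = 8 ^ d * (1 / eps) := by
      rw [one_div_pow]
      field_simp
    rw [h1, pow_mul, pow_succ]
    exact mul_le_mul (pow_le_pow_left₀ (by norm_num) hK1 d) hK2 (by positivity) (by positivity)
  · have h2 := hd0 d hd
    have hcd : (1 : ℝ) ≤ c ^ d := one_le_pow₀ hc
    have h3 : c ^ d * ((4 * ((K * (d + 1) : ℕ) + 2 : ℝ) + 1) * (d : ℝ) ^ 2 + 1) ≤ c1 ^ d := by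
      refine (mul_le_mul_of_nonneg_left h2 (by positivity)).trans (le_of_eq ?_)
      rw [div_pow, mul_div_cancel₀]
      exact (pow_pos hc0 d).ne'
    have h4 : c1 ^ d - 1 < (⌊c1 ^ d⌋₊ : ℝ) := by
      have := Nat.lt_floor_add_one (c1 ^ d)
      linarith
    rw [mul_add, mul_one] at h3
    linarith

end Newton54G
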