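import Pool.Agent.Lib.MP_54d165_co.GR.N1
import Pool.Agent.Lib.MP_54d165_co.GR.N2

/-! # Row GR-N: numerical conditions -/

namespace Newton54G

/-- Choose `c1` with `c < c1 < √2` and `eps > 0` so small that `θ1 = c1 (√(1/2) + 5 eps) < 1`, `θ2 = c1 ^ 2 (1 / 2 + 5 eps) < 1` and the first conditions hold (`√(1/2) √2 = 1`); `θ = max θ1 θ2 < 1`. For large `d` take
`N = ⌊c1 ^ d⌋₊`, `m = d ^ 2`, `M = ⌈3 d ^ 2 / eps⌉₊`, `M' = ⌈3 d / (1 / 8) ^ d⌉₊`, `I` from `num_shell`. Then `N (√(1/2) + 5 eps) ^ d ≤ θ ^ d`, `N ^ 2 (1/2 + 5 eps) ^ d ≤ θ ^ d`; use `num_net`.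
`54 * 2 ^ d / 8 ^ d = 54 / 4 ^ d ≤ (1 / 2) ^ d ≤ (√(1/2) + 5 eps) ^ d` for `2 ^ d ≥ 54`. -/
theorem numerics (c : ℝ) (hc : 1 ≤ c) (hc2 : c < √2) : ∃ eps : ℝ, 0 < eps ∧ eps ≤ 1 ∧ √(1 / 2) + 5 * eps ≤ 1 ∧
    5 * eps ≤ 1 / 2 ∧ ∃ d0 : ℕ, ∀ d : ℕ, d0 ≤ d → ∃ N m M M' I : ℕ, 1 ≤ d ∧ 3 * (d : ℝ) ^ 2 / eps ≤ M ∧
      3 * d / (1 / 8 : ℝ) ^ d ≤ M' ∧ 1 / ((1 / 8 : ℝ) ^ d * eps) ≤ (1 + eps) ^ I ∧
      54 * 2 ^ d * (1 / 8 : ℝ) ^ d ≤ (√(1 / 2) + 5 * eps) ^ d ∧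
      ((2 * (M : ℝ) + 1) ^ (d ^ 2 + d) + (2 * (M' : ℝ) + 1) ^ (d + 1)) * (N * (√(1 / 2) + 5 * eps) ^ d) ^ m +
        (2 * (M : ℝ) + 1) ^ (d ^ 2 + d) * ((N : ℝ) ^ 2 * (1 / 2 + 5 * eps) ^ d) ^ m < 1 ∧
      c ^ d * ((4 * (I + 2) + 1) * m) ≤ N ∧ (1 / 8 : ℝ) ^ d ≤ 1 / 4 := by
  obtain ⟨r, hr⟩ : ∃ r : ℝ, r = √(1 / 2) := ⟨_, rfl⟩
  have hr0 : 0 ≤ r := by rw [hr]; exact Real.sqrt_nonneg _
  have hr2 : r * r = 1 / 2 := by rw [hr]; exact Real.mul_self_sqrt (by norm_num)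
  have hr34 : r ≤ 3 / 4 := by nlinarith
  have hr12 : 1 / 2 ≤ r := by nlinarith
  obtain ⟨q, hq⟩ : ∃ q : ℝ, q = √2 := ⟨_, rfl⟩
  have hq0 : 0 ≤ q := by rw [hq]; exact Real.sqrt_nonneg _
  have hq2 : q * q = 2 := by rw [hq]; exact Real.mul_self_sqrt (by norm_num)
  have hq32 : q ≤ 3 / 2 := by nlinarith
  have hqr : q * r = 1 := by
    have h1 : (q * r) * (q * r) = 1 := by
      have : (q * r) * (q * r) = (q * q) * (r * r) := by ring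
      rw [this, hq2, hr2]
      norm_num
    have h2 : 0 ≤ q * r := mul_nonneg hq0 hr0
    nlinarith
  rw [← hr]
  rw [← hq] at hc2
  obtain ⟨c1, hc1⟩ : ∃ c1 : ℝ, c1 = (c + q) / 2 := ⟨_, rfl⟩
  have hcc1 : c < c1 := by rw [hc1]; linarith
  have hc1q : c1 < q := by rw [hc1]; linarith
  have hc10 : 0 < c1 := by linarith
  have hrpos : 0 < r := by linarith
  have ha : 0 < 1 - c1 * r := by
    have := mul_lt_mul_of_pos_right hc1q hrpos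
    linarith
  have hb : 0 < 1 - c1 ^ 2 / 2 := by nlinarith
  have hc12 : c1 ^ 2 ≤ 2 := by linarith
  have hc132 : c1 ≤ 3 / 2 := by linarith
  obtain ⟨eps, heps⟩ : ∃ eps : ℝ, eps = min (1 / 20) (min ((1 - c1 * r) / 10) ((1 - c1 ^ 2 / 2) / 20)) :=
    ⟨_, rfl⟩
  have he0 : 0 < eps := by
    rw [heps]
    exact lt_min (by norm_num) (lt_min (by linarith) (by linarith))
  have he1 : eps ≤ 1 / 20 := by rw [heps]; exact min_le_left _ _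
  have he2 : eps ≤ (1 - c1 * r) / 10 := by
    rw [heps]; exact (min_le_right _ _).trans (min_le_left _ _)
  have he3 : eps ≤ (1 - c1 ^ 2 / 2) / 20 := by
    rw [heps]; exact (min_le_right _ _).trans (min_le_right _ _)
  have hθ1 : c1 * (r + 5 * eps) < 1 := by nlinarith
  have hθ2 : c1 ^ 2 * (1 / 2 + 5 * eps) < 1 := by nlinarith
  have hθ10 : 0 < c1 * (r + 5 * eps) := by positivity
  have hθ20 : 0 < c1 ^ 2 * (1 / 2 + 5 * eps) := by positivity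
  obtain ⟨θ, hθ⟩ : ∃ θ : ℝ, θ = max (c1 * (r + 5 * eps)) (c1 ^ 2 * (1 / 2 + 5 * eps)) := ⟨_, rfl⟩
  have hθ0 : 0 < θ := by rw [hθ]; exact lt_max_of_lt_left hθ10
  have hθl : θ < 1 := by rw [hθ]; exact max_lt hθ1 hθ2
  obtain ⟨d1, hd1⟩ := num_net eps θ he0 hθ0 hθl
  obtain ⟨d2, hd2⟩ := num_shell c c1 eps hc hcc1 he0
  refine ⟨eps, he0, by linarith, by linarith, by linarith, max (max d1 d2) 6, fun d hd => ?_⟩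
  have hdd1 : d1 ≤ d := (le_max_left _ _).trans ((le_max_left _ _).trans hd)
  have hdd2 : d2 ≤ d := (le_max_right _ _).trans ((le_max_left _ _).trans hd)
  have hd6 : 6 ≤ d := (le_max_right _ _).trans hd
  obtain ⟨I, hI1, hI2⟩ := hd2 d hdd2
  have hnet := hd1 d hdd1
  have hN : (⌊c1 ^ d⌋₊ : ℝ) ≤ c1 ^ d := Nat.floor_le (by positivity)
  have hN0 : (0 : ℝ) ≤ (⌊c1 ^ d⌋₊ : ℝ) := Nat.cast_nonneg _
  have hX : (⌊c1 ^ d⌋₊ : ℝ) * (r + 5 * eps) ^ d ≤ θ ^ d := by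
    calc (⌊c1 ^ d⌋₊ : ℝ) * (r + 5 * eps) ^ d ≤ c1 ^ d * (r + 5 * eps) ^ d :=
          mul_le_mul_of_nonneg_right hN (by positivity)
      _ = (c1 * (r + 5 * eps)) ^ d := (mul_pow _ _ _).symm
      _ ≤ θ ^ d := pow_le_pow_left₀ hθ10.le (by rw [hθ]; exact le_max_left _ _) d
  have hY : (⌊c1 ^ d⌋₊ : ℝ) ^ 2 * (1 / 2 + 5 * eps) ^ d ≤ θ ^ d := by
    calc (⌊c1 ^ d⌋₊ : ℝ) ^ 2 * (1 / 2 + 5 * eps) ^ d ≤ (c1 ^ d) ^ 2 * (1 / 2 + 5 * eps) ^ d :=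
          mul_le_mul_of_nonneg_right (pow_le_pow_left₀ hN0 hN 2) (by positivity)
      _ = (c1 ^ 2 * (1 / 2 + 5 * eps)) ^ d := by rw [mul_pow, ← pow_mul, ← pow_mul, mul_comm d 2]
      _ ≤ θ ^ d := pow_le_pow_left₀ hθ20.le (by rw [hθ]; exact le_max_right _ _) d
  have h8 : (1 / 8 : ℝ) ^ d ≤ 1 / 8 := by
    calc (1 / 8 : ℝ) ^ d ≤ (1 / 8 : ℝ) ^ 1 :=
          pow_le_pow_of_le_one (by norm_num) (by norm_num) (by omega)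
      _ = 1 / 8 := pow_one _
  refine ⟨⌊c1 ^ d⌋₊, d ^ 2, ⌈3 * (d : ℝ) ^ 2 / eps⌉₊, ⌈3 * d / (1 / 8 : ℝ) ^ d⌉₊, I, by omega,
    Nat.le_ceil _, Nat.le_ceil _, hI1, ?_, ?_, ?_, by linarith⟩
  · have h1 : (54 : ℝ) * 2 ^ d * (1 / 8 : ℝ) ^ d = 54 * (1 / 2 : ℝ) ^ d * (1 / 2 : ℝ) ^ d := by
      have e1 : (2 : ℝ) ^ d * (1 / 8 : ℝ) ^ d = (1 / 2 : ℝ) ^ d * (1 / 2 : ℝ) ^ d := by
        rw [← mul_pow, ← mul_pow]
        norm_num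
      rw [mul_assoc, e1, mul_assoc]
    have h2 : (54 : ℝ) * (1 / 2 : ℝ) ^ d ≤ 1 := by
      have e1 : (1 / 2 : ℝ) ^ d ≤ (1 / 2 : ℝ) ^ 6 :=
        pow_le_pow_of_le_one (by norm_num) (by norm_num) hd6
      have e2 : (1 / 2 : ℝ) ^ 6 = 1 / 64 := by norm_num
      linarith
    rw [h1]
    calc (54 : ℝ) * (1 / 2 : ℝ) ^ d * (1 / 2 : ℝ) ^ d ≤ 1 * (1 / 2 : ℝ) ^ d :=
          mul_le_mul_of_nonneg_right h2 (by positivity)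
      _ = (1 / 2 : ℝ) ^ d := one_mul _
      _ ≤ (r + 5 * eps) ^ d := pow_le_pow_left₀ (by norm_num) (by linarith) d
  · refine lt_of_le_of_lt ?_ hnet
    have e1 : ((⌊c1 ^ d⌋₊ : ℝ) * (r + 5 * eps) ^ d) ^ (d ^ 2) ≤ (θ ^ d) ^ (d ^ 2) :=
      pow_le_pow_left₀ (by positivity) hX _
    have e2 : ((⌊c1 ^ d⌋₊ : ℝ) ^ 2 * (1 / 2 + 5 * eps) ^ d) ^ (d ^ 2) ≤ (θ ^ d) ^ (d ^ 2) :=
      pow_le_pow_left₀ (by positivity) hY _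
    exact add_le_add (mul_le_mul_of_nonneg_left e1 (by positivity))
      (mul_le_mul_of_nonneg_left e2 (by positivity))
  · rw [Nat.cast_pow]
    exact hI2

end Newton54G
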