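import Mathlib

/-! # Row GR-P3: an independent set of a functional graph -/

namespace Newton54G

/-- Strong induction on the cardinality of `K`. If `K` is not empty, some `k0 ∈ K` is the image of at most one element of `K` (the numbers of preimages in `K` of the elements of `K` add up to
at most the cardinality of `K`). Remove `k0`, `f k0` and the preimage of `k0` (at most three elements) and add `k0` to the set `S` given by induction for the rest. -/
theorem indep {V : Type} [DecidableEq V] (K : Finset V) (f : V → V) (hf : ∀ k ∈ K, f k ≠ k) :
    ∃ S ⊆ K, K.card ≤ 3 * S.card ∧ ∀ k ∈ S, f k ∉ S := by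
  induction K using Finset.strongInduction with
  | H K ih =>
    rcases Finset.eq_empty_or_nonempty K with h0 | hne
    · subst h0
      exact ⟨∅, Finset.empty_subset _, by simp, by simp⟩
    · obtain ⟨k0, hk0, hfib⟩ : ∃ k0 ∈ K, (K.filter fun k => f k = k0).card ≤ 1 := by
        by_contra hcon
        push Not at hcon
        have h1 : ∑ k0 ∈ K, (K.filter fun k => f k = k0).card ≤ K.card := by
          rw [← Finset.card_biUnion]
          · refine Finset.card_le_card ?_
            intro x hx
            rw [Finset.mem_biUnion] at hx
            obtain ⟨a, _, hxa⟩ := hx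
            exact (Finset.mem_filter.1 hxa).1
          · intro a _ b _ hab
            rw [Function.onFun, Finset.disjoint_left]
            intro x hxa hxb
            exact hab ((Finset.mem_filter.1 hxa).2.symm.trans (Finset.mem_filter.1 hxb).2)
        have h2 : ∑ k0 ∈ K, 2 ≤ ∑ k0 ∈ K, (K.filter fun k => f k = k0).card :=
          Finset.sum_le_sum fun k hk => hcon k hk
        have h3 : ∑ k0 ∈ K, 2 = K.card * 2 := by simp
        have h4 : 0 < K.card := Finset.card_pos.2 hne
        omega
      obtain ⟨P, hP⟩ : ∃ P : Finset V, P = K.filter fun k => f k = k0 := ⟨_, rfl⟩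
      obtain ⟨Q, hQ⟩ : ∃ Q : Finset V, Q = insert k0 (insert (f k0) P) := ⟨_, rfl⟩
      have hk0Q : k0 ∈ Q := by rw [hQ]; exact Finset.mem_insert_self _ _
      have hfQ : f k0 ∈ Q := by
        rw [hQ]; exact Finset.mem_insert_of_mem (Finset.mem_insert_self _ _)
      have hPQ : ∀ k ∈ K, f k = k0 → k ∈ Q := by
        intro k hk h
        rw [hQ]
        refine Finset.mem_insert_of_mem (Finset.mem_insert_of_mem ?_)
        rw [hP]
        exact Finset.mem_filter.2 ⟨hk, h⟩
      have hQc : Q.card ≤ 3 := by
        rw [hQ]
        have h1 := Finset.card_insert_le k0 (insert (f k0) P)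
        have h2 := Finset.card_insert_le (f k0) P
        rw [← hP] at hfib
        omega
      have hss : K \ Q ⊂ K := by
        rw [Finset.ssubset_iff_of_subset Finset.sdiff_subset]
        exact ⟨k0, hk0, fun h => (Finset.mem_sdiff.1 h).2 hk0Q⟩
      obtain ⟨S', hS'K, hcard, hind⟩ := ih (K \ Q) hss fun k hk => hf k (Finset.mem_sdiff.1 hk).1
      have hk0S' : k0 ∉ S' := fun h => (Finset.mem_sdiff.1 (hS'K h)).2 hk0Q
      have hfS' : f k0 ∉ S' := fun h => (Finset.mem_sdiff.1 (hS'K h)).2 hfQ
      refine ⟨insert k0 S', ?_, ?_, ?_⟩
      · intro x hx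
        rcases Finset.mem_insert.1 hx with rfl | hx
        · exact hk0
        · exact (Finset.mem_sdiff.1 (hS'K hx)).1
      · rw [Finset.card_insert_of_notMem hk0S']
        have h1 : K.card ≤ (K \ Q).card + Q.card := by
          have := Finset.le_card_sdiff Q K
          omega
        omega
      · intro k hk
        rcases Finset.mem_insert.1 hk with rfl | hk
        · intro h
          rcases Finset.mem_insert.1 h with h | h
          · exact hf _ hk0 h
          · exact hfS' h
        · intro h
          rcases Finset.mem_insert.1 h with h | h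
          · exact (Finset.mem_sdiff.1 (hS'K hk)).2 (hPQ k (Finset.mem_sdiff.1 (hS'K hk)).1 h)
          · exact hind k hk h

end Newton54G
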