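import Pool.Agent.Lib.MP_54d165_co.GR.P1
import Pool.Agent.Lib.MP_54d165_co.GR.P3

/-! # Row GR-P2: the random points -/

namespace Newton54G

open scoped ENNReal
open MeasureTheory

open Classical in
/-- Suppose not. Then every `v : Fin N → X` lies in one of the sets: `{v | v k ∉ S}` for some `k` (measure `0`); `{v | ∀ i, v (k i) ∈ A a}` for some `a` and injective `k : Fin m → Fin N`
(an injection `Fin m → filter` exists if the filter has at least `m` elements); `{v | ∀ i, (v (k i), v (j i)) ∈ R b}` for some `b`, injective `k` and `j` with `k i ≠ j i'` (choose for each `k` in the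
filter some `j` with the property, apply `indep`, which leaves at least `m` elements). By `pi_bound`, `pi_bound_one` and the union bound `1 ≤ card α (N q1) ^ m + card β (N ^ 2 q2) ^ m < 1`. -/
theorem exists_tips {X : Type} [MeasurableSpace X] (μ : Measure X) [IsProbabilityMeasure μ] (S : Set X)
    (hS1 : μ Sᶜ = 0) (N m : ℕ) {α β : Type} [Fintype α] [Fintype β]
    (A : α → Set X) (hA : ∀ a, MeasurableSet (A a)) (R : β → Set (X × X)) (hR : ∀ b, MeasurableSet (R b))
    {q1 q2 : ℝ} (h1 : 0 ≤ q1) (h2 : 0 ≤ q2) (hq1 : ∀ a, μ (A a) ≤ ENNReal.ofReal q1)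
    (hq2 : ∀ b w, μ {x | (x, w) ∈ R b} ≤ ENNReal.ofReal q2)
    (hlt : (Fintype.card α : ℝ) * (N * q1) ^ m + Fintype.card β * ((N : ℝ) ^ 2 * q2) ^ m < 1) :
    ∃ v : Fin N → X, (∀ k, v k ∈ S) ∧ (∀ a, (Finset.univ.filter fun k => v k ∈ A a).card < m) ∧
      ∀ b, (Finset.univ.filter fun k => ∃ j, j ≠ k ∧ (v k, v j) ∈ R b).card < 3 * m := by
  set P : Measure (Fin N → X) := Measure.pi (fun _ : Fin N => μ) with hP
  set x : ℝ := (Fintype.card α : ℝ) * (N * q1) ^ m with hx
  set y : ℝ := (Fintype.card β : ℝ) * ((N : ℝ) ^ 2 * q2) ^ m with hy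
  have hx0 : 0 ≤ x := by positivity
  have hy0 : 0 ≤ y := by positivity
  set B1 : Set (Fin N → X) := ⋃ k : Fin N, {v | v k ∈ Sᶜ} with hB1
  set B2 : Set (Fin N → X) := ⋃ a : α, ⋃ k : Fin m → Fin N, {v | Function.Injective k ∧ ∀ i, v (k i) ∈ A a}
    with hB2
  set B3 : Set (Fin N → X) := ⋃ b : β, ⋃ kj : (Fin m → Fin N) × (Fin m → Fin N),
    {v | (Function.Injective kj.1 ∧ ∀ i i', kj.1 i ≠ kj.2 i') ∧ ∀ i, (v (kj.1 i), v (kj.2 i)) ∈ R b} with hB3
  have m1 : P B1 = 0 := by
    rw [hB1, measure_iUnion_null_iff]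
    intro k
    exact Measure.pi_eval_preimage_null (fun _ : Fin N => μ) hS1
  have m2 : P B2 ≤ ENNReal.ofReal x := by
    calc P B2 ≤ ∑ a : α, P (⋃ k : Fin m → Fin N, {v | Function.Injective k ∧ ∀ i, v (k i) ∈ A a}) :=
          measure_iUnion_fintype_le _ _
      _ ≤ ∑ a : α, ∑ k : Fin m → Fin N, P {v | Function.Injective k ∧ ∀ i, v (k i) ∈ A a} :=
          Finset.sum_le_sum fun a _ => measure_iUnion_fintype_le _ _
      _ ≤ ∑ _a : α, ∑ _k : Fin m → Fin N, ENNReal.ofReal (q1 ^ m) := by
          refine Finset.sum_le_sum fun a _ => Finset.sum_le_sum fun k _ => ?_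
          by_cases hk : Function.Injective k
          · rw [ENNReal.ofReal_pow h1]
            refine (measure_mono ?_).trans (pi_bound_one μ N m (A a) (hA a) _ (hq1 a) k hk)
            intro v hv
            exact hv.2
          · have : {v : Fin N → X | Function.Injective k ∧ ∀ i, v (k i) ∈ A a} = ∅ := by
              ext v
              simp [hk]
            rw [this, measure_empty]
            exact zero_le
      _ = ENNReal.ofReal x := by
          rw [Finset.sum_const, Finset.sum_const, Finset.card_univ, Finset.card_univ, Fintype.card_fun,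
            Fintype.card_fin, Fintype.card_fin, nsmul_eq_mul, nsmul_eq_mul, hx, mul_pow,
            ENNReal.ofReal_mul (by positivity), ENNReal.ofReal_mul (by positivity), ENNReal.ofReal_natCast,
            ENNReal.ofReal_pow (by positivity : (0 : ℝ) ≤ N), ENNReal.ofReal_natCast]
          push_cast
          rfl
  have m3 : P B3 ≤ ENNReal.ofReal y := by
    calc P B3 ≤ ∑ b : β, P (⋃ kj : (Fin m → Fin N) × (Fin m → Fin N),
            {v | (Function.Injective kj.1 ∧ ∀ i i', kj.1 i ≠ kj.2 i') ∧ ∀ i, (v (kj.1 i), v (kj.2 i)) ∈ R b}) :=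
          measure_iUnion_fintype_le _ _
      _ ≤ ∑ b : β, ∑ kj : (Fin m → Fin N) × (Fin m → Fin N),
            P {v | (Function.Injective kj.1 ∧ ∀ i i', kj.1 i ≠ kj.2 i') ∧ ∀ i, (v (kj.1 i), v (kj.2 i)) ∈ R b} :=
          Finset.sum_le_sum fun b _ => measure_iUnion_fintype_le _ _
      _ ≤ ∑ _b : β, ∑ _kj : (Fin m → Fin N) × (Fin m → Fin N), ENNReal.ofReal (q2 ^ m) := by
          refine Finset.sum_le_sum fun b _ => Finset.sum_le_sum fun kj _ => ?_
          by_cases hk : Function.Injective kj.1 ∧ ∀ i i', kj.1 i ≠ kj.2 i'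
          · rw [ENNReal.ofReal_pow h2]
            refine (measure_mono ?_).trans (pi_bound μ N m (R b) (hR b) _ (hq2 b) kj.1 kj.2 hk.1 hk.2)
            intro v hv
            exact hv.2
          · have : {v : Fin N → X | (Function.Injective kj.1 ∧ ∀ i i', kj.1 i ≠ kj.2 i') ∧
                ∀ i, (v (kj.1 i), v (kj.2 i)) ∈ R b} = ∅ := by
              ext v
              simp only [Set.mem_ofPred_eq, Set.mem_empty_iff_false, iff_false]
              exact fun h => hk h.1
            rw [this, measure_empty]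
            exact zero_le
      _ = ENNReal.ofReal y := by
          rw [Finset.sum_const, Finset.sum_const, Finset.card_univ, Finset.card_univ, Fintype.card_prod,
            Fintype.card_fun, Fintype.card_fin, Fintype.card_fin, nsmul_eq_mul, nsmul_eq_mul, hy, mul_pow,
            ENNReal.ofReal_mul (by positivity), ENNReal.ofReal_mul (by positivity), ENNReal.ofReal_natCast,
            ENNReal.ofReal_pow (by positivity : (0 : ℝ) ≤ (N : ℝ) ^ 2),
            ENNReal.ofReal_pow (by positivity : (0 : ℝ) ≤ N), ENNReal.ofReal_natCast]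
          push_cast
          ring
  have mt : P (B1 ∪ (B2 ∪ B3)) < 1 := by
    calc P (B1 ∪ (B2 ∪ B3)) ≤ P B1 + P (B2 ∪ B3) := measure_union_le _ _
      _ ≤ P B1 + (P B2 + P B3) := by gcongr; exact measure_union_le _ _
      _ ≤ 0 + (ENNReal.ofReal x + ENNReal.ofReal y) := by rw [m1]; gcongr
      _ = ENNReal.ofReal (x + y) := by rw [zero_add, ENNReal.ofReal_add hx0 hy0]
      _ < 1 := by
          rw [← ENNReal.ofReal_one]
          exact (ENNReal.ofReal_lt_ofReal_iff one_pos).2 hlt
  obtain ⟨v, hv⟩ : ∃ v, v ∉ B1 ∪ (B2 ∪ B3) := by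
    by_contra h
    push Not at h
    have : B1 ∪ (B2 ∪ B3) = Set.univ := Set.eq_univ_of_forall h
    rw [this, measure_univ] at mt
    exact lt_irrefl _ mt
  rw [Set.mem_union, Set.mem_union, not_or, not_or] at hv
  obtain ⟨v1, v2, v3⟩ := hv
  refine ⟨v, ?_, ?_, ?_⟩
  · intro k
    by_contra hk
    exact v1 (Set.mem_iUnion.2 ⟨k, hk⟩)
  · intro a
    by_contra hcard
    push Not at hcard
    obtain ⟨e⟩ : Nonempty (Fin m ↪ {k // k ∈ Finset.univ.filter fun k => v k ∈ A a}) := by
      apply Function.Embedding.nonempty_of_card_le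
      rw [Fintype.card_fin, Fintype.card_coe]
      exact hcard
    refine v2 (Set.mem_iUnion.2 ⟨a, Set.mem_iUnion.2 ⟨fun i => (e i).1, ?_, ?_⟩⟩)
    · exact fun i i' h => e.injective (Subtype.ext h)
    · exact fun i => (Finset.mem_filter.1 (e i).2).2
  · intro b
    by_contra hcard
    push Not at hcard
    set K : Finset (Fin N) := Finset.univ.filter fun k => ∃ j, j ≠ k ∧ (v k, v j) ∈ R b with hK
    have hKm : ∀ k ∈ K, ∃ j, j ≠ k ∧ (v k, v j) ∈ R b := fun k hk => (Finset.mem_filter.1 hk).2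
    set f : Fin N → Fin N := fun k => if h : ∃ j, j ≠ k ∧ (v k, v j) ∈ R b then h.choose else k with hf
    have hfk : ∀ k ∈ K, f k ≠ k ∧ (v k, v (f k)) ∈ R b := by
      intro k hk
      have h := hKm k hk
      simp only [hf, dif_pos h]
      exact h.choose_spec
    obtain ⟨T, hTK, hTc, hTf⟩ := indep K f (fun k hk => (hfk k hk).1)
    obtain ⟨e⟩ : Nonempty (Fin m ↪ {k // k ∈ T}) := by
      apply Function.Embedding.nonempty_of_card_le
      rw [Fintype.card_fin, Fintype.card_coe]
      omega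
    refine v3 (Set.mem_iUnion.2 ⟨b, Set.mem_iUnion.2
      ⟨(fun i => (e i).1, fun i => f (e i).1), ⟨?_, ?_⟩, ?_⟩⟩)
    · exact fun i i' h => e.injective (Subtype.ext h)
    · intro i i' h
      have h' : (e i).1 = f (e i').1 := h
      exact hTf (e i').1 (e i').2 (h' ▸ (e i).2)
    · exact fun i => (hfk _ (hTK (e i).2)).2

end Newton54G
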