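import Pool.Agent.Lib.MP_54d165_co.GR.Defs

/-! # Row GR-V: measures of balls and slabs -/

namespace Newton54G

open scoped RealInnerProductSpace ENNReal
open MeasureTheory Metric

theorem V_pos (d : ℕ) : volume (closedBall (0 : Eu d) 1) ≠ 0 :=
  (measure_closedBall_pos volume (0 : Eu d) one_pos).ne'

theorem V_fin (d : ℕ) : volume (closedBall (0 : Eu d) 1) ≠ ∞ :=
  (isCompact_closedBall (0 : Eu d) 1).measure_lt_top.ne

theorem V_vol {d : ℕ} (p : Eu d) {r : ℝ} (hr : 0 ≤ r) :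
    volume (closedBall p r) = ENNReal.ofReal (r ^ d) * volume (closedBall (0 : Eu d) 1) := by
  rw [Measure.addHaar_closedBall volume p hr, Measure.addHaar_unitClosedBall_eq_addHaar_unitBall]
  simp

/-- The closed unit ball has positive finite volume. -/
theorem mu_prob (d : ℕ) : IsProbabilityMeasure (mu d) := by
  refine ⟨?_⟩
  unfold mu
  rw [Measure.smul_apply, Measure.restrict_apply_univ, smul_eq_mul,
    ENNReal.inv_mul_cancel (V_pos d) (V_fin d)]

theorem V_le {d : ℕ} (s : Set (Eu d)) :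
    mu d s ≤ (volume (closedBall (0 : Eu d) 1))⁻¹ * volume (s ∩ closedBall (0 : Eu d) 1) := by
  unfold mu
  rw [Measure.smul_apply, smul_eq_mul, Measure.restrict_apply' isClosed_closedBall.measurableSet]

theorem mu_compl (d : ℕ) : mu d (closedBall (0 : Eu d) 1)ᶜ = 0 := by
  refine le_antisymm ((V_le _).trans ?_) zero_le
  rw [Set.compl_inter_self, measure_empty, mul_zero]

/-- `Measure.addHaar_closedBall`: the volume of a ball of radius `r` is `r ^ d` times the volume of the unit ball. -/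
theorem mu_ball {d : ℕ} (p : Eu d) {r : ℝ} (hr : 0 ≤ r) : mu d (closedBall p r) ≤ ENNReal.ofReal (r ^ d) := by
  refine (V_le _).trans ?_
  calc (volume (closedBall (0 : Eu d) 1))⁻¹ * volume (closedBall p r ∩ closedBall (0 : Eu d) 1)
      ≤ (volume (closedBall (0 : Eu d) 1))⁻¹ * volume (closedBall p r) := by
        gcongr
        exact Set.inter_subset_left
    _ = ENNReal.ofReal (r ^ d) * ((volume (closedBall (0 : Eu d) 1))⁻¹ *
          volume (closedBall (0 : Eu d) 1)) := by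
        rw [V_vol p hr]
        ring
    _ = ENNReal.ofReal (r ^ d) := by
        rw [ENNReal.inv_mul_cancel (V_pos d) (V_fin d), mul_one]

/-- Let `S` be the intersection of the slab with the closed unit ball `B`, `n = ⌊1 / (3 δ)⌋ + 1`. The translates of `S` by `3 δ i u`, `i = 0, …, n - 1`, are pairwise
disjoint (the values of `⟪u, ·⟫` lie in disjoint intervals) and contained in the ball of radius `2`, so `n vol S ≤ 2 ^ d vol B`, and `1 / n ≤ 3 δ`. -/
theorem mu_slab {d : ℕ} {u : Eu d} (hu : ‖u‖ = 1) (tau : ℝ) {δ : ℝ} (hδ : 0 < δ) :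
    mu d {x | |⟪u, x⟫ - tau| ≤ δ} ≤ ENNReal.ofReal (3 * 2 ^ d * δ) := by
  classical
  obtain ⟨S, hS⟩ : ∃ S : Set (Eu d), S = {x | |⟪u, x⟫ - tau| ≤ δ} ∩ closedBall (0 : Eu d) 1 := ⟨_, rfl⟩
  obtain ⟨n, hn⟩ : ∃ n : ℕ, n = ⌊1 / (3 * δ)⌋₊ + 1 := ⟨_, rfl⟩
  have hSc : IsClosed S := by
    rw [hS]
    refine IsClosed.inter ?_ isClosed_closedBall
    exact isClosed_le (by fun_prop) continuous_const
  have hSm : MeasurableSet S := hSc.measurableSet
  have huu : ⟪u, u⟫ = 1 := by rw [real_inner_self_eq_norm_sq, hu]; norm_num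
  have h3 : (3 * δ) * ⌊1 / (3 * δ)⌋₊ ≤ 1 := by
    have := Nat.floor_le (show (0 : ℝ) ≤ 1 / (3 * δ) by positivity)
    calc (3 * δ) * ⌊1 / (3 * δ)⌋₊ ≤ (3 * δ) * (1 / (3 * δ)) := by gcongr
      _ = 1 := by field_simp
  have hn1 : 1 ≤ (n : ℝ) * (3 * δ) := by
    have h4 := Nat.lt_floor_add_one (1 / (3 * δ))
    rw [div_lt_iff₀ (by positivity)] at h4
    rw [hn]
    push_cast
    linarith
  have hdisj : Pairwise (Function.onFun Disjoint fun i : Fin n =>
      (fun x => ((3 * δ * (i : ℕ)) • u) + x) '' S) := by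
    intro i j hij
    rw [Function.onFun, Set.disjoint_left]
    rintro z ⟨x, hx, rfl⟩ ⟨y, hy, hxy⟩
    apply hij
    rw [hS] at hx hy
    have hx1 := hx.1
    have hy1 := hy.1
    rw [Set.mem_ofPred_eq, abs_le] at hx1 hy1
    have h5 := congrArg (fun z => ⟪u, z⟫) hxy
    simp only [inner_add_right, inner_smul_right, huu, mul_one] at h5
    have h6 : 3 * δ * ((j : ℕ) : ℝ) - 3 * δ * ((i : ℕ) : ℝ) = ⟪u, x⟫ - ⟪u, y⟫ := by linarith
    have h7 : 3 * δ * (((j : ℕ) : ℝ) - ((i : ℕ) : ℝ)) ≤ 2 * δ := by linarith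
    have h8 : -(2 * δ) ≤ 3 * δ * (((j : ℕ) : ℝ) - ((i : ℕ) : ℝ)) := by linarith
    have h9 : (((j : ℕ) : ℝ) - ((i : ℕ) : ℝ)) < 1 := by
      by_contra hcon
      push Not at hcon
      have : 3 * δ * 1 ≤ 3 * δ * (((j : ℕ) : ℝ) - ((i : ℕ) : ℝ)) := by gcongr
      linarith
    have h10 : -1 < (((j : ℕ) : ℝ) - ((i : ℕ) : ℝ)) := by
      by_contra hcon
      push Not at hcon
      have : 3 * δ * (((j : ℕ) : ℝ) - ((i : ℕ) : ℝ)) ≤ 3 * δ * (-1) := by gcongr
      linarith
    have h11 : ((j : ℕ) : ℝ) < ((i : ℕ) : ℝ) + 1 := by linarith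
    have h12 : ((i : ℕ) : ℝ) < ((j : ℕ) : ℝ) + 1 := by linarith
    have h13 : (j : ℕ) < (i : ℕ) + 1 := by exact_mod_cast h11
    have h14 : (i : ℕ) < (j : ℕ) + 1 := by exact_mod_cast h12
    exact Fin.ext (by omega)
  have hsub : (⋃ i : Fin n, (fun x => ((3 * δ * (i : ℕ)) • u) + x) '' S) ⊆ closedBall (0 : Eu d) 2 := by
    refine Set.iUnion_subset fun i => ?_
    rintro z ⟨x, hx, rfl⟩
    rw [hS] at hx
    have hx2 := hx.2
    rw [mem_closedBall_zero_iff] at hx2 ⊢
    have h15 : ‖(3 * δ * ((i : ℕ) : ℝ)) • u‖ ≤ 1 := by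
      rw [norm_smul, hu, mul_one, Real.norm_of_nonneg (by positivity)]
      refine le_trans ?_ h3
      have h16 : (i : ℕ) ≤ ⌊1 / (3 * δ)⌋₊ := by
        have := i.2
        omega
      have h17 : ((i : ℕ) : ℝ) ≤ (⌊1 / (3 * δ)⌋₊ : ℝ) := by exact_mod_cast h16
      gcongr
    calc ‖(3 * δ * ((i : ℕ) : ℝ)) • u + x‖ ≤ ‖(3 * δ * ((i : ℕ) : ℝ)) • u‖ + ‖x‖ := norm_add_le _ _
      _ ≤ 2 := by linarith
  have hvol : (n : ℝ≥0∞) * volume S ≤ ENNReal.ofReal (2 ^ d) * volume (closedBall (0 : Eu d) 1) := by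
    rw [← V_vol (0 : Eu d) (by norm_num : (0 : ℝ) ≤ 2)]
    refine le_trans ?_ (measure_mono hsub)
    rw [measure_iUnion hdisj]
    · rw [tsum_fintype]
      have h18 : ∀ i : Fin n, volume ((fun x => ((3 * δ * (i : ℕ)) • u) + x) '' S) = volume S := by
        intro i
        rw [Set.image_add_left, measure_preimage_add]
      rw [Finset.sum_congr rfl fun i _ => h18 i]
      simp
    · intro i
      have : (fun x => ((3 * δ * (i : ℕ)) • u) + x) '' S =
          (fun x => -((3 * δ * (i : ℕ)) • u) + x) ⁻¹' S := Set.image_add_left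
      rw [this]
      exact hSm.preimage (measurable_const_add _)
  refine (V_le _).trans ?_
  rw [← hS]
  have hn0 : (n : ℝ≥0∞) ≠ 0 := by
    rw [hn]
    simp
  have hnt : (n : ℝ≥0∞) ≠ ∞ := ENNReal.natCast_ne_top n
  have hnd : (1 : ℝ≥0∞) ≤ (n : ℝ≥0∞) * ENNReal.ofReal (3 * δ) := by
    rw [← ENNReal.ofReal_natCast, ← ENNReal.ofReal_mul (Nat.cast_nonneg n), ← ENNReal.ofReal_one]
    exact ENNReal.ofReal_le_ofReal hn1
  calc (volume (closedBall (0 : Eu d) 1))⁻¹ * volume S
      = 1 * ((volume (closedBall (0 : Eu d) 1))⁻¹ * volume S) := (one_mul _).symm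
    _ ≤ ((n : ℝ≥0∞) * ENNReal.ofReal (3 * δ)) * ((volume (closedBall (0 : Eu d) 1))⁻¹ * volume S) := by
        gcongr
    _ = ENNReal.ofReal (3 * δ) * ((volume (closedBall (0 : Eu d) 1))⁻¹ * ((n : ℝ≥0∞) * volume S)) := by
        ring
    _ ≤ ENNReal.ofReal (3 * δ) * ((volume (closedBall (0 : Eu d) 1))⁻¹ *
          (ENNReal.ofReal (2 ^ d) * volume (closedBall (0 : Eu d) 1))) := by gcongr
    _ = ENNReal.ofReal (3 * δ) * ENNReal.ofReal (2 ^ d) * ((volume (closedBall (0 : Eu d) 1))⁻¹ *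
          volume (closedBall (0 : Eu d) 1)) := by ring
    _ = ENNReal.ofReal (3 * 2 ^ d * δ) := by
        rw [ENNReal.inv_mul_cancel (V_pos d) (V_fin d), mul_one,
          ← ENNReal.ofReal_mul (by positivity)]
        congr 1
        ring

/-- Normalise the normal vector (`mu_slab` with `2 wid`); the set is empty if `‖slabVec del σ‖ < 1 / 2`. -/
theorem mu_slabSet {d M : ℕ} (del : ℝ) {wid : ℝ} (hwid : 0 < wid) (σ : SlabNet d M) :
    mu d (slabSet del wid σ) ≤ ENNReal.ofReal (6 * 2 ^ d * wid) := by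
  by_cases h : 1 / 2 ≤ ‖slabVec del σ‖
  · have hv : 0 < ‖slabVec del σ‖ := by linarith
    have h1 : slabSet del wid σ ⊆ {x | |⟪(‖slabVec del σ‖)⁻¹ • slabVec del σ, x⟫ -
        (‖slabVec del σ‖)⁻¹ * (val σ.2 * del)| ≤ 2 * wid} := by
      rintro x ⟨-, -, hx⟩
      rw [Set.mem_ofPred_eq, real_inner_smul_left, ← mul_sub, abs_mul, abs_of_pos (inv_pos.2 hv)]
      have h2 : (‖slabVec del σ‖)⁻¹ ≤ 2 := by
        rw [inv_le_comm₀ hv (by norm_num)]
        linarith
      exact mul_le_mul h2 hx (abs_nonneg _) (by norm_num)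
    refine (measure_mono h1).trans ?_
    have h3 : ‖(‖slabVec del σ‖)⁻¹ • slabVec del σ‖ = 1 := by
      rw [norm_smul, norm_inv, norm_norm, inv_mul_cancel₀ hv.ne']
    refine (mu_slab h3 _ (by positivity : (0 : ℝ) < 2 * wid)).trans ?_
    refine ENNReal.ofReal_le_ofReal ?_
    apply le_of_eq
    ring
  · have h1 : slabSet del wid σ = ∅ := by
      ext x
      simp only [slabSet, Set.mem_ofPred_eq, Set.mem_empty_iff_false, iff_false]
      rintro ⟨-, h2, -⟩
      exact h h2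
    rw [h1, measure_empty]
    exact zero_le

/-- A closed set. -/
theorem meas_slabSet {d M : ℕ} (del wid : ℝ) (σ : SlabNet d M) : MeasurableSet (slabSet del wid σ) := by
  have h1 : IsClosed {x : Eu d | ‖x‖ ≤ 1} := isClosed_le continuous_norm continuous_const
  have h2 : IsClosed {x : Eu d | |⟪slabVec del σ, x⟫ - val σ.2 * del| ≤ wid} :=
    isClosed_le (by fun_prop) continuous_const
  by_cases h : 1 / 2 ≤ ‖slabVec del σ‖
  · have h3 : slabSet del wid σ = {x : Eu d | ‖x‖ ≤ 1} ∩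
        {x : Eu d | |⟪slabVec del σ, x⟫ - val σ.2 * del| ≤ wid} := by
      ext x
      simp only [slabSet, Set.mem_ofPred_eq, Set.mem_inter_iff]
      tauto
    rw [h3]
    exact (h1.inter h2).measurableSet
  · have h3 : slabSet del wid σ = ∅ := by
      ext x
      simp only [slabSet, Set.mem_ofPred_eq, Set.mem_empty_iff_false, iff_false]
      rintro ⟨-, h2, -⟩
      exact h h2
    rw [h3]
    exact MeasurableSet.empty

/-- `app del ω` is continuous. -/
theorem meas_rel {d M : ℕ} (del r : ℝ) (ω : NetM d M) :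
    MeasurableSet {p : Eu d × Eu d | ‖p.1 - app del ω p.2‖ ≤ r} := by
  have h1 : Continuous (app (d := d) del ω) := by
    unfold app
    refine (PiLp.continuous_toLp 2 _).comp ?_
    refine continuous_pi fun k => ?_
    fun_prop
  refine (isClosed_le ?_ continuous_const).measurableSet
  exact (continuous_fst.sub (h1.comp continuous_snd)).norm

end Newton54G
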