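import Pool.Agent.Lib.MP_54d165_co.GR.N

/-! # Row n54-N3: numerical conditions, general inner radius -/

namespace Newton54G

theorem N3_two (θ θ' : ℝ) (h0 : 0 < θ) (h1 : θ < θ') : ∃ d0 : ℕ, ∀ d : ℕ, d0 ≤ d →
    2 * (θ ^ d) ^ (d ^ 2) ≤ (θ' ^ d) ^ (d ^ 2) := by
  have h0' : 0 < θ' := h0.trans h1
  have hr0 : 0 < θ / θ' := div_pos h0 h0'
  have hr1 : θ / θ' < 1 := (div_lt_one h0').2 h1
  obtain ⟨n, hn⟩ := exists_pow_lt_of_lt_one (show (0 : ℝ) < 1 / 2 by norm_num) hr1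
  refine ⟨max n 1, fun d hd => ?_⟩
  have hdn : n ≤ d := (le_max_left _ _).trans hd
  have hd1 : 1 ≤ d := (le_max_right _ _).trans hd
  have h2 : n ≤ d * d ^ 2 := by
    have h3 : 1 ≤ d ^ 2 := Nat.one_le_pow _ _ hd1
    calc n ≤ d := hdn
      _ = d * 1 := (mul_one d).symm
      _ ≤ d * d ^ 2 := Nat.mul_le_mul_left d h3
  have h3 : (θ / θ') ^ (d * d ^ 2) ≤ 1 / 2 :=
    (pow_le_pow_of_le_one hr0.le hr1.le h2).trans hn.le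
  rw [← pow_mul, ← pow_mul]
  have h4 : θ ^ (d * d ^ 2) = (θ / θ') ^ (d * d ^ 2) * θ' ^ (d * d ^ 2) := by
    rw [← mul_pow, div_mul_cancel₀ _ h0'.ne']
  rw [h4]
  have h5 : 0 < θ' ^ (d * d ^ 2) := pow_pos h0' _
  nlinarith

theorem N3_four (c c2 : ℝ) (hc : 1 ≤ c) (h : c < c2) : ∃ d0 : ℕ, ∀ d : ℕ, d0 ≤ d →
    4 * c ^ d ≤ c2 ^ d := by
  have hc0 : 0 < c := by linarith
  have h1 : 1 < c2 / c := (one_lt_div hc0).2 h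
  obtain ⟨n, hn⟩ := pow_unbounded_of_one_lt 4 h1
  refine ⟨n, fun d hd => ?_⟩
  have h2 : 4 ≤ (c2 / c) ^ d := hn.le.trans (pow_le_pow_right₀ h1.le hd)
  have h3 : c2 ^ d = (c2 / c) ^ d * c ^ d := by
    rw [← mul_pow, div_mul_cancel₀ _ hc0.ne']
  rw [h3]
  exact mul_le_mul_of_nonneg_right h2 (by positivity)

/-- As `numerics` in N.lean (copy its proof), with `s` in place of `√(1 / 2)`: choose `c1 > c` with `c1 s < 1` (so `c1 ^ 2 < 1 / s ^ 2 ≤ 2`), then `eps` small with `θ1 = c1 (s + 5 eps) < 1`, `θ2 = c1 ^ 2 (1 / 2 + 5 eps) < 1`, `θ = max θ1 θ2`,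
`θ' = (θ + 1) / 2`. `N = ⌊c1 ^ d⌋₊`, `m = d ^ 2`. The additional factor `2` is absorbed by `2 (θ ^ d) ^ (d ^ 2) ≤ (θ' ^ d) ^ (d ^ 2)` for large `d` (use `num_net` with `θ'`), and the factor `2 (7 (I + 2) + 1) ≤ 4 (4 (I + 2) + 1)` in the last but one condition by
`num_shell` with some `c2`, `c < c2 < c1` and `4 c ^ d ≤ c2 ^ d` for large `d`. -/
theorem numerics_sym (s c : ℝ) (hs : √(1 / 2) ≤ s) (hs1 : s < 1) (hc : 1 ≤ c) (hcs : c * s < 1) :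
    ∃ eps : ℝ, 0 < eps ∧ eps ≤ 1 ∧ s + 5 * eps ≤ 1 ∧
    5 * eps ≤ 1 / 2 ∧ ∃ d0 : ℕ, ∀ d : ℕ, d0 ≤ d → ∃ N m M M' I : ℕ, 1 ≤ d ∧ 3 * (d : ℝ) ^ 2 / eps ≤ M ∧
      3 * d / (1 / 8 : ℝ) ^ d ≤ M' ∧ 1 / ((1 / 8 : ℝ) ^ d * eps) ≤ (1 + eps) ^ I ∧
      54 * 2 ^ d * (1 / 8 : ℝ) ^ d ≤ (s + 5 * eps) ^ d ∧
      ((2 * (M : ℝ) + 1) ^ (d ^ 2 + d) + (2 * (M' : ℝ) + 1) ^ (d + 1)) * (N * (s + 5 * eps) ^ d) ^ m +
        2 * (2 * (M : ℝ) + 1) ^ (d ^ 2 + d) * ((N : ℝ) ^ 2 * (1 / 2 + 5 * eps) ^ d) ^ m < 1 ∧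
      c ^ d * (2 * (7 * (I + 2) + 1) * m) ≤ N ∧ (1 / 8 : ℝ) ^ d ≤ 1 / 4 := by
  have hs12 : 1 / 2 ≤ s * s := by
    have h1 : √(1 / 2 : ℝ) * √(1 / 2 : ℝ) = 1 / 2 := Real.mul_self_sqrt (by norm_num)
    have h2 : (0 : ℝ) ≤ √(1 / 2) := Real.sqrt_nonneg _
    nlinarith
  have hs0 : 0 < s := by
    have h2 : (0 : ℝ) < √(1 / 2) := Real.sqrt_pos.2 (by norm_num)
    linarith
  have hs2 : 1 / 2 ≤ s := by nlinarith
  obtain ⟨c1, hc1⟩ : ∃ c1 : ℝ, c1 = (c + 1 / s) / 2 := ⟨_, rfl⟩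
  have hs1' : c < 1 / s := by
    rw [lt_div_iff₀ hs0]
    exact hcs
  have hcc1 : c < c1 := by rw [hc1]; linarith
  have hc1s : c1 * s < 1 := by
    have h1 : 1 / s * s = 1 := by field_simp
    have h2 : c1 * s = (c * s + 1 / s * s) / 2 := by rw [hc1]; ring
    rw [h2, h1]
    linarith
  have hc10 : 0 < c1 := by linarith
  obtain ⟨c2, hc2⟩ : ∃ c2 : ℝ, c2 = (c + c1) / 2 := ⟨_, rfl⟩
  have hcc2 : c < c2 := by rw [hc2]; linarith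
  have hc21 : c2 < c1 := by rw [hc2]; linarith
  have hc12 : c1 ^ 2 < 2 := by
    have h1 : c1 ^ 2 * (s * s) < 1 := by
      have h2 : c1 ^ 2 * (s * s) = (c1 * s) * (c1 * s) := by ring
      have h3 : 0 < c1 * s := mul_pos hc10 hs0
      rw [h2]
      nlinarith
    nlinarith [mul_le_mul_of_nonneg_left hs12 (sq_nonneg c1)]
  have hc132 : c1 ≤ 3 / 2 := by nlinarith
  obtain ⟨eps, heps⟩ : ∃ eps : ℝ, eps = min (min (1 / 20) ((1 - s) / 5))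
    (min ((1 - c1 * s) / 10) ((1 - c1 ^ 2 / 2) / 20)) := ⟨_, rfl⟩
  have ha : 0 < 1 - c1 * s := by linarith
  have hb : 0 < 1 - c1 ^ 2 / 2 := by linarith
  have he0 : 0 < eps := by
    rw [heps]
    exact lt_min (lt_min (by norm_num) (by linarith)) (lt_min (by linarith) (by linarith))
  have he1 : eps ≤ 1 / 20 := by
    rw [heps]; exact (min_le_left _ _).trans (min_le_left _ _)
  have he4 : eps ≤ (1 - s) / 5 := by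
    rw [heps]; exact (min_le_left _ _).trans (min_le_right _ _)
  have he2 : eps ≤ (1 - c1 * s) / 10 := by
    rw [heps]; exact (min_le_right _ _).trans (min_le_left _ _)
  have he3 : eps ≤ (1 - c1 ^ 2 / 2) / 20 := by
    rw [heps]; exact (min_le_right _ _).trans (min_le_right _ _)
  have hθ1 : c1 * (s + 5 * eps) < 1 := by nlinarith
  have hθ2 : c1 ^ 2 * (1 / 2 + 5 * eps) < 1 := by nlinarith
  have hθ10 : 0 < c1 * (s + 5 * eps) := by positivity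
  have hθ20 : 0 < c1 ^ 2 * (1 / 2 + 5 * eps) := by positivity
  obtain ⟨θ, hθ⟩ : ∃ θ : ℝ, θ = max (c1 * (s + 5 * eps)) (c1 ^ 2 * (1 / 2 + 5 * eps)) := ⟨_, rfl⟩
  have hθ0 : 0 < θ := by rw [hθ]; exact lt_max_of_lt_left hθ10
  have hθl : θ < 1 := by rw [hθ]; exact max_lt hθ1 hθ2
  obtain ⟨θ', hθ'⟩ : ∃ θ' : ℝ, θ' = (θ + 1) / 2 := ⟨_, rfl⟩
  have hθθ' : θ < θ' := by rw [hθ']; linarith
  have hθ'1 : θ' < 1 := by rw [hθ']; linarith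
  have hθ'0 : 0 < θ' := hθ0.trans hθθ'
  obtain ⟨d1, hd1⟩ := num_net eps θ' he0 hθ'0 hθ'1
  obtain ⟨d2, hd2⟩ := num_shell c2 c1 eps (by linarith) hc21 he0
  obtain ⟨d3, hd3⟩ := N3_two θ θ' hθ0 hθθ'
  obtain ⟨d4, hd4⟩ := N3_four c c2 hc hcc2
  refine ⟨eps, he0, by linarith, by linarith, by linarith, max (max (max d1 d2) (max d3 d4)) 6,
    fun d hd => ?_⟩
  have hdA : max (max d1 d2) (max d3 d4) ≤ d := (le_max_left _ _).trans hd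
  have hdd1 : d1 ≤ d := (le_max_left _ _).trans ((le_max_left _ _).trans hdA)
  have hdd2 : d2 ≤ d := (le_max_right _ _).trans ((le_max_left _ _).trans hdA)
  have hdd3 : d3 ≤ d := (le_max_left _ _).trans ((le_max_right _ _).trans hdA)
  have hdd4 : d4 ≤ d := (le_max_right _ _).trans ((le_max_right _ _).trans hdA)
  have hd6 : 6 ≤ d := (le_max_right _ _).trans hd
  obtain ⟨I, hI1, hI2⟩ := hd2 d hdd2
  have hnet := hd1 d hdd1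
  have htwo := hd3 d hdd3
  have hfour := hd4 d hdd4
  have hN : (⌊c1 ^ d⌋₊ : ℝ) ≤ c1 ^ d := Nat.floor_le (by positivity)
  have hN0 : (0 : ℝ) ≤ (⌊c1 ^ d⌋₊ : ℝ) := Nat.cast_nonneg _
  have hX : (⌊c1 ^ d⌋₊ : ℝ) * (s + 5 * eps) ^ d ≤ θ ^ d := by
    calc (⌊c1 ^ d⌋₊ : ℝ) * (s + 5 * eps) ^ d ≤ c1 ^ d * (s + 5 * eps) ^ d :=
          mul_le_mul_of_nonneg_right hN (by positivity)
      _ = (c1 * (s + 5 * eps)) ^ d := (mul_pow _ _ _).symm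
      _ ≤ θ ^ d := pow_le_pow_left₀ hθ10.le (by rw [hθ]; exact le_max_left _ _) d
  have hY : (⌊c1 ^ d⌋₊ : ℝ) ^ 2 * (1 / 2 + 5 * eps) ^ d ≤ θ ^ d := by
    calc (⌊c1 ^ d⌋₊ : ℝ) ^ 2 * (1 / 2 + 5 * eps) ^ d ≤ (c1 ^ d) ^ 2 * (1 / 2 + 5 * eps) ^ d :=
          mul_le_mul_of_nonneg_right (pow_le_pow_left₀ hN0 hN 2) (by positivity)
      _ = (c1 ^ 2 * (1 / 2 + 5 * eps)) ^ d := by rw [mul_pow, ← pow_mul, ← pow_mul, mul_comm d 2]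
      _ ≤ θ ^ d := pow_le_pow_left₀ hθ20.le (by rw [hθ]; exact le_max_right _ _) d
  have h8 : (1 / 8 : ℝ) ^ d ≤ 1 / 8 := by
    calc (1 / 8 : ℝ) ^ d ≤ (1 / 8 : ℝ) ^ 1 :=
          pow_le_pow_of_le_one (by norm_num) (by norm_num) (by omega)
      _ = 1 / 8 := pow_one _
  refine ⟨⌊c1 ^ d⌋₊, d ^ 2, ⌈3 * (d : ℝ) ^ 2 / eps⌉₊, ⌈3 * d / (1 / 8 : ℝ) ^ d⌉₊, I, by omega,
    Nat.le_ceil _, Nat.le_ceil _, hI1, ?_, ?_, ?_, by linarith⟩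
  · have h1 : (54 : ℝ) * 2 ^ d * (1 / 8 : ℝ) ^ d = 54 * (1 / 2 : ℝ) ^ d * (1 / 2 : ℝ) ^ d := by
      have e1 : (2 : ℝ) ^ d * (1 / 8 : ℝ) ^ d = (1 / 2 : ℝ) ^ d * (1 / 2 : ℝ) ^ d := by
        rw [← mul_pow, ← mul_pow]
        norm_num
      rw [mul_assoc, e1, mul_assoc]
    have h2 : (54 : ℝ) * (1 / 2 : ℝ) ^ d ≤ 1 := by
      have e1 : (1 / 2 : ℝ) ^ d ≤ (1 / 2 : ℝ) ^ 6 :=
        pow_le_pow_of_le_one (by norm_num) (by norm_num) hd6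
      have e2 : (1 / 2 : ℝ) ^ 6 = 1 / 64 := by norm_num
      linarith
    rw [h1]
    calc (54 : ℝ) * (1 / 2 : ℝ) ^ d * (1 / 2 : ℝ) ^ d ≤ 1 * (1 / 2 : ℝ) ^ d :=
          mul_le_mul_of_nonneg_right h2 (by positivity)
      _ = (1 / 2 : ℝ) ^ d := one_mul _
      _ ≤ (s + 5 * eps) ^ d := pow_le_pow_left₀ (by norm_num) (by linarith) d
  · refine lt_of_le_of_lt ?_ hnet
    have e1 : ((⌊c1 ^ d⌋₊ : ℝ) * (s + 5 * eps) ^ d) ^ (d ^ 2) ≤ (θ' ^ d) ^ (d ^ 2) :=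
      pow_le_pow_left₀ (by positivity) (hX.trans (pow_le_pow_left₀ hθ0.le hθθ'.le d)) _
    have e2 : 2 * ((⌊c1 ^ d⌋₊ : ℝ) ^ 2 * (1 / 2 + 5 * eps) ^ d) ^ (d ^ 2) ≤ (θ' ^ d) ^ (d ^ 2) :=
      le_trans (mul_le_mul_of_nonneg_left (pow_le_pow_left₀ (by positivity) hY _) (by norm_num)) htwo
    refine add_le_add (mul_le_mul_of_nonneg_left e1 (by positivity)) ?_
    calc 2 * (2 * (⌈3 * (d : ℝ) ^ 2 / eps⌉₊ : ℝ) + 1) ^ (d ^ 2 + d) *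
          ((⌊c1 ^ d⌋₊ : ℝ) ^ 2 * (1 / 2 + 5 * eps) ^ d) ^ (d ^ 2) =
        (2 * (⌈3 * (d : ℝ) ^ 2 / eps⌉₊ : ℝ) + 1) ^ (d ^ 2 + d) *
          (2 * ((⌊c1 ^ d⌋₊ : ℝ) ^ 2 * (1 / 2 + 5 * eps) ^ d) ^ (d ^ 2)) := by ring
      _ ≤ (2 * (⌈3 * (d : ℝ) ^ 2 / eps⌉₊ : ℝ) + 1) ^ (d ^ 2 + d) * (θ' ^ d) ^ (d ^ 2) :=
          mul_le_mul_of_nonneg_left e2 (by positivity)
  · rw [Nat.cast_pow]
    refine le_trans ?_ hI2
    have hI0 : (0 : ℝ) ≤ (I : ℝ) := Nat.cast_nonneg I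
    have hd2' : (0 : ℝ) ≤ (d : ℝ) ^ 2 := by positivity
    have h1 : 2 * (7 * ((I : ℝ) + 2) + 1) * (d : ℝ) ^ 2 ≤ 4 * ((4 * ((I : ℝ) + 2) + 1) * (d : ℝ) ^ 2) := by
      nlinarith
    have hcd : (0 : ℝ) ≤ c ^ d := by positivity
    calc c ^ d * (2 * (7 * ((I : ℝ) + 2) + 1) * (d : ℝ) ^ 2) ≤
          c ^ d * (4 * ((4 * ((I : ℝ) + 2) + 1) * (d : ℝ) ^ 2)) := mul_le_mul_of_nonneg_left h1 hcd
      _ = (4 * c ^ d) * ((4 * ((I : ℝ) + 2) + 1) * (d : ℝ) ^ 2) := by ring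
      _ ≤ c2 ^ d * ((4 * ((I : ℝ) + 2) + 1) * (d : ℝ) ^ 2) :=
          mul_le_mul_of_nonneg_right hfour (by positivity)

end Newton54G
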