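import Pool.Agent.Lib.MP_54d165_co.GR.G2
import Pool.Agent.Lib.MP_54d165_co.GR.V
import Pool.Agent.Lib.MP_54d165_co.GR.P2
import Pool.Agent.Lib.MP_54d165_co.GR.N3

/-! # The lower bound, symmetric bodies between two balls -/

namespace Newton54G

open scoped RealInnerProductSpace
open MeasureTheory Metric

theorem card_netM' (d M : ℕ) : Fintype.card (NetM d M) = (2 * M + 1) ^ (d ^ 2 + d) := by
  simp only [Fintype.card_prod, Fintype.card_fun, Fintype.card_fin]
  rw [← pow_mul, ← pow_add]
  congr 1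
  ring

theorem card_slabNet' (d M : ℕ) : Fintype.card (SlabNet d M) = (2 * M + 1) ^ (d + 1) := by
  simp only [Fintype.card_prod, Fintype.card_fun, Fintype.card_fin]
  rw [pow_succ]

theorem lower_sym (s c : ℝ) (hs : √(1 / 2) ≤ s) (hs1 : s < 1) (hc : 1 ≤ c) (hcs : c * s < 1) :
    ∃ d0 : ℕ, ∀ d : ℕ, d0 ≤ d →
    ∃ C : Set (Eu d), Convex ℝ C ∧ IsCompact C ∧ (∀ x ∈ C, -x ∈ C) ∧ closedBall 0 s ⊆ C ∧ C ⊆ closedBall 0 1 ∧
      ∀ (n : ℕ) (g : Fin n → (Eu d ≃ᵢ Eu d)),
        (∃ U : Set (Eu d), IsOpen U ∧ C ⊆ U ∧ U ⊆ ⋃ i, g i '' C) → c ^ d ≤ n := by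
  classical
  obtain ⟨eps, heps, heps1, hse, he1, d0, hnum⟩ := numerics_sym s c hs hs1 hc hcs
  refine ⟨d0, fun d hd0 => ?_⟩
  obtain ⟨N, m, M, M', I, hd, hM, hM', hI, hslabq, hlt, hcN, hkap4⟩ := hnum d hd0
  set kap : ℝ := (1 / 8 : ℝ) ^ d with hkapdef
  have hkap : 0 < kap := by positivity
  have hs0 : 0 < s := lt_of_lt_of_le (Real.sqrt_pos.2 (by norm_num)) hs
  set del : ℝ := eps / (d : ℝ) ^ 2 with hdel
  have hprob := mu_prob d
  set A : NetM d M ⊕ SlabNet d M' → Set (Eu d) := fun a => Sum.elim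
    (fun ω => closedBall (app del ω 0) (s + 5 * eps)) (fun σ => slabSet (kap / d) (9 * kap) σ) a with hA
  set R : NetM d M ⊕ NetM d M → Set (Eu d × Eu d) := fun ω => Sum.elim
    (fun ω => {p : Eu d × Eu d | ‖p.1 - app del ω p.2‖ ≤ 1 / 2 + 5 * eps})
    (fun ω => {p : Eu d × Eu d | ‖p.1 - app del ω (-p.2)‖ ≤ 1 / 2 + 5 * eps}) ω with hR
  obtain ⟨v, hv, hvA, hvR⟩ := exists_tips (mu d) (closedBall (0 : Eu d) 1) (mu_compl d) N m A
    (by
      rintro (ω | σ)
      · exact measurableSet_closedBall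
      · exact meas_slabSet _ _ _)
    R
    (by
      rintro (ω | ω)
      · exact meas_rel _ _ _
      · have h1 : Measurable fun p : Eu d × Eu d => (p.1, -p.2) := by fun_prop
        exact h1 (meas_rel del (1 / 2 + 5 * eps) ω))
    (q1 := (s + 5 * eps) ^ d) (q2 := (1 / 2 + 5 * eps) ^ d)
    (by positivity) (by positivity)
    (by
      rintro (ω | σ)
      · exact mu_ball _ (by positivity)
      · refine (mu_slabSet _ (by positivity) σ).trans (ENNReal.ofReal_le_ofReal ?_)
        refine le_trans (le_of_eq ?_) hslabq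
        ring)
    (by
      rintro (ω | ω) w
      · have h1 : {x : Eu d | (x, w) ∈ R (Sum.inl ω)} = closedBall (app del ω w) (1 / 2 + 5 * eps) := by
          ext x
          simp only [hR, Sum.elim_inl, Set.mem_ofPred_eq, mem_closedBall, dist_eq_norm]
        rw [h1]
        exact mu_ball _ (by positivity)
      · have h1 : {x : Eu d | (x, w) ∈ R (Sum.inr ω)} = closedBall (app del ω (-w)) (1 / 2 + 5 * eps) := by
          ext x
          simp only [hR, Sum.elim_inr, Set.mem_ofPred_eq, mem_closedBall, dist_eq_norm]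
        rw [h1]
        exact mu_ball _ (by positivity))
    (by
      rw [Fintype.card_sum, Fintype.card_sum, card_netM', card_slabNet']
      push_cast
      refine lt_of_le_of_lt (le_of_eq ?_) hlt
      ring)
  have hvn : ∀ k, ‖v k‖ ≤ 1 := by
    intro k
    have := hv k
    rwa [mem_closedBall, dist_zero_right] at this
  have hTn : ∀ w ∈ symT v, ‖w‖ ≤ 1 := by
    intro w hw
    obtain ⟨j, rfl | rfl⟩ := mem_symT hw
    · exact hvn j
    · rw [norm_neg]
      exact hvn j
  refine ⟨bodyS (symT v) s, convex_convexHull _ _, symBody_compact v hs0, fun x hx => symBody_neg v hx, ?_, ?_, ?_⟩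
  · exact Set.subset_union_right.trans (subset_convexHull _ _)
  · intro x hx
    rw [mem_closedBall, dist_zero_right]
    exact bodyS_norm hTn hs1.le hx
  rintro n g ⟨U, hU, hCU, hcov⟩
  have hcount := final_count_sym (mt := 2 * (7 * (I + 2) + 1) * m) hs0 v (by
    intro h
    obtain ⟨Om, σ, hOm⟩ := cover_net_sym hd hs0.le heps heps1 hse he1 hkap hkap4 hM hM' hI h v hvn
    have hone : ∀ b : Bool, ((Finset.univ.biUnion fun i => Finset.univ.filter fun k => v k ∈ A (Sum.inl (Om b i))) ∪
        ((Finset.univ.biUnion fun i => Finset.univ.filter fun k => ∃ j, j ≠ k ∧ (v k, v j) ∈ R (Sum.inl (Om b i))) ∪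
        (Finset.univ.biUnion fun i => Finset.univ.filter fun k => ∃ j, j ≠ k ∧ (v k, v j) ∈ R (Sum.inr (Om b i)))) ∪
        (Finset.univ.filter fun k => v k ∈ A (Sum.inr (σ b)))).card ≤ (7 * (I + 2) + 1) * m := by
      intro b
      have h1 : (Finset.univ.biUnion fun i => Finset.univ.filter fun k => v k ∈ A (Sum.inl (Om b i))).card ≤
          (I + 2) * m := by
        refine Finset.card_biUnion_le.trans ?_
        calc ∑ i : Fin (I + 2), (Finset.univ.filter fun k => v k ∈ A (Sum.inl (Om b i))).card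
            ≤ ∑ _i : Fin (I + 2), m := Finset.sum_le_sum fun i _ => (hvA (Sum.inl (Om b i))).le
          _ = (I + 2) * m := by simp
      have h2 : (Finset.univ.biUnion fun i => Finset.univ.filter fun k =>
          ∃ j, j ≠ k ∧ (v k, v j) ∈ R (Sum.inl (Om b i))).card ≤ (I + 2) * (3 * m) := by
        refine Finset.card_biUnion_le.trans ?_
        calc ∑ i : Fin (I + 2), (Finset.univ.filter fun k => ∃ j, j ≠ k ∧ (v k, v j) ∈ R (Sum.inl (Om b i))).card
            ≤ ∑ _i : Fin (I + 2), 3 * m := Finset.sum_le_sum fun i _ => (hvR (Sum.inl (Om b i))).le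
          _ = (I + 2) * (3 * m) := by simp
      have h2' : (Finset.univ.biUnion fun i => Finset.univ.filter fun k =>
          ∃ j, j ≠ k ∧ (v k, v j) ∈ R (Sum.inr (Om b i))).card ≤ (I + 2) * (3 * m) := by
        refine Finset.card_biUnion_le.trans ?_
        calc ∑ i : Fin (I + 2), (Finset.univ.filter fun k => ∃ j, j ≠ k ∧ (v k, v j) ∈ R (Sum.inr (Om b i))).card
            ≤ ∑ _i : Fin (I + 2), 3 * m := Finset.sum_le_sum fun i _ => (hvR (Sum.inr (Om b i))).le
          _ = (I + 2) * (3 * m) := by simp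
      have h3 := (hvA (Sum.inr (σ b))).le
      refine (Finset.card_union_le _ _).trans ?_
      refine (add_le_add ((Finset.card_union_le _ _).trans (add_le_add h1
        ((Finset.card_union_le _ _).trans (add_le_add h2 h2')))) h3).trans (le_of_eq ?_)
      ring
    have hsub : (Finset.univ.filter fun k => h (v k) ∈ bodyS (symT v) s ∧
        ∃ t : ℝ, 0 < t ∧ h ((1 + t) • v k) ∈ bodyS (symT v) s) ⊆
        Finset.univ.biUnion fun b : Bool =>
        ((Finset.univ.biUnion fun i => Finset.univ.filter fun k => v k ∈ A (Sum.inl (Om b i))) ∪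
        ((Finset.univ.biUnion fun i => Finset.univ.filter fun k => ∃ j, j ≠ k ∧ (v k, v j) ∈ R (Sum.inl (Om b i))) ∪
        (Finset.univ.biUnion fun i => Finset.univ.filter fun k => ∃ j, j ≠ k ∧ (v k, v j) ∈ R (Sum.inr (Om b i)))) ∪
        (Finset.univ.filter fun k => v k ∈ A (Sum.inr (σ b)))) := by
      intro k hk
      simp only [Finset.mem_filter, Finset.mem_univ, true_and] at hk
      obtain ⟨b, hb⟩ := hOm k hk.1 hk.2
      simp only [Finset.mem_union, Finset.mem_biUnion, Finset.mem_filter, Finset.mem_univ, true_and]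
      refine ⟨b, ?_⟩
      rcases hb with ⟨i, hi⟩ | ⟨i, j, hjk, hi | hi⟩ | hi
      · left
        left
        refine ⟨i, ?_⟩
        simp only [hA, Sum.elim_inl, mem_closedBall, dist_eq_norm]
        exact hi
      · left
        right
        left
        exact ⟨i, j, hjk, hi⟩
      · left
        right
        right
        exact ⟨i, j, hjk, hi⟩
      · right
        exact hi
    refine (Finset.card_le_card hsub).trans (Finset.card_biUnion_le.trans ?_)
    refine (Finset.sum_le_sum fun b _ => hone b).trans (le_of_eq ?_)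
    rw [Finset.sum_const, Finset.card_univ, Fintype.card_bool, smul_eq_mul]
    ring) n g U hU hCU hcov
  have hm : 0 < m := lt_of_le_of_lt (Nat.zero_le _) (hvA (Sum.inl (⟨fun _ _ => 0, fun _ => 0⟩ : NetM d M)))
  have hmR : (0 : ℝ) < 2 * (7 * ((I : ℝ) + 2) + 1) * m := by
    have : (0 : ℝ) < m := by exact_mod_cast hm
    positivity
  have h6 : c ^ d * (2 * (7 * ((I : ℝ) + 2) + 1) * m) ≤ n * (2 * (7 * ((I : ℝ) + 2) + 1) * m) := by
    refine hcN.trans ?_
    exact_mod_cast hcount
  exact le_of_mul_le_mul_right h6 hmR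

end Newton54G
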