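import Mathlib

/-! # Row n54-N4: numerical conditions with polynomial loss -/

namespace Newton54G

theorem N4_growth (s : ℝ) (hs0 : 0 < s) (hs1 : s < 1) : ∃ d0 : ℕ, ∀ d : ℕ, d0 ≤ d →
    2 * (d : ℝ) ^ 2 ≤ (1 / s) ^ d := by
  have hκ : 1 < 1 / s := by
    rw [lt_div_iff₀ hs0]
    linarith
  have h1 := tendsto_pow_const_div_const_pow_of_one_lt 2 hκ
  have h2 : ∀ᶠ n : ℕ in Filter.atTop, (n : ℝ) ^ 2 / (1 / s) ^ n < 1 / 2 :=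
    h1.eventually_lt_const (by positivity)
  obtain ⟨d0, hd0⟩ := Filter.eventually_atTop.1 h2
  refine ⟨d0, fun d hd => ?_⟩
  have h3 := hd0 d hd
  have h6 : 0 < (1 / s) ^ d := by positivity
  rw [div_lt_div_iff₀ h6 (by positivity), one_mul] at h3
  linarith

/-- The two small quantities. -/
theorem N4_small (s d : ℝ) (n : ℕ) (N : ℕ) (hnd : (n : ℝ) = d) (hs : 1 / 2 ≤ s * s) (hs0 : 1 / 2 ≤ s) (hd : Real.exp 10 < d)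
    (hN : (N : ℝ) ≤ (1 / s) ^ n / d ^ 2) :
    (N : ℝ) * (s + 5 * (1 / d)) ^ n ≤ 1 / d ∧ (N : ℝ) ^ 2 * (1 / 2 + 5 * (1 / d)) ^ n ≤ 1 / d := by
  have hd1 : 1 < d := lt_of_le_of_lt (Real.one_le_exp (by norm_num)) hd
  have hd0 : 0 < d := by linarith
  have hsp : 0 < s := by linarith
  have hexp : (1 + 10 / d) ^ n ≤ Real.exp 10 := by
    have h1 : 1 + 10 / d ≤ Real.exp (10 / d) := by
      have := Real.add_one_le_exp (10 / d)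
      linarith
    calc (1 + 10 / d) ^ n ≤ (Real.exp (10 / d)) ^ n := pow_le_pow_left₀ (by positivity) h1 n
      _ = Real.exp 10 := by
        rw [← Real.exp_nat_mul, hnd]
        congr 1
        field_simp
  have hd2 : 0 < d ^ 2 := by positivity
  constructor
  · have h1 : (N : ℝ) * (s + 5 * (1 / d)) ^ n ≤ (1 / s) ^ n / d ^ 2 * (s + 5 * (1 / d)) ^ n :=
      mul_le_mul_of_nonneg_right hN (by positivity)
    have h2 : (1 / s) ^ n / d ^ 2 * (s + 5 * (1 / d)) ^ n = ((1 / s) * (s + 5 * (1 / d))) ^ n / d ^ 2 := by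
      rw [mul_pow]
      ring
    have h3 : (1 / s) * (s + 5 * (1 / d)) ≤ 1 + 10 / d := by
      have h4 : (1 / s) * (s + 5 * (1 / d)) = 1 + (1 / s) * (5 / d) := by
        field_simp
      have h5 : 1 / s ≤ 2 := by
        rw [div_le_iff₀ hsp]
        linarith
      have h6 : (1 / s) * (5 / d) ≤ 2 * (5 / d) := mul_le_mul_of_nonneg_right h5 (by positivity)
      rw [h4]
      have h7 : 2 * (5 / d) = 10 / d := by ring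
      linarith
    have h4 : ((1 / s) * (s + 5 * (1 / d))) ^ n ≤ Real.exp 10 :=
      (pow_le_pow_left₀ (by positivity) h3 n).trans hexp
    have h5 : Real.exp 10 / d ^ 2 ≤ 1 / d := by
      rw [div_le_div_iff₀ hd2 hd0]
      nlinarith
    calc (N : ℝ) * (s + 5 * (1 / d)) ^ n ≤ ((1 / s) * (s + 5 * (1 / d))) ^ n / d ^ 2 := h1.trans h2.le
      _ ≤ Real.exp 10 / d ^ 2 := div_le_div_of_nonneg_right h4 hd2.le
      _ ≤ 1 / d := h5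
  · have hN2 : (N : ℝ) ^ 2 ≤ ((1 / s) ^ n / d ^ 2) ^ 2 := pow_le_pow_left₀ (by positivity) hN 2
    have h1 : (N : ℝ) ^ 2 * (1 / 2 + 5 * (1 / d)) ^ n ≤ ((1 / s) ^ n / d ^ 2) ^ 2 * (1 / 2 + 5 * (1 / d)) ^ n :=
      mul_le_mul_of_nonneg_right hN2 (by positivity)
    have h2 : ((1 / s) ^ n / d ^ 2) ^ 2 * (1 / 2 + 5 * (1 / d)) ^ n =
        ((1 / s) ^ 2 * (1 / 2 + 5 * (1 / d))) ^ n / d ^ 4 := by
      rw [mul_pow, div_pow, ← pow_mul, ← pow_mul, mul_comm n 2]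
      ring
    have h3 : (1 / s) ^ 2 * (1 / 2 + 5 * (1 / d)) ≤ 1 + 10 / d := by
      have h5 : (1 / s) ^ 2 ≤ 2 := by
        rw [div_pow, one_pow, div_le_iff₀ (by positivity)]
        nlinarith
      have h6 : (1 / s) ^ 2 * (1 / 2 + 5 * (1 / d)) ≤ 2 * (1 / 2 + 5 * (1 / d)) :=
        mul_le_mul_of_nonneg_right h5 (by positivity)
      have h7 : 2 * (1 / 2 + 5 * (1 / d)) = 1 + 10 / d := by ring
      linarith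
    have h4 : ((1 / s) ^ 2 * (1 / 2 + 5 * (1 / d))) ^ n ≤ Real.exp 10 :=
      (pow_le_pow_left₀ (by positivity) h3 n).trans hexp
    have h5 : Real.exp 10 / d ^ 4 ≤ 1 / d := by
      rw [div_le_div_iff₀ (by positivity) hd0]
      have h6 : d ^ 2 ≤ d ^ 4 := pow_le_pow_right₀ hd1.le (by norm_num)
      nlinarith
    calc (N : ℝ) ^ 2 * (1 / 2 + 5 * (1 / d)) ^ n ≤ ((1 / s) ^ 2 * (1 / 2 + 5 * (1 / d))) ^ n / d ^ 4 := h1.trans h2.le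
      _ ≤ Real.exp 10 / d ^ 4 := div_le_div_of_nonneg_right h4 (by positivity)
      _ ≤ 1 / d := h5

/-- The union bound. -/
theorem N4_sum (d : ℕ) (hd : 8 ≤ d) (X Y : ℝ) (hX0 : 0 ≤ X) (hY0 : 0 ≤ Y) (hX : X ≤ 1 / (d : ℝ)) (hY : Y ≤ 1 / (d : ℝ)) :
    ((2 * ((3 * d ^ 3 : ℕ) : ℝ) + 1) ^ (d ^ 2 + d) + (2 * ((3 * d * 8 ^ d : ℕ) : ℝ) + 1) ^ (d + 1)) * X ^ (9 * d ^ 2) +
        2 * (2 * ((3 * d ^ 3 : ℕ) : ℝ) + 1) ^ (d ^ 2 + d) * Y ^ (9 * d ^ 2) < 1 := by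
  have hdR : (8 : ℝ) ≤ d := by exact_mod_cast hd
  have hd0 : (0 : ℝ) < d := by linarith
  have hd1 : (1 : ℝ) ≤ d := by linarith
  have hdd : d ≤ d ^ 2 := by nlinarith
  have h1 : (2 * ((3 * d ^ 3 : ℕ) : ℝ) + 1) ^ (d ^ 2 + d) ≤ (d : ℝ) ^ (8 * d ^ 2) := by
    have h2 : 2 * ((3 * d ^ 3 : ℕ) : ℝ) + 1 ≤ (d : ℝ) ^ 4 := by
      push_cast
      have h3 : (1 : ℝ) ≤ (d : ℝ) ^ 3 := one_le_pow₀ hd1
      have h4 : (8 : ℝ) * (d : ℝ) ^ 3 ≤ (d : ℝ) * (d : ℝ) ^ 3 := mul_le_mul_of_nonneg_right hdR (by positivity)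
      have h5 : (d : ℝ) * (d : ℝ) ^ 3 = (d : ℝ) ^ 4 := by ring
      linarith
    calc (2 * ((3 * d ^ 3 : ℕ) : ℝ) + 1) ^ (d ^ 2 + d) ≤ ((d : ℝ) ^ 4) ^ (d ^ 2 + d) :=
          pow_le_pow_left₀ (by positivity) h2 _
      _ = (d : ℝ) ^ (4 * (d ^ 2 + d)) := by rw [← pow_mul]
      _ ≤ (d : ℝ) ^ (8 * d ^ 2) := pow_le_pow_right₀ hd1 (by omega)
  have h2 : (2 * ((3 * d * 8 ^ d : ℕ) : ℝ) + 1) ^ (d + 1) ≤ (d : ℝ) ^ (8 * d ^ 2) := by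
    have h3 : 2 * ((3 * d * 8 ^ d : ℕ) : ℝ) + 1 ≤ (d : ℝ) ^ (2 * d) := by
      push_cast
      have h4 : (8 : ℝ) ^ d ≤ (d : ℝ) ^ d := pow_le_pow_left₀ (by norm_num) hdR d
      have h5 : (1 : ℝ) ≤ (d : ℝ) ^ d := one_le_pow₀ hd1
      have h6 : 7 * (d : ℝ) ≤ (d : ℝ) ^ d := by
        calc 7 * (d : ℝ) ≤ (d : ℝ) * d := by nlinarith
          _ = (d : ℝ) ^ 2 := by ring
          _ ≤ (d : ℝ) ^ d := pow_le_pow_right₀ hd1 (by omega)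
      have h7 : (d : ℝ) ^ (2 * d) = (d : ℝ) ^ d * (d : ℝ) ^ d := by rw [two_mul, pow_add]
      have h8 : 7 * (d : ℝ) * (d : ℝ) ^ d ≤ (d : ℝ) ^ d * (d : ℝ) ^ d :=
        mul_le_mul_of_nonneg_right h6 (by positivity)
      have h9 : (d : ℝ) * 8 ^ d ≤ (d : ℝ) * (d : ℝ) ^ d := mul_le_mul_of_nonneg_left h4 hd0.le
      have h10 : 1 ≤ (d : ℝ) * (d : ℝ) ^ d := one_le_mul_of_one_le_of_one_le hd1 h5
      rw [h7]
      nlinarith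
    calc (2 * ((3 * d * 8 ^ d : ℕ) : ℝ) + 1) ^ (d + 1) ≤ ((d : ℝ) ^ (2 * d)) ^ (d + 1) :=
          pow_le_pow_left₀ (by positivity) h3 _
      _ = (d : ℝ) ^ (2 * d * (d + 1)) := by rw [← pow_mul]
      _ ≤ (d : ℝ) ^ (8 * d ^ 2) := pow_le_pow_right₀ hd1 (by nlinarith)
  have h3 : X ^ (9 * d ^ 2) ≤ (1 / (d : ℝ)) ^ (9 * d ^ 2) := pow_le_pow_left₀ hX0 hX _
  have h4 : Y ^ (9 * d ^ 2) ≤ (1 / (d : ℝ)) ^ (9 * d ^ 2) := pow_le_pow_left₀ hY0 hY _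
  have h5 : (d : ℝ) ^ (8 * d ^ 2) * (1 / (d : ℝ)) ^ (9 * d ^ 2) ≤ 1 / d := by
    have h6 : 9 * d ^ 2 = 8 * d ^ 2 + d ^ 2 := by ring
    rw [h6, pow_add, ← mul_assoc, ← mul_pow, mul_one_div, div_self hd0.ne', one_pow, one_mul]
    calc (1 / (d : ℝ)) ^ (d ^ 2) ≤ (1 / (d : ℝ)) ^ 1 :=
          pow_le_pow_of_le_one (by positivity) (by rw [div_le_one hd0]; exact hd1) (by nlinarith)
      _ = 1 / d := pow_one _
  have h7 : 1 / (d : ℝ) ≤ 1 / 8 := one_div_le_one_div_of_le (by norm_num) hdR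
  have hP : 0 ≤ (2 * ((3 * d ^ 3 : ℕ) : ℝ) + 1) ^ (d ^ 2 + d) := by positivity
  have hP' : 0 ≤ (2 * ((3 * d * 8 ^ d : ℕ) : ℝ) + 1) ^ (d + 1) := by positivity
  have hX' : 0 ≤ X ^ (9 * d ^ 2) := by positivity
  have hY' : 0 ≤ Y ^ (9 * d ^ 2) := by positivity
  have hQ : (0 : ℝ) ≤ (d : ℝ) ^ (8 * d ^ 2) := by positivity
  have a1 := mul_le_mul h1 h3 hX' hQ
  have a2 := mul_le_mul h2 h3 hX' hQ
  have a3 := mul_le_mul h1 h4 hY' hQ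
  nlinarith

/-- Take `eps = 1 / d`, `m = 9 d ^ 2`, `M = ⌈3 d ^ 2 / eps⌉₊` (`= 3 d ^ 3`), `M' = ⌈3 d / (1 / 8) ^ d⌉₊` (`= 3 d 8 ^ d`), `I = 8 d ^ 2`, `N = ⌊(1 / s) ^ d / d ^ 2⌋₊`.
`(1 + 1 / d) ^ d ≥ 2`, so `(1 + eps) ^ I ≥ 2 ^ (8 d) ≥ 8 ^ d d`. `(s + 5 / d) ^ d ≤ s ^ d exp (5 / s) ≤ s ^ d exp 8` (`s ≥ √(1 / 2) ≥ 0.7`), so `N (s + 5 eps) ^ d ≤ exp 8 / d ^ 2 ≤ 1 / d` for large `d`;
`N ^ 2 (1 / 2 + 5 / d) ^ d ≤ (1 / (2 s ^ 2)) ^ d exp 10 / d ^ 4 ≤ 1 / d` (`2 s ^ 2 ≥ 1`). `2 M + 1 ≤ 7 d ^ 3 ≤ d ^ 4`, so the first net has at most `(d ^ 4) ^ (2 d ^ 2) = d ^ (8 d ^ 2)` elements; `2 M' + 1 ≤ 7 d 8 ^ d ≤ 9 ^ d` for large `d`, and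
`(9 ^ d) ^ (d + 1) ≤ 81 ^ (d ^ 2) ≤ d ^ (8 d ^ 2)`. So the long sum is at most `4 d ^ (8 d ^ 2) (1 / d) ^ (9 d ^ 2) = 4 / d ^ (d ^ 2) < 1`. `54 * 2 ^ d / 8 ^ d ≤ (1 / 2) ^ d ≤ s ^ d` for `2 ^ d ≥ 54`.
`2 (7 (I + 2) + 1) m = 18 d ^ 2 (56 d ^ 2 + 15) ≤ 1278 d ^ 4`, and `(1 / s) ^ d / d ^ 7 * 1278 d ^ 4 ≤ (1 / s) ^ d / d ^ 2 - 1 ≤ N` for large `d`. -/
theorem numerics_poly (s : ℝ) (hs : √(1 / 2) ≤ s) (hs1 : s < 1) : ∃ d0 : ℕ, ∀ d : ℕ, d0 ≤ d →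
    ∃ (eps : ℝ) (N m M M' I : ℕ), 0 < eps ∧ eps ≤ 1 ∧ s + 5 * eps ≤ 1 ∧ 5 * eps ≤ 1 / 2 ∧ 1 ≤ d ∧
      3 * (d : ℝ) ^ 2 / eps ≤ M ∧ 3 * d / (1 / 8 : ℝ) ^ d ≤ M' ∧ 1 / ((1 / 8 : ℝ) ^ d * eps) ≤ (1 + eps) ^ I ∧
      54 * 2 ^ d * (1 / 8 : ℝ) ^ d ≤ (s + 5 * eps) ^ d ∧
      ((2 * (M : ℝ) + 1) ^ (d ^ 2 + d) + (2 * (M' : ℝ) + 1) ^ (d + 1)) * (N * (s + 5 * eps) ^ d) ^ m +
        2 * (2 * (M : ℝ) + 1) ^ (d ^ 2 + d) * ((N : ℝ) ^ 2 * (1 / 2 + 5 * eps) ^ d) ^ m < 1 ∧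
      (1 / s) ^ d / (d : ℝ) ^ 7 * (2 * (7 * (I + 2) + 1) * m) ≤ N ∧ (1 / 8 : ℝ) ^ d ≤ 1 / 4 := by
  have hs12 : 1 / 2 ≤ s * s := by
    have h1 : √(1 / 2 : ℝ) * √(1 / 2 : ℝ) = 1 / 2 := Real.mul_self_sqrt (by norm_num)
    have h2 : (0 : ℝ) ≤ √(1 / 2) := Real.sqrt_nonneg _
    nlinarith
  have hs0 : 0 < s := lt_of_lt_of_le (Real.sqrt_pos.2 (by norm_num)) hs
  have hsh : 1 / 2 ≤ s := by nlinarith
  obtain ⟨d1, hd1⟩ := N4_growth s hs0 hs1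
  obtain ⟨d2, hd2⟩ := exists_nat_gt (Real.exp 10)
  obtain ⟨d3, hd3⟩ := exists_nat_gt (5 / (1 - s))
  refine ⟨max (max d1 d2) (max d3 2556), fun d hd => ?_⟩
  have hdA := hd1 d ((le_max_left _ _).trans ((le_max_left _ _).trans hd))
  have hdB : Real.exp 10 < d := hd2.trans_le (by exact_mod_cast (le_max_right _ _).trans ((le_max_left _ _).trans hd))
  have hdC : 5 / (1 - s) < d := hd3.trans_le (by exact_mod_cast (le_max_left _ _).trans ((le_max_right _ _).trans hd))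
  have hdD : 2556 ≤ d := (le_max_right _ _).trans ((le_max_right _ _).trans hd)
  have hdR : (2556 : ℝ) ≤ d := by exact_mod_cast hdD
  have hd0 : (0 : ℝ) < d := by linarith
  have hNle : (⌊(1 / s) ^ d / (d : ℝ) ^ 2⌋₊ : ℝ) ≤ (1 / s) ^ d / (d : ℝ) ^ 2 := Nat.floor_le (by positivity)
  have hNlt := Nat.lt_floor_add_one ((1 / s) ^ d / (d : ℝ) ^ 2)
  obtain ⟨hX, hY⟩ := N4_small s d d ⌊(1 / s) ^ d / (d : ℝ) ^ 2⌋₊ rfl hs12 hsh hdB hNle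
  have heps5 : 5 * (1 / (d : ℝ)) ≤ 1 / 2 := by
    rw [mul_one_div, div_le_iff₀ hd0]
    linarith
  have hepos : 0 < 1 / (d : ℝ) := by positivity
  refine ⟨1 / d, ⌊(1 / s) ^ d / (d : ℝ) ^ 2⌋₊, 9 * d ^ 2, 3 * d ^ 3, 3 * d * 8 ^ d, 8 * d ^ 2, hepos, ?_, ?_, heps5,
    by omega, ?_, ?_, ?_, ?_, ?_, ?_, ?_⟩
  · rw [div_le_one hd0]
    linarith
  · rw [div_lt_iff₀ (by linarith)] at hdC
    have : 5 * (1 / (d : ℝ)) ≤ 1 - s := by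
      rw [mul_one_div, div_le_iff₀ hd0]
      linarith
    linarith
  · push_cast
    have : 3 * (d : ℝ) ^ 2 / (1 / (d : ℝ)) = 3 * (d : ℝ) ^ 3 := by
      field_simp
    exact this.le
  · push_cast
    have : 3 * (d : ℝ) / (1 / 8 : ℝ) ^ d = 3 * d * 8 ^ d := by
      rw [one_div, inv_pow, div_inv_eq_mul]
    exact this.le
  · have h1 : 1 / ((1 / 8 : ℝ) ^ d * (1 / d)) = 8 ^ d * d := by
      rw [one_div, one_div, one_div, inv_pow, mul_inv, inv_inv, inv_inv]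
    have h2 : (2 : ℝ) ≤ (1 + 1 / (d : ℝ)) ^ d := by
      have h3 : 1 + (d : ℝ) * (1 / d) ≤ (1 + 1 / (d : ℝ)) ^ d := one_add_mul_le_pow (by linarith) d
      have h4 : (d : ℝ) * (1 / d) = 1 := by field_simp
      linarith
    have h3 : 8 * d ^ 2 = d * (8 * d) := by ring
    rw [h1, h3, pow_mul]
    calc (8 : ℝ) ^ d * d ≤ 8 ^ d * 2 ^ d := by
          refine mul_le_mul_of_nonneg_left ?_ (by positivity)
          exact_mod_cast Nat.lt_two_pow_self.le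
      _ ≤ 8 ^ d * 32 ^ d := by
          refine mul_le_mul_of_nonneg_left (pow_le_pow_left₀ (by norm_num) (by norm_num) d) (by positivity)
      _ = 2 ^ (8 * d) := by
          rw [← mul_pow, pow_mul]
          norm_num
      _ ≤ ((1 + 1 / (d : ℝ)) ^ d) ^ (8 * d) := pow_le_pow_left₀ (by norm_num) h2 _
  · have h1 : (54 : ℝ) ≤ 2 ^ d := by
      calc (54 : ℝ) ≤ 2 ^ 6 := by norm_num
        _ ≤ 2 ^ d := pow_le_pow_right₀ (by norm_num) (by omega)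
    have h2 : (54 : ℝ) * 2 ^ d * (1 / 8 : ℝ) ^ d = 54 * (1 / 4 : ℝ) ^ d := by
      rw [mul_assoc, ← mul_pow]
      norm_num
    have h3 : (2 : ℝ) ^ d * (1 / 4 : ℝ) ^ d = (1 / 2 : ℝ) ^ d := by
      rw [← mul_pow]
      norm_num
    rw [h2]
    calc 54 * (1 / 4 : ℝ) ^ d ≤ 2 ^ d * (1 / 4 : ℝ) ^ d := mul_le_mul_of_nonneg_right h1 (by positivity)
      _ = (1 / 2 : ℝ) ^ d := h3
      _ ≤ (s + 5 * (1 / d)) ^ d := pow_le_pow_left₀ (by norm_num) (by linarith) d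
  · exact N4_sum d (by omega) _ _ (by positivity) (by positivity) hX hY
  · have h1 : (1 : ℝ) ≤ (1 / s) ^ d / d ^ 2 / 2 := by
      rw [div_div, le_div_iff₀ (by positivity)]
      linarith
    have h2 : (1 / s) ^ d / (d : ℝ) ^ 7 * (2 * (7 * (((8 * d ^ 2 : ℕ) : ℝ) + 2) + 1) * ((9 * d ^ 2 : ℕ) : ℝ)) ≤
        (1 / s) ^ d / d ^ 2 / 2 := by
      push_cast
      have hp : 0 < (1 / s) ^ d := by positivity
      have h3 : 2 * (7 * (8 * (d : ℝ) ^ 2 + 2) + 1) * (9 * (d : ℝ) ^ 2) ≤ (d : ℝ) ^ 5 / 2 := by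
        have h4 : (1 : ℝ) ≤ (d : ℝ) ^ 2 := one_le_pow₀ (by linarith)
        have h5 : 2 * (7 * (8 * (d : ℝ) ^ 2 + 2) + 1) * (9 * (d : ℝ) ^ 2) ≤ 1278 * (d : ℝ) ^ 4 := by
          nlinarith [mul_le_mul_of_nonneg_left h4 (sq_nonneg (d : ℝ))]
        have h6 : 1278 * (d : ℝ) ^ 4 ≤ (d : ℝ) / 2 * (d : ℝ) ^ 4 :=
          mul_le_mul_of_nonneg_right (by linarith) (by positivity)
        have h7 : (d : ℝ) / 2 * (d : ℝ) ^ 4 = (d : ℝ) ^ 5 / 2 := by ring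
        linarith
      calc (1 / s) ^ d / (d : ℝ) ^ 7 * (2 * (7 * (8 * (d : ℝ) ^ 2 + 2) + 1) * (9 * (d : ℝ) ^ 2)) ≤
          (1 / s) ^ d / (d : ℝ) ^ 7 * ((d : ℝ) ^ 5 / 2) := mul_le_mul_of_nonneg_left h3 (by positivity)
        _ = (1 / s) ^ d / d ^ 2 / 2 := by
          field_simp
    linarith
  · calc (1 / 8 : ℝ) ^ d ≤ (1 / 8 : ℝ) ^ 1 := pow_le_pow_of_le_one (by norm_num) (by norm_num) (by omega)
      _ ≤ 1 / 4 := by norm_num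

end Newton54G
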