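import Pool.Agent.Lib.MP_54d165_co.GR.Q3

/-! # Row n54-Q4: covering a shell by balls -/

namespace Newton54G

open scoped RealInnerProductSpace ENNReal
open MeasureTheory Metric

theorem Q4_vol {d : ℕ} (x : Eu d) {r : ℝ} (hr : 0 ≤ r) :
    volume (closedBall x r) = ENNReal.ofReal (r ^ d) * volume (closedBall (0 : Eu d) 1) := by
  rw [Measure.addHaar_closedBall' volume x hr, finrank_euclideanSpace_fin]

theorem Q4_p {d : ℕ} {s τ a R : ℝ} (hτ : 0 < τ) (ha : 0 < a) (hR : 0 < R)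
    (h1 : (1 - s ^ 2 + τ) ^ 2 + a ^ 2 ≤ R ^ 2) :
    0 ≤ (a / R) ^ d / (a / τ + 2) ∧ (a / R) ^ d / (a / τ + 2) ≤ 1 := by
  have haR : a ≤ R := by
    have h2 : a ^ 2 ≤ R ^ 2 := by
      have := sq_nonneg (1 - s ^ 2 + τ)
      linarith
    exact le_of_sq_le_sq h2 hR.le
  have h3 : 0 < a / τ := div_pos ha hτ
  refine ⟨by positivity, ?_⟩
  rw [div_le_one (by positivity)]
  have h4 : (a / R) ^ d ≤ 1 := pow_le_one₀ (by positivity) ((div_le_one hR).2 haR)
  linarith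

theorem Q4_shell {d : ℕ} (s δ : ℝ) : MeasurableSet {q : Eu d | s - δ ≤ ‖q‖ ∧ ‖q‖ ≤ 1 + δ} := by
  have h1 : IsClosed {q : Eu d | s - δ ≤ ‖q‖ ∧ ‖q‖ ≤ 1 + δ} :=
    (isClosed_le continuous_const continuous_norm).inter
      (isClosed_le continuous_norm continuous_const)
  exact h1.measurableSet

/-- Model: `exists_points` in U2.lean. Induction on `n` with `ball_step` for the uncovered part. `(a / R) ^ d / (a / τ + 2) ≤ 1` since `a ≤ R` by `h1`. The shell is contained in the ball of radius `1 + δ`. -/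
theorem ball_points {d : ℕ} {s δ τ a R : ℝ} (hs : 1 / 2 ≤ s) (hs1 : s < 1) (hδ : 0 < δ) (hδs : 2 * δ < s) (hτ : 0 < τ)
    (ha : 0 < a) (hR : 0 < R) (h1 : (1 - s ^ 2 + τ) ^ 2 + a ^ 2 ≤ R ^ 2)
    (h2 : (s ^ 2 + δ + τ) ^ 2 + a ^ 2 ≤ (s - 2 * δ) ^ 2) (n : ℕ) :
    ∃ x : Fin n → Eu d, volume ({q : Eu d | s - δ ≤ ‖q‖ ∧ ‖q‖ ≤ 1 + δ} \ ⋃ i, closedBall (x i) (s - 2 * δ)) ≤
      ENNReal.ofReal ((1 - (a / R) ^ d / (a / τ + 2)) ^ n * (1 + δ) ^ d) * volume (closedBall (0 : Eu d) 1) := by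
  obtain ⟨hp0, hp1⟩ := Q4_p (d := d) hτ ha hR h1
  have hsh : {q : Eu d | s - δ ≤ ‖q‖ ∧ ‖q‖ ≤ 1 + δ} ⊆ closedBall (0 : Eu d) (1 + δ) := by
    intro q hq
    rw [mem_closedBall_zero_iff]
    exact hq.2
  have hshv : volume {q : Eu d | s - δ ≤ ‖q‖ ∧ ‖q‖ ≤ 1 + δ} ≤
      ENNReal.ofReal ((1 + δ) ^ d) * volume (closedBall (0 : Eu d) 1) := by
    rw [← Q4_vol (0 : Eu d) (by linarith : (0 : ℝ) ≤ 1 + δ)]
    exact measure_mono hsh
  induction n with
  | zero =>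
    refine ⟨fun i => Fin.elim0 i, ?_⟩
    rw [pow_zero, one_mul]
    exact (measure_mono Set.sdiff_subset).trans hshv
  | succ n ih =>
    obtain ⟨x, hx⟩ := ih
    set V : Set (Eu d) := {q : Eu d | s - δ ≤ ‖q‖ ∧ ‖q‖ ≤ 1 + δ} \
      ⋃ i, closedBall (x i) (s - 2 * δ) with hVdef
    have hVm : MeasurableSet V := by
      apply MeasurableSet.diff
      · exact Q4_shell s δ
      · exact MeasurableSet.iUnion fun i => isClosed_closedBall.measurableSet
    have hVC : V ⊆ {q : Eu d | s - δ ≤ ‖q‖ ∧ ‖q‖ ≤ 1 + δ} := Set.sdiff_subset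
    obtain ⟨x', hx'⟩ := ball_step hs hs1 hδ hδs hτ ha hR h1 h2 hVm hVC
    have hAm : MeasurableSet (closedBall x' (s - 2 * δ)) := isClosed_closedBall.measurableSet
    have hVfin : volume V ≠ ∞ := by
      apply ne_top_of_le_ne_top _ (measure_mono (hVC.trans hsh))
      exact (isCompact_closedBall (0 : Eu d) (1 + δ)).measure_lt_top.ne
    refine ⟨Fin.snoc x x', ?_⟩
    have hsub : {q : Eu d | s - δ ≤ ‖q‖ ∧ ‖q‖ ≤ 1 + δ} \
        ⋃ i, closedBall ((Fin.snoc x x' : Fin (n + 1) → Eu d) i) (s - 2 * δ) ⊆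
        V \ closedBall x' (s - 2 * δ) := by
      rintro y ⟨hy1, hy2⟩
      simp only [Set.mem_iUnion, not_exists] at hy2
      refine ⟨⟨hy1, ?_⟩, ?_⟩
      · simp only [Set.mem_iUnion, not_exists]
        intro i hi'
        apply hy2 (Fin.castSucc i)
        simpa using hi'
      · intro hy3
        apply hy2 (Fin.last n)
        simpa using hy3
    set p : ℝ := (a / R) ^ d / (a / τ + 2) with hp
    have hdiff : volume (V \ closedBall x' (s - 2 * δ)) ≤ ENNReal.ofReal (1 - p) * volume V := by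
      have g1 : volume (V ∩ closedBall x' (s - 2 * δ)) + volume (V \ closedBall x' (s - 2 * δ)) =
          volume V := measure_inter_add_sdiff V hAm
      have g2 : ENNReal.ofReal p * volume V + volume (V \ closedBall x' (s - 2 * δ)) ≤
          ENNReal.ofReal p * volume V + ENNReal.ofReal (1 - p) * volume V := by
        rw [← add_mul, ← ENNReal.ofReal_add hp0 (by linarith)]
        have g3 : p + (1 - p) = 1 := by ring
        rw [g3, ENNReal.ofReal_one, one_mul]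
        calc ENNReal.ofReal p * volume V + volume (V \ closedBall x' (s - 2 * δ))
            ≤ volume (V ∩ closedBall x' (s - 2 * δ)) + volume (V \ closedBall x' (s - 2 * δ)) := by
              gcongr
          _ = volume V := g1
      have g4 : ENNReal.ofReal p * volume V ≠ ∞ := ENNReal.mul_ne_top ENNReal.ofReal_ne_top hVfin
      exact (ENNReal.add_le_add_iff_left g4).1 g2
    calc volume ({q : Eu d | s - δ ≤ ‖q‖ ∧ ‖q‖ ≤ 1 + δ} \
          ⋃ i, closedBall ((Fin.snoc x x' : Fin (n + 1) → Eu d) i) (s - 2 * δ))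
        ≤ volume (V \ closedBall x' (s - 2 * δ)) := measure_mono hsub
      _ ≤ ENNReal.ofReal (1 - p) * volume V := hdiff
      _ ≤ ENNReal.ofReal (1 - p) * (ENNReal.ofReal ((1 - p) ^ n * (1 + δ) ^ d) *
            volume (closedBall (0 : Eu d) 1)) := by
          gcongr
      _ = ENNReal.ofReal ((1 - p) ^ (n + 1) * (1 + δ) ^ d) * volume (closedBall (0 : Eu d) 1) := by
          rw [← mul_assoc, ← ENNReal.ofReal_mul (by linarith)]
          have g5 : (1 - p) * ((1 - p) ^ n * (1 + δ) ^ d) = (1 - p) ^ (n + 1) * (1 + δ) ^ d := by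
            ring
          rw [g5]

/-- Model: `exists_cover` in U2.lean. If `p` with `s ≤ ‖p‖ ≤ 1` has `‖p - x i‖ > s - δ` for all `i`, then `closedBall p δ` is contained in the shell and disjoint from all `closedBall (x i) (s - 2 δ)`, so its volume `δ ^ d vol B` is at most the
uncovered volume: contradiction. -/
theorem ball_cover {d : ℕ} {s δ τ a R : ℝ} (hs : 1 / 2 ≤ s) (hs1 : s < 1) (hδ : 0 < δ) (hδs : 2 * δ < s) (hτ : 0 < τ)
    (ha : 0 < a) (hR : 0 < R) (h1 : (1 - s ^ 2 + τ) ^ 2 + a ^ 2 ≤ R ^ 2)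
    (h2 : (s ^ 2 + δ + τ) ^ 2 + a ^ 2 ≤ (s - 2 * δ) ^ 2) (n : ℕ)
    (hn : (1 - (a / R) ^ d / (a / τ + 2)) ^ n * (1 + δ) ^ d < δ ^ d) :
    ∃ x : Fin n → Eu d, ∀ p, s ≤ ‖p‖ → ‖p‖ ≤ 1 → ∃ i, ‖p - x i‖ ≤ s - δ := by
  obtain ⟨x, hx⟩ := ball_points (d := d) hs hs1 hδ hδs hτ ha hR h1 h2 n
  refine ⟨x, ?_⟩
  intro p hp1 hp2
  by_contra hcon
  push Not at hcon
  have hpos : 0 < volume (closedBall (0 : Eu d) 1) := measure_closedBall_pos volume _ one_pos
  have hfin : volume (closedBall (0 : Eu d) 1) ≠ ∞ :=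
    (isCompact_closedBall (0 : Eu d) 1).measure_lt_top.ne
  have hsub : closedBall p δ ⊆ {q : Eu d | s - δ ≤ ‖q‖ ∧ ‖q‖ ≤ 1 + δ} \
      ⋃ i, closedBall (x i) (s - 2 * δ) := by
    intro y hy
    rw [mem_closedBall, dist_eq_norm] at hy
    refine ⟨⟨?_, ?_⟩, ?_⟩
    · have g1 : ‖p‖ ≤ ‖y‖ + ‖y - p‖ := by
        calc ‖p‖ = ‖y - (y - p)‖ := by congr 1; abel
          _ ≤ ‖y‖ + ‖y - p‖ := norm_sub_le _ _
      linarith
    · have g1 : ‖y‖ ≤ ‖p‖ + ‖y - p‖ := by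
        calc ‖y‖ = ‖p + (y - p)‖ := by congr 1; abel
          _ ≤ ‖p‖ + ‖y - p‖ := norm_add_le _ _
      linarith
    · simp only [Set.mem_iUnion, not_exists]
      intro i hmem
      rw [mem_closedBall, dist_eq_norm] at hmem
      have g1 := hcon i
      have g2 : ‖p - x i‖ ≤ ‖y - x i‖ + ‖y - p‖ := by
        calc ‖p - x i‖ = ‖(y - x i) - (y - p)‖ := by congr 1; abel
          _ ≤ ‖y - x i‖ + ‖y - p‖ := norm_sub_le _ _
      linarith
  have g2 : ENNReal.ofReal (δ ^ d) * volume (closedBall (0 : Eu d) 1) ≤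
      ENNReal.ofReal ((1 - (a / R) ^ d / (a / τ + 2)) ^ n * (1 + δ) ^ d) *
        volume (closedBall (0 : Eu d) 1) := by
    rw [← Q4_vol p hδ.le]
    exact (measure_mono hsub).trans hx
  have g3 : ENNReal.ofReal (δ ^ d) ≤
      ENNReal.ofReal ((1 - (a / R) ^ d / (a / τ + 2)) ^ n * (1 + δ) ^ d) :=
    (ENNReal.mul_le_mul_iff_left hpos.ne' hfin).1 g2
  have g4 : ENNReal.ofReal ((1 - (a / R) ^ d / (a / τ + 2)) ^ n * (1 + δ) ^ d) <
      ENNReal.ofReal (δ ^ d) := (ENNReal.ofReal_lt_ofReal_iff (by positivity)).2 hn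
  exact absurd g3 (not_le.2 g4)

end Newton54G
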