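import Pool.Agent.Lib.MP_54d165_co.GR.Defs2

/-! # Row n54-Q6: copies of a body near the ball -/

namespace Newton54G

open scoped RealInnerProductSpace ENNReal
open MeasureTheory Metric

/-- The copies: `C` itself and the translates `x i + C`; the open set: the union of the open balls of radius `s` about `0` and about the `x i`. -/
theorem near_ball_cover {d n : ℕ} {s δ : ℝ} (hδ : 0 < δ) (x : Fin n → Eu d)
    (hx : ∀ p, s ≤ ‖p‖ → ‖p‖ ≤ 1 → ∃ i, ‖p - x i‖ ≤ s - δ) {C : Set (Eu d)} (h1 : closedBall 0 s ⊆ C)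
    (h2 : C ⊆ closedBall 0 1) :
    ∃ (g : Fin (n + 1) → (Eu d ≃ᵢ Eu d)) (U : Set (Eu d)), IsOpen U ∧ C ⊆ U ∧ U ⊆ ⋃ i, g i '' C := by
  refine ⟨Fin.cons (IsometryEquiv.refl (Eu d)) (fun i => IsometryEquiv.addLeft (x i)),
    ball 0 s ∪ ⋃ i, ball (x i) s, isOpen_ball.union (isOpen_iUnion fun i => isOpen_ball), ?_, ?_⟩
  · intro p hp
    have hp1 : ‖p‖ ≤ 1 := by
      have h3 := h2 hp
      rwa [mem_closedBall_zero_iff] at h3
    by_cases hs : ‖p‖ < s
    · exact Or.inl (by rwa [mem_ball_zero_iff])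
    · obtain ⟨i, hi⟩ := hx p (not_lt.1 hs) hp1
      refine Or.inr (Set.mem_iUnion.2 ⟨i, ?_⟩)
      rw [mem_ball, dist_eq_norm]
      linarith
  · rintro p (hp | hp)
    · rw [mem_ball_zero_iff] at hp
      refine Set.mem_iUnion.2 ⟨0, p, h1 (by rw [mem_closedBall_zero_iff]; exact hp.le), ?_⟩
      rw [Fin.cons_zero]
      rfl
    · obtain ⟨i, hi⟩ := Set.mem_iUnion.1 hp
      rw [mem_ball, dist_eq_norm] at hi
      refine Set.mem_iUnion.2 ⟨i.succ, p - x i,
        h1 (by rw [mem_closedBall_zero_iff]; exact hi.le), ?_⟩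
      rw [Fin.cons_succ]
      show x i + (p - x i) = p
      abel

end Newton54G
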