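import Mathlib

/-! # Row n54-Q8: numbers for the covering of a shell, polynomial loss -/

namespace Newton54G

theorem Q8_log (d : ℝ) (hd : 1100 ≤ d) : 2 * d * Real.log (d ^ 2 + 1) * (d ^ 2 + 2) + 2 ≤ d ^ 4 := by
  have h1 : Real.log (d ^ 2 + 1) ≤ 4 * √(d + 1) := by
    have h2 : Real.log (d ^ 2 + 1) ≤ Real.log ((√(d + 1)) ^ 4) := by
      refine Real.log_le_log (by positivity) ?_
      have h3 : (√(d + 1)) ^ 4 = (d + 1) ^ 2 := by
        have : (√(d + 1)) ^ 2 = d + 1 := Real.sq_sqrt (by linarith)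
        calc (√(d + 1)) ^ 4 = ((√(d + 1)) ^ 2) ^ 2 := by ring
          _ = (d + 1) ^ 2 := by rw [this]
      rw [h3]
      nlinarith
    rw [Real.log_pow] at h2
    have h4 : Real.log √(d + 1) ≤ √(d + 1) - 1 := Real.log_le_sub_one_of_pos (Real.sqrt_pos.2 (by linarith))
    push_cast at h2
    linarith
  have h5 : √(d + 1) ≤ d / 32 := by
    rw [Real.sqrt_le_left (by linarith)]
    nlinarith
  have h6 : Real.log (d ^ 2 + 1) ≤ d / 8 := by linarith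
  have h7 : 2 * d * Real.log (d ^ 2 + 1) * (d ^ 2 + 2) ≤ 2 * d * (d / 8) * (d ^ 2 + 2) := by gcongr
  have h8 : 2 * d * (d / 8) * (d ^ 2 + 2) + 2 ≤ d ^ 4 := by
    have h9 : (1 : ℝ) ≤ d ^ 2 := by nlinarith
    nlinarith [mul_le_mul_of_nonneg_left h9 (sq_nonneg d)]
  linarith

/-- As `numbers_ball` in Q7.lean (model), with `δ = τ = 1 / d ^ 2` depending on `d`: `a = √((s - 2 δ) ^ 2 - (s ^ 2 + δ + τ) ^ 2)`, `R = √((1 - s ^ 2 + τ) ^ 2 + a ^ 2)`, for large `d`. `a ^ 2 ≥ s ^ 2 - s ^ 4 - 8 δ` and `R ^ 2 ≤ 1 - s ^ 2 + 4 δ`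
or so, hence `(a / R) ^ 2 ≥ s ^ 2 (1 - K δ)`, `K` depending on `s`, and `(a / R) ^ d ≥ s ^ d (1 - K / d ^ 2) ^ d ≥ s ^ d / 2` for large `d` (Bernoulli). `a / τ + 2 ≤ d ^ 2 + 2`. With `q = (a / R) ^ d / (a / τ + 2) ≥ s ^ d / (2 (d ^ 2 + 2))` and
`n = ⌊d log ((1 + δ) / δ) / q⌋₊ + 1` one has `(1 - q) ^ n ≤ exp (- q n) < (δ / (1 + δ)) ^ d`, and `n + 1 ≤ (1 / s) ^ d 2 (d ^ 2 + 2) d log (1 + d ^ 2) + 2 ≤ (d : ℝ) ^ 4 (1 / s) ^ d` for large `d` (`log (1 + d ^ 2) ≤ K' √d` or `log d / d → 0`). -/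
theorem numbers_ball_poly (s : ℝ) (hs : 1 / 2 ≤ s) (hs1 : s < 1) : ∃ d0 : ℕ, ∀ d : ℕ, d0 ≤ d →
    ∃ δ τ a R : ℝ, 0 < δ ∧ 2 * δ < s ∧ 0 < τ ∧ 0 < a ∧ 0 < R ∧ (1 - s ^ 2 + τ) ^ 2 + a ^ 2 ≤ R ^ 2 ∧
      (s ^ 2 + δ + τ) ^ 2 + a ^ 2 ≤ (s - 2 * δ) ^ 2 ∧ ∃ n : ℕ,
        (1 - (a / R) ^ d / (a / τ + 2)) ^ n * (1 + δ) ^ d < δ ^ d ∧ (n : ℝ) + 1 ≤ (d : ℝ) ^ 4 * (1 / s) ^ d := by
  have hs0 : 0 < s := by linarith
  have hs3 : 0 < s * (1 - s) := mul_pos hs0 (by linarith)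
  have hs2 : 0 < 1 - s ^ 2 := by nlinarith
  obtain ⟨d1, hd1⟩ := exists_nat_gt (16 / (3 * (s * (1 - s))))
  refine ⟨max d1 1100, fun d hd => ?_⟩
  have hdA : (16 / (3 * (s * (1 - s)))) < d := hd1.trans_le (by exact_mod_cast (le_max_left _ _).trans hd)
  have hdB : (1100 : ℝ) ≤ d := by exact_mod_cast (le_max_right _ _).trans hd
  have hdpos : (0 : ℝ) < d := by linarith
  obtain ⟨x, hx⟩ : ∃ x : ℝ, x = 1 / (d : ℝ) ^ 2 := ⟨_, rfl⟩
  have hx0 : 0 < x := by rw [hx]; positivity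
  have hxd : x * d ^ 2 = 1 := by rw [hx]; field_simp
  have hx1 : x ≤ 1 := by nlinarith
  -- `16 x d < 3 s (1 - s)`
  have hk : 16 * (x * d) < 3 * (s * (1 - s)) := by
    rw [div_lt_iff₀ (by positivity)] at hdA
    have h1 : x * d = 1 / d := by rw [hx]; field_simp
    rw [h1, mul_one_div, div_lt_iff₀ hdpos]
    linarith
  have hk2 : 4 * x < s * (1 - s) := by
    have : x ≤ x * d := le_mul_of_one_le_right hx0.le (by linarith)
    nlinarith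
  obtain ⟨A, hA⟩ : ∃ A, A = (s - 2 * x) ^ 2 - (s ^ 2 + x + x) ^ 2 := ⟨_, rfl⟩
  have hA' : A = s ^ 2 * (1 - s ^ 2) - 4 * s * (1 + s) * x := by rw [hA]; ring
  have hA0 : 0 < A := by
    have : A = (s * (1 - s) - 4 * x) * (s + s ^ 2) := by rw [hA]; ring
    rw [this]
    exact mul_pos (by linarith) (by positivity)
  have hA1 : A ≤ 1 := by
    rw [hA']
    have h1 : s ^ 2 * (1 - s ^ 2) ≤ 1 := by nlinarith [sq_nonneg s, sq_nonneg (s ^ 2 - 1 / 2)]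
    have h2 : 0 ≤ 4 * s * (1 + s) * x := by positivity
    linarith
  obtain ⟨a, ha⟩ : ∃ a, a = √A := ⟨_, rfl⟩
  have ha0 : 0 < a := by rw [ha]; exact Real.sqrt_pos.2 hA0
  have ha2 : a ^ 2 = A := by rw [ha]; exact Real.sq_sqrt hA0.le
  have ha1 : a ≤ 1 := by
    rw [ha]
    exact Real.sqrt_le_one.2 hA1
  obtain ⟨R, hR⟩ : ∃ R, R = √((1 - s ^ 2 + x) ^ 2 + A) := ⟨_, rfl⟩
  have hB0 : 0 < (1 - s ^ 2 + x) ^ 2 + A := by positivity
  have hR0 : 0 < R := by rw [hR]; exact Real.sqrt_pos.2 hB0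
  have hR2 : R ^ 2 = (1 - s ^ 2 + x) ^ 2 + A := by rw [hR]; exact Real.sq_sqrt hB0.le
  have hR3 : R ^ 2 ≤ 1 - s ^ 2 := by
    have h1 : R ^ 2 = (1 - s ^ 2) + 2 * x * (1 + s) * (1 - 3 * s) + x ^ 2 := by rw [hR2, hA']; ring
    have h2 : 2 * x * (1 + s) * (1 - 3 * s) ≤ - x := by
      have h3 : (1 + s) * (3 * s - 1) ≥ 1 / 2 := by nlinarith
      nlinarith [mul_le_mul_of_nonneg_left h3.le hx0.le]
    nlinarith
  have haR : a < R := by
    have h1 : 0 < (1 - s ^ 2 + x) ^ 2 := by positivity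
    refine lt_of_pow_lt_pow_left₀ 2 hR0.le ?_
    rw [ha2, hR2]
    linarith
  obtain ⟨ρ, hρ⟩ : ∃ ρ, ρ = a / R := ⟨_, rfl⟩
  have hρ0 : 0 < ρ := by rw [hρ]; positivity
  have hρ1 : ρ ≤ 1 := by
    rw [hρ, div_le_one hR0]
    exact haR.le
  -- `ρ ^ 2 ≥ s ^ 2 (1 - 4 x / (s (1 - s)))`
  obtain ⟨κ, hκ⟩ : ∃ κ, κ = 4 * x / (s * (1 - s)) := ⟨_, rfl⟩
  have hκ0 : 0 < κ := by rw [hκ]; positivity
  have hκ1 : κ < 1 := by rw [hκ, div_lt_one hs3]; exact hk2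
  have hκd : κ * d ≤ 3 / 4 := by
    rw [hκ, div_mul_eq_mul_div, div_le_iff₀ hs3]
    nlinarith
  have hρ2 : s ^ 2 * (1 - κ) ≤ ρ ^ 2 := by
    rw [hρ, div_pow, le_div_iff₀ (by positivity)]
    have h1 : s ^ 2 * (1 - κ) * R ^ 2 ≤ s ^ 2 * (1 - κ) * (1 - s ^ 2) := by
      refine mul_le_mul_of_nonneg_left hR3 ?_
      have : 0 < 1 - κ := by linarith
      positivity
    refine h1.trans (le_of_eq ?_)
    rw [ha2, hA', hκ]
    have h2 : (1 - s) ≠ 0 := by linarith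
    field_simp
    ring
  have hρd : s ^ d / 2 ≤ ρ ^ d := by
    refine le_of_sq_le_sq ?_ (by positivity)
    have h1 : (ρ ^ d) ^ 2 = (ρ ^ 2) ^ d := by rw [← pow_mul, ← pow_mul, mul_comm]
    have h2 : (s ^ 2 * (1 - κ)) ^ d ≤ (ρ ^ 2) ^ d := by
      refine pow_le_pow_left₀ ?_ hρ2 d
      have : 0 < 1 - κ := by linarith
      positivity
    have h3 : 1 + (d : ℝ) * (-κ) ≤ (1 + -κ) ^ d := one_add_mul_le_pow (by linarith) d
    have h4 : 1 / 4 ≤ (1 - κ) ^ d := by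
      rw [sub_eq_add_neg]
      refine le_trans ?_ h3
      nlinarith
    have h5 : (s ^ d / 2) ^ 2 = (s ^ 2) ^ d * (1 / 4) := by
      rw [div_pow, ← pow_mul, ← pow_mul, mul_comm d 2]
      ring
    rw [h1, h5]
    refine le_trans ?_ h2
    rw [mul_pow]
    exact mul_le_mul_of_nonneg_left h4 (by positivity)
  obtain ⟨B, hB⟩ : ∃ B, B = a / x + 2 := ⟨_, rfl⟩
  have hB2 : 2 ≤ B := by
    rw [hB]
    have : 0 < a / x := by positivity
    linarith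
  have hBd : B ≤ d ^ 2 + 2 := by
    rw [hB]
    have : a / x ≤ d ^ 2 := by
      rw [div_le_iff₀ hx0, mul_comm, hxd]
      exact ha1
    linarith
  have hB0' : 0 < B := by linarith
  obtain ⟨Lg, hLg⟩ : ∃ Lg, Lg = Real.log ((1 + x) / x) := ⟨_, rfl⟩
  have hLg0 : 0 ≤ Lg := by
    rw [hLg]
    refine Real.log_nonneg ?_
    rw [le_div_iff₀ hx0]
    linarith
  have hLgd : Lg = Real.log ((d : ℝ) ^ 2 + 1) := by
    rw [hLg]
    congr 1
    rw [hx]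
    field_simp
  refine ⟨x, x, a, R, hx0, ?_, hx0, ha0, hR0, ?_, ?_, ⌊d * Lg / (ρ ^ d / B)⌋₊ + 1, ?_, ?_⟩
  · nlinarith
  · rw [ha2, hR2]
  · rw [ha2, hA]
    linarith
  · rw [← hρ, ← hB]
    have hq0 : 0 < ρ ^ d / B := by positivity
    have hq1 : ρ ^ d / B ≤ 1 := by
      rw [div_le_one hB0']
      exact (pow_le_one₀ hρ0.le hρ1).trans (by linarith)
    obtain ⟨q, hq⟩ : ∃ q, q = ρ ^ d / B := ⟨_, rfl⟩
    rw [← hq] at hq0 hq1 ⊢
    obtain ⟨n, hn⟩ : ∃ n : ℕ, n = ⌊d * Lg / q⌋₊ + 1 := ⟨_, rfl⟩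
    have hn1 : d * Lg < q * n := by
      have h1 := Nat.lt_floor_add_one (d * Lg / q)
      rw [div_lt_iff₀ hq0] at h1
      rw [hn]
      push_cast
      linarith
    rw [← hn]
    have h1 : (1 - q) ^ n ≤ Real.exp (-(q * n)) := by
      have h2 : 1 - q ≤ Real.exp (-q) := by
        have := Real.add_one_le_exp (-q)
        linarith
      calc (1 - q) ^ n ≤ (Real.exp (-q)) ^ n := pow_le_pow_left₀ (by linarith) h2 n
        _ = Real.exp (-(q * n)) := by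
          rw [← Real.exp_nat_mul]
          congr 1
          ring
    have h3 : Real.exp (-(q * n)) < Real.exp (-(d * Lg)) := Real.exp_lt_exp.2 (by linarith)
    have h4 : Real.exp (-(d * Lg)) * (1 + x) ^ d = x ^ d := by
      rw [Real.exp_neg, Real.exp_nat_mul, hLg, Real.exp_log (by positivity), div_pow, inv_div,
        div_mul_cancel₀]
      positivity
    rw [← h4]
    exact mul_lt_mul_of_pos_right (lt_of_le_of_lt h1 h3) (by positivity)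
  · have hp0 : 0 < ρ ^ d := by positivity
    have hsd : 0 < s ^ d := by positivity
    have hsd1 : s ^ d ≤ 1 := pow_le_one₀ hs0.le hs1.le
    have h2 : (⌊d * Lg / (ρ ^ d / B)⌋₊ : ℝ) ≤ d * Lg / (ρ ^ d / B) := Nat.floor_le (by positivity)
    have h3 : d * Lg / (ρ ^ d / B) = d * (Lg * B) / ρ ^ d := by
      field_simp
    have h4 : d * (Lg * B) / ρ ^ d ≤ 2 * d * Lg * (d ^ 2 + 2) / s ^ d := by
      rw [div_le_div_iff₀ hp0 hsd]
      have h5 : d * (Lg * B) ≤ d * Lg * (d ^ 2 + 2) := by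
        rw [← mul_assoc]
        exact mul_le_mul_of_nonneg_left hBd (by positivity)
      have h6 : s ^ d ≤ 2 * ρ ^ d := by linarith
      calc d * (Lg * B) * s ^ d ≤ (d * Lg * (d ^ 2 + 2)) * (2 * ρ ^ d) := by
            apply mul_le_mul h5 h6 hsd.le (by positivity)
        _ = 2 * d * Lg * (d ^ 2 + 2) * ρ ^ d := by ring
    have h5 : (2 : ℝ) ≤ 2 / s ^ d := by
      rw [le_div_iff₀ hsd]
      linarith
    have h6 := Q8_log d hdB
    have h7 : (2 * d * Lg * (d ^ 2 + 2) + 2) / s ^ d ≤ (d : ℝ) ^ 4 / s ^ d := by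
      rw [hLgd]
      exact div_le_div_of_nonneg_right h6 hsd.le
    rw [add_div] at h7
    have h8 : (d : ℝ) ^ 4 * (1 / s) ^ d = (d : ℝ) ^ 4 / s ^ d := by
      rw [one_div, inv_pow, div_eq_mul_inv]
    rw [h8]
    push_cast
    linarith

end Newton54G
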