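import Mathlib

/-! # Row GR-N1: the union bound beats the size of the nets -/

namespace Newton54G

/-- For `d ≥ 1`: `2 ⌈3 d ^ 2 / eps⌉ + 1 ≤ K d ^ 2` and `2 ⌈3 d 8 ^ d⌉ + 1 ≤ 9 d 8 ^ d ≤ 9 * 9 ^ d` or so (`K = 6 / eps + 3`), so both powers are at most `exp (K' d ^ 2 (log d + 1))`, and `(θ ^ d) ^ (d ^ 2) = exp (- |log θ| d ^ 3)`.
Convenient: `(K d ^ 2) ^ (d ^ 2 + d) ≤ ((K d ^ 2) ^ 2) ^ (d ^ 2)` and `(81 * 9 ^ d) ^ (d + 1) ≤ (some constant ^ 2) ^ (d ^ 2) …`, so the sum is at most `3 ((C d ^ 4) θ ^ d) ^ (d ^ 2)` and `C d ^ 4 θ ^ d → 0`. -/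
theorem num_net (eps θ : ℝ) (heps : 0 < eps) (hθ0 : 0 < θ) (hθ : θ < 1) : ∃ d0 : ℕ, ∀ d : ℕ, d0 ≤ d →
    ((2 * (⌈3 * (d : ℝ) ^ 2 / eps⌉₊ : ℝ) + 1) ^ (d ^ 2 + d) +
      (2 * (⌈3 * d / (1 / 8 : ℝ) ^ d⌉₊ : ℝ) + 1) ^ (d + 1)) * (θ ^ d) ^ (d ^ 2) +
      (2 * (⌈3 * (d : ℝ) ^ 2 / eps⌉₊ : ℝ) + 1) ^ (d ^ 2 + d) * (θ ^ d) ^ (d ^ 2) < 1 := by
  set K : ℝ := 6 / eps + 3 with hK
  have h6 : 0 < 6 / eps := by positivity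
  have hK3 : 3 ≤ K := by linarith
  set C : ℝ := K ^ 2 + 65536 with hC
  have hC0 : 0 < C := by positivity
  have ht := tendsto_pow_const_mul_const_pow_of_abs_lt_one 4 (r := θ) (by rw [abs_of_pos hθ0]; exact hθ)
  have hev : ∀ᶠ n : ℕ in Filter.atTop, (n : ℝ) ^ 4 * θ ^ n < 1 / (4 * C) :=
    ht.eventually (gt_mem_nhds (by positivity))
  obtain ⟨d0, hd0⟩ := Filter.eventually_atTop.1 hev
  refine ⟨max d0 1, fun d hd => ?_⟩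
  have hd1 : 1 ≤ d := le_trans (le_max_right _ _) hd
  have h1 := hd0 d (le_trans (le_max_left _ _) hd)
  have hdr : (1 : ℝ) ≤ d := by exact_mod_cast hd1
  have hd2 : (1 : ℝ) ≤ (d : ℝ) ^ 2 := one_le_pow₀ hdr
  have hd4 : (1 : ℝ) ≤ (d : ℝ) ^ 4 := one_le_pow₀ hdr
  have hθd : 0 < θ ^ d := pow_pos hθ0 d
  have hq : C * ((d : ℝ) ^ 4 * θ ^ d) < 1 / 4 := by
    have h2 : C * ((d : ℝ) ^ 4 * θ ^ d) < C * (1 / (4 * C)) := mul_lt_mul_of_pos_left h1 hC0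
    have h3 : C * (1 / (4 * C)) = 1 / 4 := by field_simp
    linarith
  have hprod : 0 < (d : ℝ) ^ 4 * θ ^ d := by positivity
  have hx : K ^ 2 * ((d : ℝ) ^ 4 * θ ^ d) ≤ 1 / 4 := by
    have : K ^ 2 * ((d : ℝ) ^ 4 * θ ^ d) ≤ C * ((d : ℝ) ^ 4 * θ ^ d) :=
      mul_le_mul_of_nonneg_right (by rw [hC]; linarith) hprod.le
    linarith
  have hy : 65536 * θ ^ d ≤ 1 / 4 := by
    have h4 : θ ^ d ≤ (d : ℝ) ^ 4 * θ ^ d := le_mul_of_one_le_left hθd.le hd4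
    have h5 : 65536 * ((d : ℝ) ^ 4 * θ ^ d) ≤ C * ((d : ℝ) ^ 4 * θ ^ d) :=
      mul_le_mul_of_nonneg_right (by rw [hC]; nlinarith [sq_nonneg K]) hprod.le
    linarith
  have hA : (2 * (⌈3 * (d : ℝ) ^ 2 / eps⌉₊ : ℝ) + 1) ≤ K * (d : ℝ) ^ 2 := by
    have h7 := (Nat.ceil_lt_add_one (show 0 ≤ 3 * (d : ℝ) ^ 2 / eps by positivity)).le
    have h8 : K * (d : ℝ) ^ 2 = 2 * (3 * (d : ℝ) ^ 2 / eps) + 3 * (d : ℝ) ^ 2 := by rw [hK]; ring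
    linarith
  have h28 : (1 / 8 : ℝ) ^ d = 1 / 8 ^ d := by rw [div_pow, one_pow]
  have hpow2 : (d : ℝ) ≤ 2 ^ d := by
    have : d < 2 ^ d := Nat.lt_two_pow_self
    exact_mod_cast this.le
  have hB : (2 * (⌈3 * d / (1 / 8 : ℝ) ^ d⌉₊ : ℝ) + 1) ≤ (256 : ℝ) ^ d := by
    have h7 := (Nat.ceil_lt_add_one (show 0 ≤ 3 * (d : ℝ) / (1 / 8 : ℝ) ^ d by positivity)).le
    have h8 : 3 * (d : ℝ) / (1 / 8 : ℝ) ^ d = 3 * d * 8 ^ d := by rw [h28]; field_simp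
    have h8d : (1 : ℝ) ≤ 8 ^ d := one_le_pow₀ (by norm_num)
    have h9 : (d : ℝ) * 8 ^ d ≤ 16 ^ d := by
      have : (16 : ℝ) ^ d = 2 ^ d * 8 ^ d := by rw [← mul_pow]; norm_num
      rw [this]
      exact mul_le_mul_of_nonneg_right hpow2 (by positivity)
    have h10 : (1 : ℝ) ≤ d * 8 ^ d := by nlinarith
    have h11 : (256 : ℝ) ^ d = 16 ^ d * 16 ^ d := by rw [← mul_pow]; norm_num
    have h12 : (16 : ℝ) ≤ 16 ^ d := le_self_pow₀ (by norm_num) (by omega)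
    rw [h8] at h7 ⊢
    have h13 : 2 * (⌈3 * (d : ℝ) * 8 ^ d⌉₊ : ℝ) + 1 ≤ 9 * (d * 8 ^ d) := by nlinarith
    have h14 : 9 * ((d : ℝ) * 8 ^ d) ≤ 16 ^ d * 16 ^ d := by nlinarith
    linarith
  have hA0 : (0 : ℝ) ≤ 2 * (⌈3 * (d : ℝ) ^ 2 / eps⌉₊ : ℝ) + 1 := by positivity
  have hB0 : (0 : ℝ) ≤ 2 * (⌈3 * d / (1 / 8 : ℝ) ^ d⌉₊ : ℝ) + 1 := by positivity
  have hdd : d ≤ d ^ 2 := Nat.le_self_pow (by norm_num) d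
  have hKd : 1 ≤ K * (d : ℝ) ^ 2 := by nlinarith
  have hA2 : (2 * (⌈3 * (d : ℝ) ^ 2 / eps⌉₊ : ℝ) + 1) ^ (d ^ 2 + d) ≤ ((K * (d : ℝ) ^ 2) ^ 2) ^ (d ^ 2) := by
    calc (2 * (⌈3 * (d : ℝ) ^ 2 / eps⌉₊ : ℝ) + 1) ^ (d ^ 2 + d) ≤ (K * (d : ℝ) ^ 2) ^ (d ^ 2 + d) :=
          pow_le_pow_left₀ hA0 hA _
      _ ≤ (K * (d : ℝ) ^ 2) ^ (2 * d ^ 2) := pow_le_pow_right₀ hKd (by omega)
      _ = ((K * (d : ℝ) ^ 2) ^ 2) ^ (d ^ 2) := by rw [pow_mul]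
  have hB2 : (2 * (⌈3 * d / (1 / 8 : ℝ) ^ d⌉₊ : ℝ) + 1) ^ (d + 1) ≤ (65536 : ℝ) ^ (d ^ 2) := by
    calc (2 * (⌈3 * d / (1 / 8 : ℝ) ^ d⌉₊ : ℝ) + 1) ^ (d + 1) ≤ ((256 : ℝ) ^ d) ^ (d + 1) :=
          pow_le_pow_left₀ hB0 hB _
      _ = (256 : ℝ) ^ (d * (d + 1)) := by rw [← pow_mul]
      _ ≤ (256 : ℝ) ^ (2 * d ^ 2) := pow_le_pow_right₀ (by norm_num) (by nlinarith)
      _ = (65536 : ℝ) ^ (d ^ 2) := by rw [pow_mul]; norm_num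
  have hd2n : d ^ 2 ≠ 0 := by positivity
  have hT1 : (2 * (⌈3 * (d : ℝ) ^ 2 / eps⌉₊ : ℝ) + 1) ^ (d ^ 2 + d) * (θ ^ d) ^ (d ^ 2) ≤ 1 / 4 := by
    calc (2 * (⌈3 * (d : ℝ) ^ 2 / eps⌉₊ : ℝ) + 1) ^ (d ^ 2 + d) * (θ ^ d) ^ (d ^ 2)
          ≤ ((K * (d : ℝ) ^ 2) ^ 2) ^ (d ^ 2) * (θ ^ d) ^ (d ^ 2) :=
          mul_le_mul_of_nonneg_right hA2 (by positivity)
      _ = (K ^ 2 * ((d : ℝ) ^ 4 * θ ^ d)) ^ (d ^ 2) := by rw [← mul_pow]; congr 1; ring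
      _ ≤ K ^ 2 * ((d : ℝ) ^ 4 * θ ^ d) := pow_le_of_le_one (by positivity) (by linarith) hd2n
      _ ≤ 1 / 4 := hx
  have hT2 : (2 * (⌈3 * d / (1 / 8 : ℝ) ^ d⌉₊ : ℝ) + 1) ^ (d + 1) * (θ ^ d) ^ (d ^ 2) ≤ 1 / 4 := by
    calc (2 * (⌈3 * d / (1 / 8 : ℝ) ^ d⌉₊ : ℝ) + 1) ^ (d + 1) * (θ ^ d) ^ (d ^ 2)
          ≤ (65536 : ℝ) ^ (d ^ 2) * (θ ^ d) ^ (d ^ 2) :=
          mul_le_mul_of_nonneg_right hB2 (by positivity)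
      _ = (65536 * θ ^ d) ^ (d ^ 2) := by rw [← mul_pow]
      _ ≤ 65536 * θ ^ d := pow_le_of_le_one (by positivity) (by linarith) hd2n
      _ ≤ 1 / 4 := hy
  rw [add_mul]
  linarith

end Newton54G
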