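import Mathlib

/-! # Row GR-P1: independent points -/

namespace Newton54G

open scoped ENNReal
open MeasureTheory

theorem P1_map {X : Type} [MeasurableSpace X] (μ : Measure X) [IsProbabilityMeasure μ] (N : ℕ)
    (k0 : Fin N) :
    ((Measure.pi (fun _ : Fin N => μ)).prod μ).map
      (fun p : (Fin N → X) × X => Function.update p.1 k0 p.2) = Measure.pi (fun _ : Fin N => μ) := by
  have hm : Measurable (fun p : (Fin N → X) × X => Function.update p.1 k0 p.2) := by
    rw [measurable_pi_iff]
    intro i
    by_cases hi : i = k0
    · subst hi
      simp only [Function.update_self]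
      exact measurable_snd
    · simp only [Function.update_of_ne hi]
      exact (measurable_pi_apply i).comp measurable_fst
  symm
  refine Measure.pi_eq fun s hs => ?_
  rw [Measure.map_apply hm (MeasurableSet.univ_pi hs)]
  have h1 : (fun p : (Fin N → X) × X => Function.update p.1 k0 p.2) ⁻¹' (Set.pi Set.univ s) =
      (Set.pi Set.univ (Function.update s k0 Set.univ)) ×ˢ (s k0) := by
    ext ⟨v, x⟩
    simp only [Set.mem_preimage, Set.mem_pi, Set.mem_univ, true_implies, Set.mem_prod]
    constructor
    · intro h
      refine ⟨fun i => ?_, ?_⟩
      · by_cases hi : i = k0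
        · subst hi
          simp
        · have := h i
          rw [Function.update_of_ne hi] at this
          rw [Function.update_of_ne hi]
          exact this
      · have := h k0
        rwa [Function.update_self] at this
    · rintro ⟨h, hx⟩ i
      by_cases hi : i = k0
      · subst hi
        rw [Function.update_self]
        exact hx
      · have := h i
        rw [Function.update_of_ne hi] at this
        rw [Function.update_of_ne hi]
        exact this
  rw [h1, Measure.prod_prod, Measure.pi_pi, ← Finset.mul_prod_erase Finset.univ _ (Finset.mem_univ k0),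
    ← Finset.mul_prod_erase Finset.univ (fun i => μ (s i)) (Finset.mem_univ k0),
    Function.update_self, measure_univ, one_mul, mul_comm]
  congr 1
  refine Finset.prod_congr rfl fun i hi => ?_
  rw [Function.update_of_ne (Finset.ne_of_mem_erase hi)]

theorem P1_apply {X : Type} [MeasurableSpace X] (μ : Measure X) [IsProbabilityMeasure μ] (N : ℕ)
    (k0 : Fin N) (S : Set (Fin N → X)) (hS : MeasurableSet S) :
    Measure.pi (fun _ : Fin N => μ) S =
      ∫⁻ v, μ {x | Function.update v k0 x ∈ S} ∂(Measure.pi (fun _ : Fin N => μ)) := by
  have hm : Measurable (fun p : (Fin N → X) × X => Function.update p.1 k0 p.2) := by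
    rw [measurable_pi_iff]
    intro i
    by_cases hi : i = k0
    · subst hi
      simp only [Function.update_self]
      exact measurable_snd
    · simp only [Function.update_of_ne hi]
      exact (measurable_pi_apply i).comp measurable_fst
  conv_lhs => rw [← P1_map μ N k0]
  rw [Measure.map_apply hm hS, Measure.prod_apply (hm hS)]
  rfl

/-- Induction on `m`, integrating over the coordinate `k 0` (or `k (Fin.last m)`) first: the other conditions do not involve this coordinate (`k` is injective and
`k i ≠ j i'`), and for fixed other coordinates the measure of the set of admissible values of the coordinate is at most `q` (`hq` with `w = v (j 0)`). Tools: `lmarginal`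
(`MeasureTheory.lintegral_eq_lmarginal_univ`, `lmarginal_insert`, `lmarginal_singleton`, or the identity `∫⁻ f = ∫⁻ v, ∫⁻ x, f (Function.update v k x)`),
or `MeasureTheory.measurePreserving_piFinSuccAbove`. -/
theorem pi_bound {X : Type} [MeasurableSpace X] (μ : Measure X) [IsProbabilityMeasure μ] (N m : ℕ)
    (R : Set (X × X)) (hR : MeasurableSet R) (q : ℝ≥0∞) (hq : ∀ w, μ {x | (x, w) ∈ R} ≤ q)
    (k j : Fin m → Fin N) (hk : Function.Injective k) (hkj : ∀ i i', k i ≠ j i') :
    Measure.pi (fun _ : Fin N => μ) {v | ∀ i, (v (k i), v (j i)) ∈ R} ≤ q ^ m := by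
  induction m with
  | zero =>
    rw [pow_zero]
    exact prob_le_one
  | succ m ih =>
    have hmeas : ∀ (n : ℕ) (k j : Fin n → Fin N),
        MeasurableSet {v : Fin N → X | ∀ i, (v (k i), v (j i)) ∈ R} := by
      intro n k j
      rw [Set.ofPred_forall]
      refine MeasurableSet.iInter fun i => ?_
      exact ((measurable_pi_apply (k i)).prodMk (measurable_pi_apply (j i))) hR
    rw [P1_apply μ N (k 0) _ (hmeas _ k j)]
    have h1 : ∀ v : Fin N → X, μ {x | Function.update v (k 0) x ∈
        {v : Fin N → X | ∀ i, (v (k i), v (j i)) ∈ R}} ≤
        Set.indicator {v : Fin N → X | ∀ i : Fin m, (v (k i.succ), v (j i.succ)) ∈ R}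
          (fun _ => q) v := by
      intro v
      by_cases hv : ∀ i : Fin m, (v (k i.succ), v (j i.succ)) ∈ R
      · rw [Set.indicator_of_mem (by exact hv)]
        refine le_trans (measure_mono ?_) (hq (v (j 0)))
        intro x hx
        have h2 := hx 0
        rw [Function.update_self, Function.update_of_ne (hkj 0 0).symm] at h2
        exact h2
      · rw [Set.indicator_of_notMem (by exact hv)]
        have h2 : {x | Function.update v (k 0) x ∈
            {v : Fin N → X | ∀ i, (v (k i), v (j i)) ∈ R}} = ∅ := by
          rw [Set.eq_empty_iff_forall_notMem]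
          intro x hx
          refine hv fun i => ?_
          have h3 := hx i.succ
          rw [Function.update_of_ne (fun h => by
              have := hk h
              exact (Fin.succ_ne_zero i) this),
            Function.update_of_ne (hkj 0 i.succ).symm] at h3
          exact h3
        rw [h2, measure_empty]
    refine (lintegral_mono h1).trans ?_
    rw [lintegral_indicator_const (hmeas m (fun i => k i.succ) (fun i => j i.succ)), pow_succ,
      mul_comm]
    refine mul_le_mul_left ?_ q
    exact ih (fun i => k i.succ) (fun i => j i.succ)
      (fun a b h => Fin.succ_injective _ (hk h)) (fun i i' => hkj i.succ i'.succ)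

/-- The same for a condition on single points. -/
theorem pi_bound_one {X : Type} [MeasurableSpace X] (μ : Measure X) [IsProbabilityMeasure μ] (N m : ℕ)
    (A : Set X) (hA : MeasurableSet A) (q : ℝ≥0∞) (hq : μ A ≤ q)
    (k : Fin m → Fin N) (hk : Function.Injective k) :
    Measure.pi (fun _ : Fin N => μ) {v | ∀ i, v (k i) ∈ A} ≤ q ^ m := by
  classical
  have h1 : {v : Fin N → X | ∀ i, v (k i) ∈ A} =
      Set.pi Set.univ (fun n : Fin N => if n ∈ Finset.univ.image k then A else Set.univ) := by
    ext v
    simp only [Set.mem_ofPred_eq, Set.mem_pi, Set.mem_univ, true_implies]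
    constructor
    · intro h n
      split_ifs with hn
      · obtain ⟨i, -, rfl⟩ := Finset.mem_image.1 hn
        exact h i
      · exact Set.mem_univ _
    · intro h i
      have h2 := h (k i)
      rwa [if_pos (Finset.mem_image_of_mem k (Finset.mem_univ i))] at h2
  rw [h1, Measure.pi_pi]
  have h2 : ∀ n : Fin N, μ (if n ∈ Finset.univ.image k then A else Set.univ) =
      if n ∈ Finset.univ.image k then μ A else 1 := by
    intro n
    split_ifs
    · rfl
    · exact measure_univ
  simp only [h2]
  rw [Finset.prod_ite_mem, Finset.univ_inter, Finset.prod_const,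
    Finset.card_image_of_injective _ hk, Finset.card_univ, Fintype.card_fin]
  exact pow_le_pow_left' hq m

end Newton54G
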