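import Pool.Agent.Lib.MP_54d165_co.GR.Defs2

/-! # Row n54-Q1: the volume of a cylinder -/

namespace Newton54G

open scoped RealInnerProductSpace ENNReal
open MeasureTheory Metric

/-- Closed set. -/
theorem meas_cyl {d : ℕ} (p u : Eu d) (a τ : ℝ) : MeasurableSet (cyl p u a τ) := by
  have h1 : IsClosed {x : Eu d | |⟪u, x - p⟫| ≤ τ} := isClosed_le (by fun_prop) continuous_const
  have h2 : IsClosed {x : Eu d | ‖x - p - ⟪u, x - p⟫ • u‖ ≤ a} := isClosed_le (by fun_prop) continuous_const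
  exact (h1.inter h2).measurableSet

theorem Q1_proj {d : ℕ} {u : Eu d} (hu : ‖u‖ = 1) (w : Eu d) : ‖w - ⟪u, w⟫ • u‖ ≤ ‖w‖ := by
  rw [real_inner_comm w u]
  have h1 := norm_sub_sq_real w (⟪w, u⟫ • u)
  rw [inner_smul_right, norm_smul, hu, mul_one, Real.norm_eq_abs, sq_abs] at h1
  rw [← sq_le_sq₀ (norm_nonneg _) (norm_nonneg _)]
  nlinarith [sq_nonneg ⟪w, u⟫]

/-- Let `m = ⌈a / τ⌉`. The ball of radius `a` about `p` is the union of its intersections with the `m` slabs `-a + 2 τ i ≤ ⟪u, x - p⟫ ≤ -a + 2 τ (i + 1)`; the translate of each of them by a suitable multiple of `u` is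
contained in the cylinder. So `a ^ d vol B ≤ m vol (cyl)`, and `m ≤ a / τ + 2`. (Translation invariance of the volume, `Measure.addHaar_closedBall`.) -/
theorem cyl_volume {d : ℕ} (p : Eu d) {u : Eu d} (hu : ‖u‖ = 1) {a τ : ℝ} (ha : 0 < a) (hτ : 0 < τ) :
    ENNReal.ofReal (a ^ d / (a / τ + 2)) * volume (closedBall (0 : Eu d) 1) ≤ volume (cyl p u a τ) := by
  have huu : ⟪u, u⟫ = 1 := by rw [real_inner_self_eq_norm_sq, hu]; norm_num
  have hs : 0 < a / τ + 2 := by positivity
  have hsub : closedBall p a ⊆ ⋃ i ∈ Finset.range (⌊a / τ⌋₊ + 1),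
      (fun x => x + (-(-a + τ * (2 * (i : ℝ) + 1))) • u) ⁻¹' cyl p u a τ := by
    intro x hx
    rw [mem_closedBall, dist_eq_norm] at hx
    have h1 := abs_real_inner_le_norm u (x - p)
    rw [hu, one_mul] at h1
    have h2 := abs_le.1 (h1.trans hx)
    have h3 : 0 ≤ (⟪u, x - p⟫ + a) / (2 * τ) := div_nonneg (by linarith [h2.1]) (by positivity)
    have h4 := Nat.floor_le h3
    have h5 := Nat.lt_floor_add_one ((⟪u, x - p⟫ + a) / (2 * τ))
    have h6 : (⟪u, x - p⟫ + a) / (2 * τ) ≤ a / τ := by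
      rw [div_le_div_iff₀ (by positivity) hτ]
      nlinarith [h2.2]
    have h7 : ⌊(⟪u, x - p⟫ + a) / (2 * τ)⌋₊ ≤ ⌊a / τ⌋₊ := Nat.floor_mono h6
    rw [le_div_iff₀ (by positivity)] at h4
    rw [div_lt_iff₀ (by positivity)] at h5
    refine Set.mem_biUnion (x := ⌊(⟪u, x - p⟫ + a) / (2 * τ)⌋₊) ?_ ?_
    · rw [Finset.mem_coe, Finset.mem_range]
      omega
    · generalize (⌊(⟪u, x - p⟫ + a) / (2 * τ)⌋₊ : ℝ) = i at h4 h5 ⊢
      obtain ⟨c, hc⟩ : ∃ c : ℝ, c = -a + τ * (2 * i + 1) := ⟨_, rfl⟩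
      have h8 : x + (-(-a + τ * (2 * i + 1))) • u - p = x - p - c • u := by
        rw [← hc, neg_smul]
        abel
      have h9 : ⟪u, x - p - c • u⟫ = ⟪u, x - p⟫ - c := by
        rw [inner_sub_right, inner_smul_right, huu, mul_one]
      show |⟪u, x + (-(-a + τ * (2 * i + 1))) • u - p⟫| ≤ τ ∧
        ‖x + (-(-a + τ * (2 * i + 1))) • u - p - ⟪u, x + (-(-a + τ * (2 * i + 1))) • u - p⟫ • u‖ ≤ a
      rw [h8, h9]
      constructor
      · rw [abs_le, hc]
        constructor
        · linarith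
        · linarith
      · have h10 : x - p - c • u - (⟪u, x - p⟫ - c) • u = x - p - ⟪u, x - p⟫ • u := by
          rw [sub_smul]
          abel
        rw [h10]
        exact (Q1_proj hu _).trans hx
  have hvol : ENNReal.ofReal (a ^ d) * volume (closedBall (0 : Eu d) 1) ≤
      ENNReal.ofReal (a / τ + 2) * volume (cyl p u a τ) := by
    have h1 : volume (closedBall p a) = ENNReal.ofReal (a ^ d) * volume (closedBall (0 : Eu d) 1) := by
      rw [Measure.addHaar_closedBall volume p ha.le, Measure.addHaar_unitClosedBall_eq_addHaar_unitBall]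
      simp
    rw [← h1]
    refine (measure_mono hsub).trans ((measure_biUnion_finset_le _ _).trans ?_)
    have h2 : ∀ i ∈ Finset.range (⌊a / τ⌋₊ + 1),
        volume ((fun x => x + (-(-a + τ * (2 * (i : ℝ) + 1))) • u) ⁻¹' cyl p u a τ) = volume (cyl p u a τ) := by
      intro i _
      exact measure_preimage_add_right volume _ _
    rw [Finset.sum_congr rfl h2, Finset.sum_const, Finset.card_range, nsmul_eq_mul]
    refine mul_le_mul_left ?_ _
    rw [← ENNReal.ofReal_natCast]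
    refine ENNReal.ofReal_le_ofReal ?_
    have h3 := Nat.floor_le (show (0 : ℝ) ≤ a / τ by positivity)
    push_cast
    linarith
  have h1 : ENNReal.ofReal (a ^ d / (a / τ + 2)) * volume (closedBall (0 : Eu d) 1) =
      ENNReal.ofReal (a ^ d) * volume (closedBall (0 : Eu d) 1) / ENNReal.ofReal (a / τ + 2) := by
    rw [ENNReal.ofReal_div_of_pos hs, ENNReal.div_eq_inv_mul, ENNReal.div_eq_inv_mul, mul_assoc]
  rw [h1]
  exact ENNReal.div_le_of_le_mul' hvol

end Newton54G
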