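import Pool.Agent.Lib.MP_54d165_co.GR.Defs2

/-! # Row n54-Q2: the cylinder lies in both balls -/

namespace Newton54G

open scoped RealInnerProductSpace ENNReal
open MeasureTheory Metric

theorem Q2_pyth {d : ℕ} {u y : Eu d} (hu : ‖u‖ = 1) (huy : ⟪u, y⟫ = 0) (r : ℝ) :
    ‖r • u + y‖ ^ 2 = r ^ 2 + ‖y‖ ^ 2 := by
  have h := norm_add_sq_real (r • u) y
  rw [real_inner_smul_left, huy, norm_smul, hu, Real.norm_eq_abs, mul_one, sq_abs] at h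
  linarith

/-- Let `u = q / ‖q‖` (unit vector), `β = 1 - s ^ 2`, `x = β u + t u + y` with `|t| ≤ τ`, `y ⟂ u`, `‖y‖ ≤ a`. Then `‖x‖ ^ 2 = (β + t) ^ 2 + ‖y‖ ^ 2 ≤ R ^ 2` and `‖x - q‖ ^ 2 = (β + t - ‖q‖) ^ 2 + ‖y‖ ^ 2`, where
`|‖q‖ - β| ≤ s ^ 2 + δ` since `‖q‖ - β ≤ s ^ 2 + δ` and `β - ‖q‖ ≤ 1 - s ^ 2 - s + δ ≤ s ^ 2 + δ` (`s ≥ 1 / 2`). -/
theorem cyl_sub {d : ℕ} {s δ τ a R : ℝ} (hs : 1 / 2 ≤ s) (hs1 : s < 1) (hδ : 0 < δ) (hδs : 2 * δ < s) (hτ : 0 < τ)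
    (hR : 0 < R) (h1 : (1 - s ^ 2 + τ) ^ 2 + a ^ 2 ≤ R ^ 2)
    (h2 : (s ^ 2 + δ + τ) ^ 2 + a ^ 2 ≤ (s - 2 * δ) ^ 2) {q : Eu d} (hq1 : s - δ ≤ ‖q‖) (hq2 : ‖q‖ ≤ 1 + δ) :
    cyl ((1 - s ^ 2) • ((1 / ‖q‖) • q)) ((1 / ‖q‖) • q) a τ ⊆ closedBall 0 R ∩ closedBall q (s - 2 * δ) := by
  intro x hx
  have hq0 : 0 < ‖q‖ := by linarith
  obtain ⟨u, hu⟩ : ∃ u : Eu d, u = (1 / ‖q‖) • q := ⟨_, rfl⟩
  rw [← hu] at hx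
  have hun : ‖u‖ = 1 := by
    rw [hu, norm_smul, Real.norm_eq_abs, abs_of_pos (by positivity), one_div,
      inv_mul_cancel₀ hq0.ne']
  have hqu : q = ‖q‖ • u := by
    rw [hu, smul_smul, mul_one_div_cancel hq0.ne', one_smul]
  obtain ⟨hx1, hx2⟩ := hx
  obtain ⟨t, ht⟩ : ∃ t : ℝ, t = ⟪u, x - (1 - s ^ 2) • u⟫ := ⟨_, rfl⟩
  rw [← ht] at hx1 hx2
  obtain ⟨y, hy⟩ : ∃ y : Eu d, y = x - (1 - s ^ 2) • u - t • u := ⟨_, rfl⟩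
  rw [← hy] at hx2
  have huy : ⟪u, y⟫ = 0 := by
    rw [hy, inner_sub_right, ← ht, real_inner_smul_right, real_inner_self_eq_norm_sq, hun]
    ring
  have hxe : x = (1 - s ^ 2 + t) • u + y := by
    rw [hy, add_smul]
    abel
  have hxq : x - q = (1 - s ^ 2 + t - ‖q‖) • u + y := by
    conv_lhs => rw [hxe, hqu]
    rw [sub_smul]
    abel
  have hy0 : 0 ≤ ‖y‖ := norm_nonneg y
  have hya : ‖y‖ ^ 2 ≤ a ^ 2 := by nlinarith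
  have ht1 := abs_le.1 hx1
  have hβ : 0 ≤ 1 - s ^ 2 := by nlinarith
  have e1 : (1 - s ^ 2 + t) ^ 2 ≤ (1 - s ^ 2 + τ) ^ 2 := by
    apply sq_le_sq'
    · linarith [ht1.1]
    · linarith [ht1.2]
  have e2 : (1 - s ^ 2 + t - ‖q‖) ^ 2 ≤ (s ^ 2 + δ + τ) ^ 2 := by
    apply sq_le_sq'
    · linarith [ht1.1]
    · have : 1 - s ≤ 2 * s ^ 2 := by nlinarith
      linarith [ht1.2]
  constructor
  · rw [mem_closedBall, dist_zero_right]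
    refine abs_le_of_sq_le_sq' ?_ hR.le |>.2
    rw [hxe, Q2_pyth hun huy]
    linarith
  · rw [mem_closedBall, dist_eq_norm]
    refine abs_le_of_sq_le_sq' ?_ (by linarith) |>.2
    rw [hxq, Q2_pyth hun huy]
    linarith

end Newton54G
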