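import Pool.Agent.Lib.MP_54d165_co.GR.Q1
import Pool.Agent.Lib.MP_54d165_co.GR.Q2

/-! # Row n54-Q3: one step of the greedy covering of a shell by balls -/

namespace Newton54G

open scoped RealInnerProductSpace ENNReal
open MeasureTheory Metric

/-- Model: `greedy_step` in U1.lean. Let `X = closedBall 0 R` (volume `R ^ d vol B`). Fubini: `∫⁻ x in X, vol (V ∩ closedBall x r0) = ∫⁻ q in V, vol (X ∩ closedBall q r0)`, `r0 = s - 2 δ`, and for `q ∈ V` the set `X ∩ closedBall q r0` contains a cylinder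
(`cyl_sub`) of volume at least `a ^ d / (a / τ + 2) vol B` (`cyl_volume`, with `u = q / ‖q‖`, `‖q‖ ≥ s - δ > 0`). Some `x ∈ X` is at least the average. -/
theorem ball_step {d : ℕ} {s δ τ a R : ℝ} (hs : 1 / 2 ≤ s) (hs1 : s < 1) (hδ : 0 < δ) (hδs : 2 * δ < s) (hτ : 0 < τ)
    (ha : 0 < a) (hR : 0 < R) (h1 : (1 - s ^ 2 + τ) ^ 2 + a ^ 2 ≤ R ^ 2)
    (h2 : (s ^ 2 + δ + τ) ^ 2 + a ^ 2 ≤ (s - 2 * δ) ^ 2) {V : Set (Eu d)} (hV : MeasurableSet V)
    (hVs : V ⊆ {q | s - δ ≤ ‖q‖ ∧ ‖q‖ ≤ 1 + δ}) :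
    ∃ x : Eu d, ENNReal.ofReal ((a / R) ^ d / (a / τ + 2)) * volume V ≤ volume (V ∩ closedBall x (s - 2 * δ)) := by
  classical
  obtain ⟨r, hr⟩ : ∃ r : ℝ, r = s - 2 * δ := ⟨_, rfl⟩
  obtain ⟨X, hX⟩ : ∃ X : Set (Eu d), X = closedBall 0 R := ⟨_, rfl⟩
  have hXc : IsCompact X := by rw [hX]; exact isCompact_closedBall 0 R
  have hXm : MeasurableSet X := hXc.isClosed.measurableSet
  have hBpos : 0 < volume (closedBall (0 : Eu d) 1) := measure_closedBall_pos volume 0 one_pos
  have hfin : Module.finrank ℝ (Eu d) = d := by simp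
  have hXv : volume X = ENNReal.ofReal (R ^ d) * volume (closedBall (0 : Eu d) 1) := by
    rw [hX, Measure.addHaar_closedBall' volume (0 : Eu d) hR.le, hfin]
  have hX0 : volume X ≠ 0 := by
    rw [hXv]
    exact mul_ne_zero (by rw [Ne, ENNReal.ofReal_eq_zero, not_le]; positivity) hBpos.ne'
  have hXtop : volume X ≠ ⊤ := hXc.measure_lt_top.ne
  have hVtop : volume V ≠ ⊤ := by
    refine ne_top_of_le_ne_top (isCompact_closedBall (0 : Eu d) (1 + δ)).measure_lt_top.ne (measure_mono ?_)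
    intro q hq
    rw [mem_closedBall_zero_iff]
    exact (hVs hq).2
  have hms : ∀ x : Eu d, MeasurableSet (closedBall x r) := fun x => isClosed_closedBall.measurableSet
  obtain ⟨g, hg⟩ : ∃ g : Eu d → Eu d → ℝ≥0∞,
      g = fun x y => (closedBall (0 : Eu d) r).indicator 1 (x - y) := ⟨_, rfl⟩
  have hgm : Measurable (Function.uncurry g) := by
    rw [hg]
    exact (measurable_one.indicator (hms 0)).comp (measurable_fst.sub measurable_snd)
  have h3 : ∀ x, ∫⁻ y, g x y ∂(volume.restrict V) = volume (V ∩ closedBall x r) := by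
    intro x
    have e : (fun y => g x y) = (closedBall x r).indicator 1 := by
      funext y
      rw [hg]
      simp only [Set.indicator, mem_closedBall, dist_eq_norm, Pi.one_apply, sub_zero, norm_sub_rev y x]
    rw [e, lintegral_indicator_one (hms x), Measure.restrict_apply (hms x), Set.inter_comm]
  obtain ⟨c, hc⟩ : ∃ c : ℝ≥0∞,
      c = ENNReal.ofReal (a ^ d / (a / τ + 2)) * volume (closedBall (0 : Eu d) 1) := ⟨_, rfl⟩
  have h4 : ∀ y ∈ V, c ≤ ∫⁻ x, g x y ∂(volume.restrict X) := by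
    intro y hy
    have e : (fun x => g x y) = (closedBall y r).indicator 1 := by
      funext x
      rw [hg]
      simp only [Set.indicator, mem_closedBall, dist_eq_norm, Pi.one_apply, sub_zero]
    have hy0 : 0 < ‖y‖ := by
      have := (hVs hy).1
      linarith
    have hu : ‖(1 / ‖y‖) • y‖ = 1 := by
      rw [norm_smul, norm_div, norm_one, norm_norm, one_div, inv_mul_cancel₀ hy0.ne']
    have h5 := cyl_volume ((1 - s ^ 2) • ((1 / ‖y‖) • y)) hu ha hτ
    have h6 := cyl_sub hs hs1 hδ hδs hτ hR h1 h2 (hVs hy).1 (hVs hy).2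
    rw [e, lintegral_indicator_one (hms y), Measure.restrict_apply (hms y), Set.inter_comm, hc, hr, hX]
    exact h5.trans (measure_mono h6)
  have h5 : c * volume V ≤ ∫⁻ x in X, volume (V ∩ closedBall x r) := by
    calc c * volume V = ∫⁻ _ in V, c := (setLIntegral_const V _).symm
      _ ≤ ∫⁻ y in V, ∫⁻ x, g x y ∂(volume.restrict X) := setLIntegral_mono' hV h4
      _ = ∫⁻ x in X, ∫⁻ y, g x y ∂(volume.restrict V) :=
          (lintegral_lintegral_swap hgm.aemeasurable).symm
      _ = ∫⁻ x in X, volume (V ∩ closedBall x r) := lintegral_congr fun x => h3 x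
  have hint : ∫⁻ x in X, volume (V ∩ closedBall x r) ≠ ⊤ := by
    refine ne_top_of_le_ne_top (b := volume V * volume X) (ENNReal.mul_ne_top hVtop hXtop) ?_
    rw [← setLIntegral_const]
    exact lintegral_mono fun x => measure_mono Set.inter_subset_left
  obtain ⟨x, -, hx⟩ := exists_setLAverage_le hX0 hXm.nullMeasurableSet hint
  refine ⟨x, ?_⟩
  rw [← hr]
  refine le_trans ?_ hx
  rw [setLAverage_eq, ENNReal.le_div_iff_mul_le (Or.inl hX0) (Or.inl hXtop)]
  refine le_trans (le_of_eq ?_) h5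
  have h7 : 0 < a / τ + 2 := by positivity
  have h8 : ENNReal.ofReal ((a / R) ^ d / (a / τ + 2)) * ENNReal.ofReal (R ^ d) =
      ENNReal.ofReal (a ^ d / (a / τ + 2)) := by
    rw [← ENNReal.ofReal_mul (by positivity)]
    congr 1
    rw [div_pow]
    field_simp
  rw [hXv, hc, ← h8]
  ring

end Newton54G
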