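import Pool.Agent.Lib.MP_54d165_co.GR.Defs

/-! # Row GR-R: rounding of affine maps -/

namespace Newton54G

open scoped RealInnerProductSpace
open MeasureTheory Metric

theorem R_exists_val {M : ℕ} {del x : ℝ} (hdel : 0 < del) (hx : |x| ≤ M * del) :
    ∃ j : Fin (2 * M + 1), |val j * del - x| ≤ del / 2 := by
  have hx1 := (abs_le.1 hx).1
  have hx2 := (abs_le.1 hx).2
  have hy1 : -(M : ℝ) ≤ x / del := by
    rw [le_div_iff₀ hdel]
    linarith
  have hy2 : x / del ≤ M := by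
    rw [div_le_iff₀ hdel]
    exact hx2
  set r : ℤ := round (x / del + M) with hr
  have h1 : |x / del + M - r| ≤ 1 / 2 := abs_sub_round _
  have h1a := (abs_le.1 h1).1
  have h1b := (abs_le.1 h1).2
  have h2 : 0 ≤ r := by
    by_contra hcon
    push Not at hcon
    have : (r : ℝ) ≤ -1 := by exact_mod_cast (by omega : r ≤ -1)
    linarith
  have h3 : r < 2 * M + 1 := by
    by_contra hcon
    push Not at hcon
    have : ((2 * M + 1 : ℤ) : ℝ) ≤ r := by exact_mod_cast hcon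
    push_cast at this
    linarith
  refine ⟨⟨r.toNat, by omega⟩, ?_⟩
  have h4 : ((r.toNat : ℕ) : ℝ) = (r : ℝ) := by
    have : ((r.toNat : ℕ) : ℤ) = r := Int.toNat_of_nonneg h2
    exact_mod_cast this
  unfold val
  simp only
  rw [h4]
  have h5 : ((r : ℝ) - M) * del - x = ((r : ℝ) - M - x / del) * del := by field_simp
  rw [h5, abs_mul, abs_of_pos hdel]
  have h6 : |(r : ℝ) - M - x / del| ≤ 1 / 2 := by
    rw [abs_le]
    constructor <;> linarith
  nlinarith

theorem R_norm_le {d : ℕ} (x : Eu d) : ‖x‖ ≤ ∑ k, |x k| := by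
  have h0 : 0 ≤ ∑ k, |x k| := Finset.sum_nonneg fun _ _ => abs_nonneg _
  refine le_of_sq_le_sq ?_ h0
  rw [EuclideanSpace.real_norm_sq_eq, sq (∑ k, |x k|), Finset.sum_mul]
  apply Finset.sum_le_sum
  intro k _
  have h1 : |x k| ≤ ∑ k, |x k| := Finset.single_le_sum (f := fun k => |x k|) (fun _ _ => abs_nonneg _) (Finset.mem_univ k)
  calc x k ^ 2 = |x k| * |x k| := by rw [← sq, sq_abs]
    _ ≤ |x k| * ∑ k, |x k| := mul_le_mul_of_nonneg_left h1 (abs_nonneg _)

theorem R_coord {d : ℕ} (x : Eu d) (k : Fin d) : |x k| ≤ ‖x‖ := by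
  have := PiLp.norm_apply_le x k
  rwa [Real.norm_eq_abs] at this

/-- Round the matrix entries `A (e_l) k` (at most `1` in absolute value) and the coordinates of `t` (at most `3`) to the multiples of
`del = eps / d ^ 2` (possible since `M del ≥ 3`): each coordinate of `app del ω w - (A w + t)` is at most `d (del / 2) + del / 2 ≤ d del` in
absolute value (`|w l| ≤ ‖w‖ ≤ 1`), and the norm is at most the sum of the absolute values of the coordinates. (Model: `exists_net` in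
Pool/Agent/Lib/MP_54d165_co/Net.lean.) -/
theorem exists_app {d M : ℕ} (hd : 1 ≤ d) {eps : ℝ} (heps : 0 < eps) (hM : 3 * (d : ℝ) ^ 2 / eps ≤ M)
    (A : Eu d →ₗ[ℝ] Eu d) (hA : ∀ x, ‖A x‖ ≤ ‖x‖) (t : Eu d) (ht : ‖t‖ ≤ 3) :
    ∃ ω : NetM d M, ∀ w, ‖w‖ ≤ 1 → ‖app (eps / (d : ℝ) ^ 2) ω w - (A w + t)‖ ≤ eps := by
  have hd1 : (1 : ℝ) ≤ d := by exact_mod_cast hd
  have hd0 : (0 : ℝ) < d := by linarith
  set del := eps / (d : ℝ) ^ 2 with hdel
  have hdel0 : 0 < del := by positivity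
  have hMdel : 3 ≤ M * del := by
    rw [hdel, mul_div_assoc', le_div_iff₀ (by positivity)]
    rwa [div_le_iff₀ heps] at hM
  have hdd : (d : ℝ) * (d * del) = eps := by
    rw [hdel]
    field_simp
  set B : Fin d → Fin d → ℝ := fun k l => (A (EuclideanSpace.single l 1)) k with hB
  have hB1 : ∀ k l, |B k l| ≤ 1 := by
    intro k l
    refine (R_coord _ _).trans ((hA _).trans ?_)
    simp
  have hj1 : ∀ k l, ∃ j : Fin (2 * M + 1), |val j * del - B k l| ≤ del / 2 := fun k l =>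
    R_exists_val hdel0 ((hB1 k l).trans (by linarith))
  have hj2 : ∀ k, ∃ j : Fin (2 * M + 1), |val j * del - t k| ≤ del / 2 := fun k =>
    R_exists_val hdel0 ((R_coord t k).trans (by linarith))
  choose Z hZ using hj1
  choose z hz using hj2
  refine ⟨⟨Z, z⟩, fun w hw => ?_⟩
  have hAw : ∀ k, (A w) k = ∑ l, B k l * w l := by
    intro k
    have h1 : w = ∑ l, w l • EuclideanSpace.single l (1 : ℝ) := by
      ext i
      simp [Finset.sum_apply, Pi.single_apply]
    conv_lhs => rw [h1]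
    rw [map_sum]
    simp [hB, Finset.sum_apply, map_smul, mul_comm]
  have hcoord : ∀ k, |(app del (⟨Z, z⟩ : NetM d M) w - (A w + t)) k| ≤ d * del := by
    intro k
    have h1 : (app del (⟨Z, z⟩ : NetM d M) w - (A w + t)) k =
        ∑ l, (val (Z k l) * del - B k l) * w l + (val (z k) * del - t k) := by
      have h2 : (app del (⟨Z, z⟩ : NetM d M) w - (A w + t)) k =
          (∑ l, val (Z k l) * del * w l + val (z k) * del) - ((A w) k + t k) := rfl
      rw [h2, hAw]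
      simp only [sub_mul, Finset.sum_sub_distrib]
      ring
    rw [h1]
    refine (abs_add_le _ _).trans ?_
    have h3 : |∑ l, (val (Z k l) * del - B k l) * w l| ≤ ∑ _l : Fin d, del / 2 := by
      refine (Finset.abs_sum_le_sum_abs _ _).trans (Finset.sum_le_sum fun l _ => ?_)
      rw [abs_mul]
      have h4 : |w l| ≤ 1 := (R_coord w l).trans hw
      have := mul_le_mul (hZ k l) h4 (abs_nonneg _) (by positivity)
      linarith
    rw [Finset.sum_const, Finset.card_univ, Fintype.card_fin, nsmul_eq_mul] at h3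
    have := hz k
    nlinarith
  refine (R_norm_le _).trans ?_
  calc ∑ k, |(app del (⟨Z, z⟩ : NetM d M) w - (A w + t)) k| ≤ ∑ _k : Fin d, d * del :=
        Finset.sum_le_sum fun k _ => hcoord k
    _ = eps := by
        rw [Finset.sum_const, Finset.card_univ, Fintype.card_fin, nsmul_eq_mul, hdd]

/-- `L` is injective, hence bijective (finite dimension); put `A = (1 / 2) L⁻¹`, `t = - L⁻¹ b`. Then `L (v - (A w + t)) = L v + b - w / 2`,
so `‖v - (A w + t)‖ ≤ ‖L v + b - w / 2‖ ≤ ρ`. If `‖t‖ ≤ 3` use `exists_app`. If `‖t‖ > 3` the hypothesis is never satisfied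
(`‖t‖ ≤ ‖v‖ + ‖A w‖ + ρ ≤ 1 + 1 / 2 + 1`), any `ω` will do. -/
theorem exists_round {d M : ℕ} (hd : 1 ≤ d) {eps : ℝ} (heps : 0 < eps) (hM : 3 * (d : ℝ) ^ 2 / eps ≤ M)
    (L : Eu d →ₗ[ℝ] Eu d) (hL : ∀ x, ‖x‖ ≤ ‖L x‖) (b : Eu d) :
    ∃ ω : NetM d M, ∀ v w : Eu d, ‖v‖ ≤ 1 → ‖w‖ ≤ 1 → ∀ ρ : ℝ, ρ ≤ 1 → ‖L v + b - (1 / 2 : ℝ) • w‖ ≤ ρ →
      ‖v - app (eps / (d : ℝ) ^ 2) ω w‖ ≤ ρ + eps := by
  have hinj : Function.Injective L := by
    rw [injective_iff_map_eq_zero]
    intro x hx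
    have := hL x
    rw [hx, norm_zero] at this
    exact norm_le_zero_iff.1 this
  set e : Eu d ≃ₗ[ℝ] Eu d := LinearEquiv.ofInjectiveEndo L hinj with he
  have he1 : ∀ x, e x = L x := fun x => rfl
  set A : Eu d →ₗ[ℝ] Eu d := (1 / 2 : ℝ) • (e.symm : Eu d →ₗ[ℝ] Eu d) with hA
  have hA1 : ∀ w, A w = (1 / 2 : ℝ) • e.symm w := fun w => rfl
  have hsymm : ∀ w, ‖e.symm w‖ ≤ ‖w‖ := by
    intro w
    have h1 := hL (e.symm w)
    rw [← he1, e.apply_symm_apply] at h1
    exact h1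
  have hAhalf : ∀ w, ‖A w‖ ≤ 1 / 2 * ‖w‖ := by
    intro w
    rw [hA1, norm_smul]
    have := hsymm w
    norm_num
    linarith
  set t : Eu d := -(e.symm b) with ht
  have hkey : ∀ v w : Eu d, ‖v - (A w + t)‖ ≤ ‖L v + b - (1 / 2 : ℝ) • w‖ := by
    intro v w
    have h1 : v - (A w + t) = e.symm (L v + b - (1 / 2 : ℝ) • w) := by
      rw [map_sub, map_add, map_smul, ← he1, e.symm_apply_apply, hA1, ht]
      abel
    rw [h1]
    exact hsymm _
  by_cases ht3 : ‖t‖ ≤ 3
  · obtain ⟨ω, hω⟩ := exists_app hd heps hM A (fun x => (hAhalf x).trans (by linarith [norm_nonneg x])) t ht3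
    refine ⟨ω, fun v w hv hw ρ hρ hle => ?_⟩
    have h1 := (hkey v w).trans hle
    have h2 := hω w hw
    have h3 : v - app (eps / (d : ℝ) ^ 2) ω w = (v - (A w + t)) - (app (eps / (d : ℝ) ^ 2) ω w - (A w + t)) := by abel
    rw [h3]
    exact (norm_sub_le _ _).trans (by linarith)
  · push Not at ht3
    refine ⟨⟨fun _ _ => 0, fun _ => 0⟩, fun v w hv hw ρ hρ hle => ?_⟩
    exfalso
    have h1 := (hkey v w).trans hle
    have h2 : t = v - (v - (A w + t)) - A w := by abel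
    have h3 : ‖t‖ ≤ ‖v‖ + ‖v - (A w + t)‖ + ‖A w‖ := by
      conv_lhs => rw [h2]
      exact (norm_sub_le _ _).trans (by gcongr; exact norm_sub_le _ _)
    have h4 := hAhalf w
    linarith

end Newton54G
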