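import Pool.Agent.Lib.MP_54d165_co.GR.Defs

/-! # Row GR-S: points of the body near a tip -/

namespace Newton54G

open scoped RealInnerProductSpace
open MeasureTheory Metric

variable {E : Type*} [NormedAddCommGroup E] [InnerProductSpace ℝ E]

/-- Suppose not: all `w ∈ T`, `w ≠ v`, and (Cauchy-Schwarz) all `w` in the ball of radius `s` satisfy `⟪w, c⟫ < ⟪y, c⟫`.
The union `T ∪ closedBall 0 s` is contained in `insert v R`, `R` the set of these `w`; `y` is a point `(1 - t) v + t y'` with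
`y' ∈ convexHull R` (`convexHull_insert`, `R` is nonempty since it contains `0` — note `0 < ⟪y, c⟫` by `h2`), `⟪y', c⟫ < ⟪y, c⟫`
since `R` lies in an open half-space (convex). As `y ≠ v`, `t > 0`, so `⟪y, c⟫ < ⟪y, c⟫`. -/
theorem support_lemma {T : Set E} {s : ℝ} (hs : 0 ≤ s) {y v c : E} (hy : y ∈ bodyS T s) (hyv : y ≠ v)
    (h1 : ⟪v, c⟫ ≤ ⟪y, c⟫) (h2 : s * ‖c‖ < ⟪y, c⟫) : ∃ w ∈ T, w ≠ v ∧ ⟪y, c⟫ ≤ ⟪w, c⟫ := by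
  by_contra hcon
  push Not at hcon
  have hRc : Convex ℝ {w : E | ⟪w, c⟫ < ⟪y, c⟫} := by
    intro a ha b hb p q hp hq hpq
    have ha' : ⟪a, c⟫ < ⟪y, c⟫ := ha
    have hb' : ⟪b, c⟫ < ⟪y, c⟫ := hb
    show ⟪p • a + q • b, c⟫ < ⟪y, c⟫
    rw [inner_add_left, real_inner_smul_left, real_inner_smul_left]
    rcases hp.eq_or_lt with hp0 | hp0
    · have hq1 : q = 1 := by linarith
      rw [← hp0, hq1]
      linarith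
    · have e1 : p * ⟪a, c⟫ < p * ⟪y, c⟫ := mul_lt_mul_of_pos_left ha' hp0
      have e2 : q * ⟪b, c⟫ ≤ q * ⟪y, c⟫ := mul_le_mul_of_nonneg_left hb'.le hq
      have e3 : p * ⟪y, c⟫ + q * ⟪y, c⟫ = ⟪y, c⟫ := by rw [← add_mul, hpq, one_mul]
      linarith
  have hpos : 0 < ⟪y, c⟫ := lt_of_le_of_lt (mul_nonneg hs (norm_nonneg _)) h2
  have hRne : {w : E | ⟪w, c⟫ < ⟪y, c⟫}.Nonempty := ⟨0, by
    show ⟪(0 : E), c⟫ < ⟪y, c⟫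
    rw [inner_zero_left]
    exact hpos⟩
  have hsub : T ∪ closedBall 0 s ⊆ insert v {w : E | ⟪w, c⟫ < ⟪y, c⟫} := by
    rintro w (hw | hw)
    · by_cases hwv : w = v
      · exact Or.inl hwv
      · exact Or.inr (hcon w hw hwv)
    · right
      show ⟪w, c⟫ < ⟪y, c⟫
      have e1 : ⟪w, c⟫ ≤ ‖w‖ * ‖c‖ := real_inner_le_norm w c
      have e2 : ‖w‖ ≤ s := by simpa using hw
      have e3 : ‖w‖ * ‖c‖ ≤ s * ‖c‖ := mul_le_mul_of_nonneg_right e2 (norm_nonneg _)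
      linarith
  have hy2 : y ∈ convexHull ℝ (insert v {w : E | ⟪w, c⟫ < ⟪y, c⟫}) := convexHull_mono hsub hy
  rw [convexHull_insert hRne, hRc.convexHull_eq, mem_convexJoin] at hy2
  obtain ⟨a, ha, b, hb, hyab⟩ := hy2
  rw [Set.mem_singleton_iff] at ha
  subst ha
  obtain ⟨p, q, hp, hq, hpq, hyE⟩ := hyab
  have hb' : ⟪b, c⟫ < ⟪y, c⟫ := hb
  have hq0 : 0 < q := by
    rcases hq.eq_or_lt with h | h
    · exfalso
      apply hyv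
      have hp1 : p = 1 := by linarith
      rw [← hyE, ← h, hp1, one_smul, zero_smul, add_zero]
    · exact h
  have hE : ⟪y, c⟫ = p * ⟪a, c⟫ + q * ⟪b, c⟫ := by
    conv_lhs => rw [← hyE]
    rw [inner_add_left, real_inner_smul_left, real_inner_smul_left]
  have e1 : p * ⟪a, c⟫ ≤ p * ⟪y, c⟫ := mul_le_mul_of_nonneg_left h1 hp
  have e2 : q * ⟪b, c⟫ < q * ⟪y, c⟫ := mul_lt_mul_of_pos_left hb' hq0
  have e3 : p * ⟪y, c⟫ + q * ⟪y, c⟫ = ⟪y, c⟫ := by rw [← add_mul, hpq, one_mul]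
  linarith

theorem S_half {w c : E} (hw : ‖w‖ ≤ 1) (h : ‖c‖ ^ 2 ≤ ⟪w, c⟫) : ‖c - (1 / 2 : ℝ) • w‖ ≤ 1 / 2 := by
  have e1 : ‖c - (1 / 2 : ℝ) • w‖ ^ 2 = ‖c‖ ^ 2 - ⟪w, c⟫ + ‖w‖ ^ 2 / 4 := by
    rw [norm_sub_sq_real, real_inner_smul_right, norm_smul, real_inner_comm]
    simp only [Real.norm_eq_abs]
    rw [abs_of_pos (by norm_num : (0 : ℝ) < 1 / 2)]
    ring
  have e2 : ‖w‖ ^ 2 ≤ 1 := by
    have := norm_nonneg w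
    nlinarith
  have e3 : ‖c - (1 / 2 : ℝ) • w‖ ^ 2 ≤ (1 / 2 : ℝ) ^ 2 := by
    rw [e1]
    linarith
  exact (sq_le_sq₀ (norm_nonneg _) (by norm_num)).1 e3

/-- Let `z = v - y`, `lam = max 1 (⟪v, z⟫ / ‖z‖ ^ 2)`, `c = v - lam z`. If `‖c‖ > s` use `support_lemma`: `⟪c, z⟫ ≤ 0` by the choice of
`lam`, so `⟪v, c⟫ ≤ ⟪y, c⟫` (`y = v - z`); and `⟪y, c⟫ = ‖c‖ ^ 2 + (lam - 1) ⟪z, c⟫ = ‖c‖ ^ 2` since either `lam = 1` or
`lam = ⟪v, z⟫ / ‖z‖ ^ 2` and `⟪z, c⟫ = 0`. So some `w ≠ v` in `T` has `‖c‖ ^ 2 ≤ ⟪w, c⟫`, which with `‖w‖ ≤ 1` gives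
`‖c - w / 2‖ ^ 2 = ‖c‖ ^ 2 - ⟪w, c⟫ + ‖w‖ ^ 2 / 4 ≤ 1 / 4`. -/
theorem near_point {T : Set E} (hT : ∀ w ∈ T, ‖w‖ ≤ 1) {s : ℝ} (hs : 0 ≤ s) {y v : E} (hy : y ∈ bodyS T s)
    (hyv : y ≠ v) :
    ‖v - max 1 (⟪v, v - y⟫ / ‖v - y‖ ^ 2) • (v - y)‖ ≤ s ∨
      ∃ w ∈ T, w ≠ v ∧ ‖v - max 1 (⟪v, v - y⟫ / ‖v - y‖ ^ 2) • (v - y) - (1 / 2 : ℝ) • w‖ ≤ 1 / 2 := by
  obtain ⟨z, hz⟩ : ∃ z, z = v - y := ⟨_, rfl⟩
  have hz0 : z ≠ 0 := by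
    rw [hz]
    exact sub_ne_zero.2 (Ne.symm hyv)
  have hn : 0 < ‖z‖ ^ 2 := by
    have := norm_pos_iff.2 hz0
    positivity
  rw [← hz]
  obtain ⟨lam, hlam⟩ : ∃ lam, lam = max 1 (⟪v, z⟫ / ‖z‖ ^ 2) := ⟨_, rfl⟩
  rw [← hlam]
  obtain ⟨c, hc⟩ : ∃ c, c = v - lam • z := ⟨_, rfl⟩
  rw [← hc]
  by_cases hcs : ‖c‖ ≤ s
  · exact Or.inl hcs
  right
  push Not at hcs
  have hzc : ⟪z, c⟫ = ⟪v, z⟫ - lam * ‖z‖ ^ 2 := by
    rw [hc, inner_sub_right, real_inner_smul_right, real_inner_self_eq_norm_sq, real_inner_comm]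
  have hzc0 : ⟪z, c⟫ ≤ 0 := by
    have e1 : ⟪v, z⟫ / ‖z‖ ^ 2 ≤ lam := by rw [hlam]; exact le_max_right _ _
    rw [div_le_iff₀ hn] at e1
    linarith
  have hprod : (lam - 1) * ⟪z, c⟫ = 0 := by
    rcases max_choice 1 (⟪v, z⟫ / ‖z‖ ^ 2) with h | h
    · rw [hlam, h]
      ring
    · have : ⟪z, c⟫ = 0 := by
        rw [hzc, hlam, h, div_mul_cancel₀ _ hn.ne', sub_self]
      rw [this, mul_zero]
  have hyc : y = c + (lam - 1) • z := by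
    rw [hc, sub_smul, one_smul, hz]
    abel
  have hyc2 : ⟪y, c⟫ = ‖c‖ ^ 2 := by
    conv_lhs => rw [hyc]
    rw [inner_add_left, real_inner_smul_left, hprod, add_zero, real_inner_self_eq_norm_sq]
  have h1 : ⟪v, c⟫ ≤ ⟪y, c⟫ := by
    have e1 : v = y + z := by rw [hz]; abel
    have e2 : ⟪v, c⟫ = ⟪y, c⟫ + ⟪z, c⟫ := by
      conv_lhs => rw [e1]
      rw [inner_add_left]
    linarith
  have h2 : s * ‖c‖ < ⟪y, c⟫ := by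
    rw [hyc2]
    have := hs.trans_lt hcs
    nlinarith
  obtain ⟨w, hw, hwv, hwc⟩ := support_lemma hs hy hyv h1 h2
  exact ⟨w, hw, hwv, S_half (hT w hw) (hyc2 ▸ hwc)⟩

/-- If `‖v‖ > s` apply `support_lemma` with `y = (1 + t) v` and `c = v`: some `w ≠ v` has `‖v‖ ^ 2 ≤ (1 + t) ‖v‖ ^ 2 ≤ ⟪w, v⟫`, and
then `‖v - w / 2‖ ≤ 1 / 2` as in `near_point`. -/
theorem near_point_id {T : Set E} (hT : ∀ w ∈ T, ‖w‖ ≤ 1) {s : ℝ} (hs : 0 ≤ s) {v : E} {t : ℝ} (ht : 0 < t)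
    (hy : (1 + t) • v ∈ bodyS T s) :
    ‖v‖ ≤ s ∨ ∃ w ∈ T, w ≠ v ∧ ‖v - (1 / 2 : ℝ) • w‖ ≤ 1 / 2 := by
  by_cases hcs : ‖v‖ ≤ s
  · exact Or.inl hcs
  right
  push Not at hcs
  have hpos := hs.trans_lt hcs
  have hin : ⟪(1 + t) • v, v⟫ = (1 + t) * ‖v‖ ^ 2 := by
    rw [real_inner_smul_left, real_inner_self_eq_norm_sq]
  have hq : 0 < ‖v‖ ^ 2 := by positivity
  have htq : 0 < t * ‖v‖ ^ 2 := by positivity
  have hyv : (1 + t) • v ≠ v := by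
    intro h
    have e1 : ⟪(1 + t) • v, v⟫ = ⟪v, v⟫ := by rw [h]
    rw [hin, real_inner_self_eq_norm_sq] at e1
    linarith
  obtain ⟨w, hw, hwv, hwc⟩ := support_lemma (c := v) hs hy hyv
    (by rw [hin, real_inner_self_eq_norm_sq]; linarith) (by rw [hin]; nlinarith)
  refine ⟨w, hw, hwv, S_half (hT w hw) ?_⟩
  rw [hin] at hwc
  linarith

end Newton54G
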