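import Pool.Agent.Lib.MP_54d165_co.GR.Defs2
import Pool.Agent.Lib.MP_54d165_co.GR.S

/-! # Row n54-S2: points of the body near a tip, symmetric version -/

namespace Newton54G

open scoped RealInnerProductSpace
open MeasureTheory Metric

variable {E : Type*} [NormedAddCommGroup E] [InnerProductSpace ℝ E]

/-- As `near_point` in S.lean (copy its proof). Additional: with `c` the point in the norm, `⟪v, c⟫ ≥ 0`: if the maximum is `1` then `c = y` and `hpos`; otherwise `⟪v - y, c⟫ = 0`, so `⟪v, c⟫ = ‖c‖ ^ 2`. The `w` obtained from `support_lemma`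
satisfies `0 ≤ s ‖c‖ < ‖c‖ ^ 2 ≤ ⟪w, c⟫` (in the case `‖c‖ > s`), hence `w ≠ -v`. -/
theorem near_point_sym {T : Set E} (hT : ∀ w ∈ T, ‖w‖ ≤ 1) {s : ℝ} (hs : 0 ≤ s) {y v : E} (hy : y ∈ bodyS T s)
    (hyv : y ≠ v) (hpos : 0 ≤ ⟪v, y⟫) :
    ‖v - max 1 (⟪v, v - y⟫ / ‖v - y‖ ^ 2) • (v - y)‖ ≤ s ∨
      ∃ w ∈ T, w ≠ v ∧ w ≠ -v ∧
        ‖v - max 1 (⟪v, v - y⟫ / ‖v - y‖ ^ 2) • (v - y) - (1 / 2 : ℝ) • w‖ ≤ 1 / 2 := by
  obtain ⟨z, hz⟩ : ∃ z, z = v - y := ⟨_, rfl⟩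
  have hz0 : z ≠ 0 := by
    rw [hz]
    exact sub_ne_zero.2 (Ne.symm hyv)
  have hn : 0 < ‖z‖ ^ 2 := by
    have := norm_pos_iff.2 hz0
    positivity
  rw [← hz]
  obtain ⟨lam, hlam⟩ : ∃ lam, lam = max 1 (⟪v, z⟫ / ‖z‖ ^ 2) := ⟨_, rfl⟩
  rw [← hlam]
  obtain ⟨c, hc⟩ : ∃ c, c = v - lam • z := ⟨_, rfl⟩
  rw [← hc]
  by_cases hcs : ‖c‖ ≤ s
  · exact Or.inl hcs
  right
  push Not at hcs
  have hzc : ⟪z, c⟫ = ⟪v, z⟫ - lam * ‖z‖ ^ 2 := by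
    rw [hc, inner_sub_right, real_inner_smul_right, real_inner_self_eq_norm_sq, real_inner_comm]
  have hzc0 : ⟪z, c⟫ ≤ 0 := by
    have e1 : ⟪v, z⟫ / ‖z‖ ^ 2 ≤ lam := by rw [hlam]; exact le_max_right _ _
    rw [div_le_iff₀ hn] at e1
    linarith
  have hcase : lam = 1 ∨ ⟪z, c⟫ = 0 := by
    rcases max_choice 1 (⟪v, z⟫ / ‖z‖ ^ 2) with h | h
    · left
      rw [hlam, h]
    · right
      rw [hzc, hlam, h, div_mul_cancel₀ _ hn.ne', sub_self]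
  have hprod : (lam - 1) * ⟪z, c⟫ = 0 := by
    rcases hcase with h | h
    · rw [h, sub_self, zero_mul]
    · rw [h, mul_zero]
  have hyc : y = c + (lam - 1) • z := by
    rw [hc, sub_smul, one_smul, hz]
    abel
  have hyc2 : ⟪y, c⟫ = ‖c‖ ^ 2 := by
    conv_lhs => rw [hyc]
    rw [inner_add_left, real_inner_smul_left, hprod, add_zero, real_inner_self_eq_norm_sq]
  have h1 : ⟪v, c⟫ ≤ ⟪y, c⟫ := by
    have e1 : v = y + z := by rw [hz]; abel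
    have e2 : ⟪v, c⟫ = ⟪y, c⟫ + ⟪z, c⟫ := by
      conv_lhs => rw [e1]
      rw [inner_add_left]
    linarith
  have h2 : s * ‖c‖ < ⟪y, c⟫ := by
    rw [hyc2]
    have := hs.trans_lt hcs
    nlinarith
  have hvc : 0 ≤ ⟪v, c⟫ := by
    rcases hcase with h | h
    · have hcy : c = y := by
        rw [hc, h, one_smul, hz]
        abel
      rw [hcy]
      exact hpos
    · have e1 : v = c + lam • z := by rw [hc]; abel
      have e2 : ⟪v, c⟫ = ‖c‖ ^ 2 := by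
        conv_lhs => rw [e1]
        rw [inner_add_left, real_inner_smul_left, h, mul_zero, add_zero, real_inner_self_eq_norm_sq]
      rw [e2]
      positivity
  obtain ⟨w, hw, hwv, hwc⟩ := support_lemma hs hy hyv h1 h2
  refine ⟨w, hw, hwv, ?_, S_half (hT w hw) (hyc2 ▸ hwc)⟩
  intro hwn
  rw [hwn, hyc2, inner_neg_left] at hwc
  have hc0 : 0 < ‖c‖ := hs.trans_lt hcs
  have hc2 : 0 < ‖c‖ ^ 2 := by positivity
  linarith

/-- As `near_point_id` in S.lean; the `w` satisfies `0 < ‖v‖ ^ 2 ≤ ⟪w, v⟫`, hence `w ≠ -v`. -/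
theorem near_point_id_sym {T : Set E} (hT : ∀ w ∈ T, ‖w‖ ≤ 1) {s : ℝ} (hs : 0 ≤ s) {v : E} {t : ℝ} (ht : 0 < t)
    (hy : (1 + t) • v ∈ bodyS T s) :
    ‖v‖ ≤ s ∨ ∃ w ∈ T, w ≠ v ∧ w ≠ -v ∧ ‖v - (1 / 2 : ℝ) • w‖ ≤ 1 / 2 := by
  by_cases hcs : ‖v‖ ≤ s
  · exact Or.inl hcs
  right
  push Not at hcs
  have hpos := hs.trans_lt hcs
  have hin : ⟪(1 + t) • v, v⟫ = (1 + t) * ‖v‖ ^ 2 := by
    rw [real_inner_smul_left, real_inner_self_eq_norm_sq]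
  have hq : 0 < ‖v‖ ^ 2 := by positivity
  have htq : 0 < t * ‖v‖ ^ 2 := by positivity
  have hyv : (1 + t) • v ≠ v := by
    intro h
    have e1 : ⟪(1 + t) • v, v⟫ = ⟪v, v⟫ := by rw [h]
    rw [hin, real_inner_self_eq_norm_sq] at e1
    linarith
  obtain ⟨w, hw, hwv, hwc⟩ := support_lemma (c := v) hs hy hyv
    (by rw [hin, real_inner_self_eq_norm_sq]; linarith) (by rw [hin]; nlinarith)
  rw [hin] at hwc
  refine ⟨w, hw, hwv, ?_, S_half (hT w hw) (by linarith)⟩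
  intro hwn
  rw [hwn, inner_neg_left, real_inner_self_eq_norm_sq] at hwc
  linarith

end Newton54G
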