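import Mathlib

/-! # Row GR-U1: upper bound, one step of the greedy covering by reflected copies -/

namespace Newton54G

open scoped ENNReal Pointwise
open MeasureTheory Metric

/-- Let `X = (1 + del + lam) • C` (convex, compact, positive volume). Fubini: `∫⁻ x in X, volume (V ∩ {y | x - y ∈ lam • C}) = ∫⁻ y in V, volume (X ∩ {x | x - y ∈ lam • C})`, and for `y ∈ V ⊆ (1 + del) • C` the set
`{x | x - y ∈ lam • C} = y + lam • C` is contained in `X` (`Convex.add_smul`), with volume `lam ^ d volume C` (`Measure.addHaar_smul`). So the average over `X` of the first integrand is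
`lam ^ d volume C * volume V / volume X = (lam / (1 + del + lam)) ^ d * volume V`; some `x` is at least the average (`exists_setLAverage_le`). (`volume X = (1 + del + lam) ^ d volume C`.) -/
theorem greedy_step {d : ℕ} {C : Set (EuclideanSpace ℝ (Fin d))} (hC : Convex ℝ C) (hc : IsCompact C)
    (hi : (interior C).Nonempty) {lam del : ℝ} (hl : 0 < lam) (hd : 0 < del) {V : Set (EuclideanSpace ℝ (Fin d))}
    (hV : MeasurableSet V) (hVC : V ⊆ (1 + del) • C) :
    ∃ x : EuclideanSpace ℝ (Fin d), ENNReal.ofReal ((lam / (1 + del + lam)) ^ d) * volume V ≤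
      volume (V ∩ {y | x - y ∈ lam • C}) := by
  classical
  obtain ⟨r, hr⟩ : ∃ r : ℝ, r = 1 + del + lam := ⟨_, rfl⟩
  have hr0 : 0 < r := by rw [hr]; linarith
  obtain ⟨X, hX⟩ : ∃ X : Set (EuclideanSpace ℝ (Fin d)), X = r • C := ⟨_, rfl⟩
  obtain ⟨K, hK⟩ : ∃ K : Set (EuclideanSpace ℝ (Fin d)), K = lam • C := ⟨_, rfl⟩
  have hXc : IsCompact X := by rw [hX]; exact hc.smul r
  have hKc : IsCompact K := by rw [hK]; exact hc.smul lam
  have hKm : MeasurableSet K := hKc.isClosed.measurableSet
  have hXm : MeasurableSet X := hXc.isClosed.measurableSet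
  have hCpos : 0 < volume C := Measure.measure_pos_of_nonempty_interior volume hi
  have hCtop : volume C ≠ ⊤ := hc.measure_lt_top.ne
  have hfin : Module.finrank ℝ (EuclideanSpace ℝ (Fin d)) = d := by simp
  have hXv : volume X = ENNReal.ofReal (r ^ d) * volume C := by
    rw [hX, Measure.addHaar_smul, hfin, abs_of_pos (pow_pos hr0 d)]
  have hKv : volume K = ENNReal.ofReal (lam ^ d) * volume C := by
    rw [hK, Measure.addHaar_smul, hfin, abs_of_pos (pow_pos hl d)]
  have hX0 : volume X ≠ 0 := by
    rw [hXv]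
    exact mul_ne_zero (by rw [Ne, ENNReal.ofReal_eq_zero, not_le]; positivity) hCpos.ne'
  have hXtop : volume X ≠ ⊤ := hXc.measure_lt_top.ne
  have hVtop : volume V ≠ ⊤ := by
    refine ne_top_of_le_ne_top ?_ (measure_mono hVC)
    exact (hc.smul (1 + del)).measure_lt_top.ne
  have hms : ∀ x : EuclideanSpace ℝ (Fin d), MeasurableSet {y | x - y ∈ K} := fun x =>
    hKm.preimage (measurable_const.sub measurable_id)
  have hms' : ∀ y : EuclideanSpace ℝ (Fin d), MeasurableSet {x | x - y ∈ K} := fun y =>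
    hKm.preimage (measurable_id.sub measurable_const)
  obtain ⟨g, hg⟩ : ∃ g : EuclideanSpace ℝ (Fin d) → EuclideanSpace ℝ (Fin d) → ℝ≥0∞,
      g = fun x y => K.indicator 1 (x - y) := ⟨_, rfl⟩
  have hgm : Measurable (Function.uncurry g) := by
    rw [hg]
    exact (measurable_one.indicator hKm).comp (measurable_fst.sub measurable_snd)
  have h1 : ∀ x, ∫⁻ y, g x y ∂(volume.restrict V) = volume (V ∩ {y | x - y ∈ K}) := by
    intro x
    have e : (fun y => g x y) = ({y | x - y ∈ K}).indicator 1 := by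
      funext y
      rw [hg]
      simp only [Set.indicator, Set.mem_ofPred_eq, Pi.one_apply]
    rw [e, lintegral_indicator_one (hms x), Measure.restrict_apply (hms x), Set.inter_comm]
  have h2 : ∀ y ∈ V, volume K ≤ ∫⁻ x, g x y ∂(volume.restrict X) := by
    intro y hy
    have e : (fun x => g x y) = ({x | x - y ∈ K}).indicator 1 := by
      funext x
      rw [hg]
      simp only [Set.indicator, Set.mem_ofPred_eq, Pi.one_apply]
    have hsub : {x | x - y ∈ K} ⊆ X := by
      intro x hx
      have h3 : r • C = (1 + del) • C + lam • C := by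
        rw [hr]
        exact hC.add_smul (by linarith) hl.le
      rw [hX, h3]
      rw [Set.mem_ofPred_eq, hK] at hx
      exact ⟨y, hVC hy, x - y, hx, add_sub_cancel y x⟩
    rw [e, lintegral_indicator_one (hms' y), Measure.restrict_apply (hms' y), Set.inter_eq_left.2 hsub]
    have h4 : {x : EuclideanSpace ℝ (Fin d) | x - y ∈ K} = (fun x => x + -y) ⁻¹' K := by
      ext x
      rw [Set.mem_ofPred_eq, Set.mem_preimage, sub_eq_add_neg]
    rw [h4, measure_preimage_add_right]
  have h3 : volume K * volume V ≤ ∫⁻ x in X, volume (V ∩ {y | x - y ∈ K}) := by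
    calc volume K * volume V = ∫⁻ _ in V, volume K := (setLIntegral_const V _).symm
      _ ≤ ∫⁻ y in V, ∫⁻ x, g x y ∂(volume.restrict X) := setLIntegral_mono' hV h2
      _ = ∫⁻ x in X, ∫⁻ y, g x y ∂(volume.restrict V) :=
          (lintegral_lintegral_swap hgm.aemeasurable).symm
      _ = ∫⁻ x in X, volume (V ∩ {y | x - y ∈ K}) := lintegral_congr fun x => h1 x
  have hint : ∫⁻ x in X, volume (V ∩ {y | x - y ∈ K}) ≠ ⊤ := by
    refine ne_top_of_le_ne_top (b := volume V * volume X) (ENNReal.mul_ne_top hVtop hXtop) ?_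
    rw [← setLIntegral_const]
    exact lintegral_mono fun x => measure_mono Set.inter_subset_left
  obtain ⟨x, -, hx⟩ := exists_setLAverage_le hX0 hXm.nullMeasurableSet hint
  refine ⟨x, ?_⟩
  rw [← hr, ← hK]
  refine le_trans ?_ hx
  rw [setLAverage_eq, ENNReal.le_div_iff_mul_le (Or.inl hX0) (Or.inl hXtop)]
  refine le_trans (le_of_eq ?_) h3
  rw [hXv, hKv, div_pow, ENNReal.ofReal_div_of_pos (pow_pos hr0 d)]
  have h5 : ENNReal.ofReal (r ^ d) ≠ 0 := by rw [Ne, ENNReal.ofReal_eq_zero, not_le]; positivity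
  have h6 : ENNReal.ofReal (r ^ d) ≠ ⊤ := ENNReal.ofReal_ne_top
  calc ENNReal.ofReal (lam ^ d) / ENNReal.ofReal (r ^ d) * volume V * (ENNReal.ofReal (r ^ d) * volume C)
      = (ENNReal.ofReal (lam ^ d) / ENNReal.ofReal (r ^ d) * ENNReal.ofReal (r ^ d)) *
          (volume V * volume C) := by ring
    _ = ENNReal.ofReal (lam ^ d) * (volume V * volume C) := by rw [ENNReal.div_mul_cancel h5 h6]
    _ = ENNReal.ofReal (lam ^ d) * volume C * volume V := by ring

end Newton54G
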