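import Pool.Agent.Lib.MP_54d165_co.GR.U1

/-! # Row GR-U2: upper bound, covering by reflected copies -/

namespace Newton54G

open scoped ENNReal Pointwise
open MeasureTheory Metric

theorem U2_closed_refl {d : ℕ} {C : Set (EuclideanSpace ℝ (Fin d))} (hc : IsCompact C) (lam : ℝ)
    (x : EuclideanSpace ℝ (Fin d)) : IsClosed {y | x - y ∈ lam • C} := by
  have h1 : IsClosed (lam • C) := (hc.smul lam).isClosed
  exact h1.preimage (by fun_prop : Continuous fun y : EuclideanSpace ℝ (Fin d) => x - y)

theorem U2_p_le_one {d : ℕ} {lam del : ℝ} (hl : 0 < lam) (hd : 0 < del) :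
    (lam / (1 + del + lam)) ^ d ≤ 1 := by
  apply pow_le_one₀ (by positivity)
  rw [div_le_one (by positivity)]
  linarith

theorem U2_p_nonneg {d : ℕ} {lam del : ℝ} (hl : 0 < lam) (hd : 0 < del) :
    0 ≤ (lam / (1 + del + lam)) ^ d := by
  positivity

theorem U2_vol_smul {d : ℕ} (C : Set (EuclideanSpace ℝ (Fin d))) {r : ℝ} (hr : 0 ≤ r) :
    volume (r • C) = ENNReal.ofReal (r ^ d) * volume C := by
  rw [Measure.addHaar_smul, finrank_euclideanSpace_fin, abs_of_nonneg (pow_nonneg hr d)]

/-- Induction on `n` with `greedy_step` for `V = (1 + del) • C \ ⋃ i, {y | x i - y ∈ lam • C}` (measurable, compact minus closed sets). `p = (lam / (1 + del + lam)) ^ d < 1` or `≤ 1`. -/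
theorem exists_points {d : ℕ} {C : Set (EuclideanSpace ℝ (Fin d))} (hC : Convex ℝ C) (hc : IsCompact C)
    (hi : (interior C).Nonempty) {lam del : ℝ} (hl : 0 < lam) (hd : 0 < del) (n : ℕ) :
    ∃ x : Fin n → EuclideanSpace ℝ (Fin d), volume ((1 + del) • C \ ⋃ i, {y | x i - y ∈ lam • C}) ≤
      ENNReal.ofReal ((1 - (lam / (1 + del + lam)) ^ d) ^ n * (1 + del) ^ d) * volume C := by
  induction n with
  | zero =>
    refine ⟨fun i => Fin.elim0 i, ?_⟩
    have h0 : (0 : ℝ) ≤ 1 + del := by linarith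
    rw [pow_zero, one_mul, ← U2_vol_smul C h0]
    exact measure_mono Set.sdiff_subset
  | succ n ih =>
    obtain ⟨x, hx⟩ := ih
    set V : Set (EuclideanSpace ℝ (Fin d)) := (1 + del) • C \ ⋃ i, {y | x i - y ∈ lam • C} with hVdef
    have hVm : MeasurableSet V := by
      apply MeasurableSet.diff
      · exact (hc.smul (1 + del)).isClosed.measurableSet
      · exact MeasurableSet.iUnion fun i => (U2_closed_refl hc lam (x i)).measurableSet
    have hVC : V ⊆ (1 + del) • C := Set.sdiff_subset
    obtain ⟨x', hx'⟩ := greedy_step hC hc hi hl hd hVm hVC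
    have hAm : MeasurableSet {y | x' - y ∈ lam • C} := (U2_closed_refl hc lam x').measurableSet
    have hVfin : volume V ≠ ∞ := by
      apply ne_top_of_le_ne_top _ (measure_mono hVC)
      exact (hc.smul (1 + del)).measure_lt_top.ne
    refine ⟨Fin.snoc x x', ?_⟩
    have hsub : (1 + del) • C \ ⋃ i, {y | (Fin.snoc x x' : Fin (n + 1) → EuclideanSpace ℝ (Fin d)) i - y ∈ lam • C} ⊆
        V \ {y | x' - y ∈ lam • C} := by
      rintro y ⟨hy1, hy2⟩
      simp only [Set.mem_iUnion, not_exists] at hy2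
      refine ⟨⟨hy1, ?_⟩, ?_⟩
      · simp only [Set.mem_iUnion, not_exists]
        intro i hi'
        apply hy2 (Fin.castSucc i)
        simpa using hi'
      · intro hy3
        apply hy2 (Fin.last n)
        simpa using hy3
    set p : ℝ := (lam / (1 + del + lam)) ^ d with hp
    have hp1 : p ≤ 1 := U2_p_le_one hl hd
    have hp0 : 0 ≤ p := U2_p_nonneg hl hd
    have hdiff : volume (V \ {y | x' - y ∈ lam • C}) ≤ ENNReal.ofReal (1 - p) * volume V := by
      have h1 : volume (V ∩ {y | x' - y ∈ lam • C}) + volume (V \ {y | x' - y ∈ lam • C}) = volume V :=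
        measure_inter_add_sdiff V hAm
      have h2 : ENNReal.ofReal p * volume V + volume (V \ {y | x' - y ∈ lam • C}) ≤
          ENNReal.ofReal p * volume V + ENNReal.ofReal (1 - p) * volume V := by
        rw [← add_mul, ← ENNReal.ofReal_add hp0 (by linarith)]
        have h3 : p + (1 - p) = 1 := by ring
        rw [h3, ENNReal.ofReal_one, one_mul]
        calc ENNReal.ofReal p * volume V + volume (V \ {y | x' - y ∈ lam • C})
            ≤ volume (V ∩ {y | x' - y ∈ lam • C}) + volume (V \ {y | x' - y ∈ lam • C}) := by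
              gcongr
          _ = volume V := h1
      have h4 : ENNReal.ofReal p * volume V ≠ ∞ := ENNReal.mul_ne_top ENNReal.ofReal_ne_top hVfin
      exact (ENNReal.add_le_add_iff_left h4).1 h2
    calc volume ((1 + del) • C \ ⋃ i, {y | (Fin.snoc x x' : Fin (n + 1) → EuclideanSpace ℝ (Fin d)) i - y ∈ lam • C})
        ≤ volume (V \ {y | x' - y ∈ lam • C}) := measure_mono hsub
      _ ≤ ENNReal.ofReal (1 - p) * volume V := hdiff
      _ ≤ ENNReal.ofReal (1 - p) * (ENNReal.ofReal ((1 - p) ^ n * (1 + del) ^ d) * volume C) := by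
          gcongr
      _ = ENNReal.ofReal ((1 - p) ^ (n + 1) * (1 + del) ^ d) * volume C := by
          rw [← mul_assoc, ← ENNReal.ofReal_mul (by linarith)]
          have h5 : (1 - p) * ((1 - p) ^ n * (1 + del) ^ d) = (1 - p) ^ (n + 1) * (1 + del) ^ d := by ring
          rw [h5]

/-- Take the points of `exists_points`. If some `q ∈ C` has `x i - q ∉ (lam + del) • C` for all `i`, then the set `q + del • C` (volume `del ^ d volume C`) is contained in
`(1 + del) • C \ ⋃ i, {y | x i - y ∈ lam • C}` (if `x i - (q + del • c) ∈ lam • C` then `x i - q ∈ lam • C + del • C = (lam + del) • C`); contradiction, as `0 < volume C < ∞`. -/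
theorem exists_cover {d : ℕ} {C : Set (EuclideanSpace ℝ (Fin d))} (hC : Convex ℝ C) (hc : IsCompact C)
    (hi : (interior C).Nonempty) {lam del : ℝ} (hl : 0 < lam) (hd : 0 < del) (n : ℕ)
    (hn : (1 - (lam / (1 + del + lam)) ^ d) ^ n * (1 + del) ^ d < del ^ d) :
    ∃ x : Fin n → EuclideanSpace ℝ (Fin d), ∀ q ∈ C, ∃ i, x i - q ∈ (lam + del) • C := by
  obtain ⟨x, hx⟩ := exists_points hC hc hi hl hd n
  refine ⟨x, ?_⟩
  intro q hq
  by_contra hcon
  push Not at hcon
  have hpos : 0 < volume C := lt_of_lt_of_le (isOpen_interior.measure_pos volume hi) (measure_mono interior_subset)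
  have hfin : volume C ≠ ∞ := hc.measure_lt_top.ne
  have hsub : q +ᵥ (del • C) ⊆ (1 + del) • C \ ⋃ i, {y | x i - y ∈ lam • C} := by
    rintro y ⟨z, ⟨c, hcC, rfl⟩, rfl⟩
    refine ⟨?_, ?_⟩
    · rw [hC.add_smul zero_le_one hd.le, one_smul]
      exact Set.add_mem_add hq (Set.smul_mem_smul_set hcC)
    · simp only [Set.mem_iUnion, not_exists]
      intro i hmem
      apply hcon i
      rw [hC.add_smul hl.le hd.le]
      have h1 : x i - q = (x i - (q + del • c)) + del • c := by abel
      rw [h1]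
      exact Set.add_mem_add hmem (Set.smul_mem_smul_set hcC)
  have hvol : volume (q +ᵥ (del • C)) = ENNReal.ofReal (del ^ d) * volume C := by
    rw [measure_vadd, U2_vol_smul C hd.le]
  have h2 : ENNReal.ofReal (del ^ d) * volume C ≤
      ENNReal.ofReal ((1 - (lam / (1 + del + lam)) ^ d) ^ n * (1 + del) ^ d) * volume C := by
    rw [← hvol]
    exact (measure_mono hsub).trans hx
  have h3 : ENNReal.ofReal (del ^ d) ≤ ENNReal.ofReal ((1 - (lam / (1 + del + lam)) ^ d) ^ n * (1 + del) ^ d) :=
    (ENNReal.mul_le_mul_iff_left hpos.ne' hfin).1 h2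
  have h4 : ENNReal.ofReal ((1 - (lam / (1 + del + lam)) ^ d) ^ n * (1 + del) ^ d) < ENNReal.ofReal (del ^ d) :=
    (ENNReal.ofReal_lt_ofReal_iff (by positivity)).2 hn
  exact absurd h3 (not_le.2 h4)

/-- Choose `a` in the interior of `C`. If `x i - q ∈ r • C`, `0 < r < 1`, then `x i - q + (1 - r) • a` is in the interior of `C` (`Convex.combo_self_interior_mem_interior` or similar). The isometries are
`g i z = x i + (1 - r) • a - z` (point reflections, `IsometryEquiv.subLeft`), the open set is the union of the images `g i '' interior C`. -/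
theorem cover_of_points {d : ℕ} {C : Set (EuclideanSpace ℝ (Fin d))} (hC : Convex ℝ C)
    (hi : (interior C).Nonempty) {r : ℝ} (hr : 0 < r) (hr1 : r < 1) (n : ℕ) (x : Fin n → EuclideanSpace ℝ (Fin d))
    (hx : ∀ q ∈ C, ∃ i, x i - q ∈ r • C) :
    ∃ (g : Fin n → (EuclideanSpace ℝ (Fin d) ≃ᵢ EuclideanSpace ℝ (Fin d))) (U : Set (EuclideanSpace ℝ (Fin d))),
      IsOpen U ∧ C ⊆ U ∧ U ⊆ ⋃ i, g i '' C := by
  obtain ⟨a, ha⟩ := hi
  refine ⟨fun i => IsometryEquiv.subLeft (x i + (1 - r) • a),
    ⋃ i, (IsometryEquiv.subLeft (x i + (1 - r) • a)) '' interior C, ?_, ?_, ?_⟩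
  · refine isOpen_iUnion fun i => ?_
    exact (IsometryEquiv.subLeft (x i + (1 - r) • a)).toHomeomorph.isOpenMap _ isOpen_interior
  · intro q hq
    obtain ⟨i, c, hcC, hxi⟩ := hx q hq
    refine Set.mem_iUnion.2 ⟨i, x i + (1 - r) • a - q, ?_, ?_⟩
    · have h1 : x i + (1 - r) • a - q = r • c + (1 - r) • a := by
        have h2 : r • c = x i - q := hxi
        rw [h2]
        abel
      rw [h1]
      exact hC.combo_self_interior_mem_interior hcC ha hr.le (by linarith) (by ring)
    · change (x i + (1 - r) • a) - (x i + (1 - r) • a - q) = q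
      abel
  · exact Set.iUnion_mono fun i => Set.image_mono interior_subset

end Newton54G
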