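import Mathlib

/-! # Row GR-U3: upper bound, numbers -/

namespace Newton54G

theorem U3_exp : Real.exp (3 / 4) ≤ 212 / 100 := by
  have h1 : Real.exp (3 / 4) ^ 4 = Real.exp 1 ^ 3 := by
    rw [← Real.exp_nat_mul, ← Real.exp_nat_mul]
    norm_num
  have h2 : Real.exp 1 ^ 3 ≤ (2.7182818286 : ℝ) ^ 3 :=
    pow_le_pow_left₀ (Real.exp_pos 1).le Real.exp_one_lt_d9.le 3
  by_contra h3
  rw [not_le] at h3
  have h4 : ((212 / 100 : ℝ)) ^ 4 < Real.exp (3 / 4) ^ 4 :=
    pow_lt_pow_left₀ h3 (by norm_num) (by norm_num)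
  rw [h1] at h4
  have h5 : ((212 / 100 : ℝ)) ^ 4 < (2.7182818286 : ℝ) ^ 3 := lt_of_lt_of_le h4 h2
  norm_num at h5

/-- `del = 1 / (4 d)`, `lam = 1 - 2 del`, `p = (lam / (1 + del + lam)) ^ d`, `n = ⌊p⁻¹ d log (1 + 4 d)⌋₊ + 1`. `(1 - p) ^ n ≤ exp (- p n) < exp (- d log (1 + 4 d)) = (del / (1 + del)) ^ d`.
`(1 + del + lam) / lam = 2 (1 + 3 / (8 d - 4))`, so `p⁻¹ ≤ 2 ^ d exp (3 d / (8 d - 4)) ≤ 2 ^ d exp (3 / 4) ≤ 2.12 * 2 ^ d`; `1 + 4 d ≤ (1 + d) ^ 3`, so `log (1 + 4 d) ≤ 3 log (d + 1)`; and `1 ≤ 2 ^ d d log (d + 1)`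
(`2 log 2 > 1`). So `n ≤ (3 * 2.12 + 1) 2 ^ d d log (d + 1)`. -/
theorem numbers_upper (d : ℕ) (hd : 1 ≤ d) : ∃ (n : ℕ) (lam del : ℝ), 0 < lam ∧ 0 < del ∧ lam + del < 1 ∧
    (1 - (lam / (1 + del + lam)) ^ d) ^ n * (1 + del) ^ d < del ^ d ∧
    (n : ℝ) ≤ 8 * d * Real.log (d + 1) * 2 ^ d := by
  have hD : (1 : ℝ) ≤ (d : ℝ) := by exact_mod_cast hd
  have hD0 : (0 : ℝ) < (d : ℝ) := by linarith
  obtain ⟨D, hDd⟩ : ∃ D : ℝ, D = (d : ℝ) := ⟨_, rfl⟩
  rw [← hDd] at hD hD0 ⊢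
  obtain ⟨q, hq⟩ : ∃ q : ℝ, q = (1 - 2 * (1 / (4 * D))) / (1 + 1 / (4 * D) + (1 - 2 * (1 / (4 * D)))) := ⟨_, rfl⟩
  have hdel : 0 < 1 / (4 * D) := by positivity
  have hdel4 : 1 / (4 * D) ≤ 1 / 4 := by
    apply one_div_le_one_div_of_le (by norm_num)
    linarith
  have hlam : 0 < 1 - 2 * (1 / (4 * D)) := by linarith
  have hden : 0 < 1 + 1 / (4 * D) + (1 - 2 * (1 / (4 * D))) := by linarith
  have hq0 : 0 < q := by
    rw [hq]
    exact div_pos hlam hden
  have hq1 : q ≤ 1 := by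
    rw [hq, div_le_one hden]
    linarith
  obtain ⟨p, hp⟩ : ∃ p : ℝ, p = q ^ d := ⟨_, rfl⟩
  have hp0 : 0 < p := by
    rw [hp]
    exact pow_pos hq0 _
  have hp1 : p ≤ 1 := by
    rw [hp]
    exact pow_le_one₀ hq0.le hq1
  have hlog : 0 < Real.log (1 + 4 * D) := Real.log_pos (by linarith)
  obtain ⟨n, hn⟩ : ∃ n : ℕ, n = ⌊p⁻¹ * D * Real.log (1 + 4 * D)⌋₊ + 1 := ⟨_, rfl⟩
  have hX0 : 0 ≤ p⁻¹ * D * Real.log (1 + 4 * D) := by positivity
  have hn1 : p⁻¹ * D * Real.log (1 + 4 * D) < (n : ℝ) := by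
    rw [hn]
    push_cast
    exact Nat.lt_floor_add_one _
  have hn2 : (n : ℝ) ≤ p⁻¹ * D * Real.log (1 + 4 * D) + 1 := by
    rw [hn]
    push_cast
    have := Nat.floor_le hX0
    linarith
  refine ⟨n, 1 - 2 * (1 / (4 * D)), 1 / (4 * D), hlam, hdel, by linarith, ?_, ?_⟩
  · rw [← hq, ← hp]
    have h1 : (1 - p) ^ n ≤ Real.exp (-(p * n)) := by
      have h2 : 1 - p ≤ Real.exp (-p) := by
        have := Real.add_one_le_exp (-p)
        linarith
      have h3 : (1 - p) ^ n ≤ Real.exp (-p) ^ n := pow_le_pow_left₀ (by linarith) h2 n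
      rw [← Real.exp_nat_mul] at h3
      have h4 : (n : ℝ) * -p = -(p * n) := by ring
      rwa [h4] at h3
    have h5 : D * Real.log (1 + 4 * D) < p * n := by
      have h6 := mul_lt_mul_of_pos_left hn1 hp0
      have h7 : p * (p⁻¹ * D * Real.log (1 + 4 * D)) = D * Real.log (1 + 4 * D) := by
        field_simp
      rwa [h7] at h6
    have h8 : Real.exp (-(p * n)) < Real.exp (-(D * Real.log (1 + 4 * D))) :=
      Real.exp_lt_exp.2 (by linarith)
    have h9 : Real.exp (-(D * Real.log (1 + 4 * D))) = ((1 + 4 * D)⁻¹) ^ d := by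
      rw [Real.exp_neg, hDd, Real.exp_nat_mul, Real.exp_log (by positivity), inv_pow]
    have h10 : (1 - p) ^ n < ((1 + 4 * D)⁻¹) ^ d := by
      rw [← h9]
      exact lt_of_le_of_lt h1 h8
    have h11 : (0 : ℝ) < (1 + 1 / (4 * D)) ^ d := by positivity
    have h12 := mul_lt_mul_of_pos_right h10 h11
    rw [← mul_pow] at h12
    have h13 : (1 + 4 * D)⁻¹ * (1 + 1 / (4 * D)) = 1 / (4 * D) := by
      have h14 : (1 + 4 * D) ≠ 0 := by positivity
      have h15 : D ≠ 0 := hD0.ne'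
      field_simp
      ring
    rwa [h13] at h12
  · have hpinv : p⁻¹ ≤ 212 / 100 * 2 ^ d := by
      have h1 : q⁻¹ = 2 * (1 + 3 / (8 * D - 4)) := by
        have h2 : (8 * D - 4) ≠ 0 := by
          have : 0 < 8 * D - 4 := by linarith
          exact this.ne'
        have h3 : D ≠ 0 := hD0.ne'
        have h4 : (2 * D - 1) ≠ 0 := by
          have : 0 < 2 * D - 1 := by linarith
          exact this.ne'
        have h5 : q = (2 * D - 1) * 2 / (8 * D - 1) := by
          rw [hq]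
          have h6 : (8 * D - 1) ≠ 0 := by
            have : 0 < 8 * D - 1 := by linarith
            exact this.ne'
          rw [div_eq_div_iff hden.ne' h6]
          field_simp
          ring
        rw [h5, inv_div]
        have h7 : (8 * D - 4) = 4 * (2 * D - 1) := by ring
        rw [h7]
        have h8 : 3 / (4 * (2 * D - 1)) * (2 * D - 1) = 3 / 4 := by
          rw [div_mul_eq_mul_div, div_eq_div_iff (mul_ne_zero (by norm_num) h4) (by norm_num)]
          ring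
        rw [div_eq_iff (mul_ne_zero h4 (by norm_num))]
        linear_combination (-4) * h8
      have h2 : p⁻¹ = 2 ^ d * (1 + 3 / (8 * D - 4)) ^ d := by
        rw [hp, ← inv_pow, h1, mul_pow]
      have h84 : 0 < 8 * D - 4 := by linarith
      have h3 : (1 + 3 / (8 * D - 4)) ^ d ≤ Real.exp (3 / 4) := by
        have h4 : 1 + 3 / (8 * D - 4) ≤ Real.exp (3 / (8 * D - 4)) := by
          have := Real.add_one_le_exp (3 / (8 * D - 4))
          linarith
        have h5 : (1 + 3 / (8 * D - 4)) ^ d ≤ Real.exp (3 / (8 * D - 4)) ^ d :=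
          pow_le_pow_left₀ (by positivity) h4 d
        refine h5.trans ?_
        rw [← Real.exp_nat_mul, ← hDd]
        apply Real.exp_le_exp.2
        rw [mul_div_assoc', div_le_div_iff₀ h84 (by norm_num)]
        linarith
      rw [h2]
      have h6 : (0 : ℝ) < 2 ^ d := by positivity
      calc (2 : ℝ) ^ d * (1 + 3 / (8 * D - 4)) ^ d ≤ 2 ^ d * (212 / 100) :=
            mul_le_mul_of_nonneg_left (h3.trans U3_exp) h6.le
        _ = 212 / 100 * 2 ^ d := by ring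
    have hlog3 : Real.log (1 + 4 * D) ≤ 3 * Real.log (D + 1) := by
      have h1 : 3 * Real.log (D + 1) = Real.log ((D + 1) ^ 3) := by
        rw [Real.log_pow]
        norm_num
      rw [h1]
      apply Real.log_le_log (by linarith)
      nlinarith [sq_nonneg D, pow_pos hD0 3]
    have hL : (69 / 100 : ℝ) ≤ Real.log (D + 1) := by
      have h1 : Real.log 2 ≤ Real.log (D + 1) := Real.log_le_log (by norm_num) (by linarith)
      have h2 := Real.log_two_gt_d9
      linarith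
    have h2d : (2 : ℝ) ≤ 2 ^ d := by
      calc (2 : ℝ) = 2 ^ 1 := (pow_one 2).symm
        _ ≤ 2 ^ d := pow_le_pow_right₀ (by norm_num) hd
    have hone : 1 ≤ D * Real.log (D + 1) * 2 ^ d := by
      have h1 : (69 / 100 : ℝ) ≤ D * Real.log (D + 1) := by nlinarith
      nlinarith
    have h1 : p⁻¹ * D * Real.log (1 + 4 * D) ≤ 212 / 100 * 2 ^ d * D * (3 * Real.log (D + 1)) := by
      apply mul_le_mul _ hlog3 hlog.le (by positivity)
      exact mul_le_mul_of_nonneg_right hpinv hD0.le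
    have h3 : 0 ≤ D * Real.log (D + 1) * 2 ^ d := by linarith
    nlinarith

end Newton54G
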